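import Pool.Agent.MP_1b0c96_an.Defs

/-!
# [BT-A1] Triangles and fans in the plane
-/

set_option autoImplicit false

open MeasureTheory

namespace BakerTrap

/-- twice the signed area of the triangle `a b c` -/
def cr (a b c : ℝ × ℝ) : ℝ := (b.1 - a.1) * (c.2 - a.2) - (b.2 - a.2) * (c.1 - a.1)

/-- the image of the open standard simplex under `(s, t) ↦ w + s (a - w) + t (b - w)` -/
def otri (w a b : ℝ × ℝ) : Set (ℝ × ℝ) :=
  {z | ∃ s t : ℝ, 0 < s ∧ 0 < t ∧ s + t < 1 ∧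
    z = (w.1 + s * (a.1 - w.1) + t * (b.1 - w.1), w.2 + s * (a.2 - w.2) + t * (b.2 - w.2))}

/-- the closed triangle -/
def ctri (w a b : ℝ × ℝ) : Set (ℝ × ℝ) :=
  {z | ∃ s t : ℝ, 0 ≤ s ∧ 0 ≤ t ∧ s + t ≤ 1 ∧
    z = (w.1 + s * (a.1 - w.1) + t * (b.1 - w.1), w.2 + s * (a.2 - w.2) + t * (b.2 - w.2))}

/-- the linear map `(s, t) ↦ s u + t v` -/
noncomputable def a1_L (u v : ℝ × ℝ) : ℝ × ℝ →ₗ[ℝ] ℝ × ℝ where
  toFun z := z.1 • u + z.2 • v
  map_add' z w := by
    simp only [Prod.fst_add, Prod.snd_add, add_smul]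
    abel
  map_smul' c z := by
    simp only [Prod.smul_fst, Prod.smul_snd, smul_eq_mul, mul_smul, RingHom.id_apply, smul_add]

theorem a1_det (u v : ℝ × ℝ) : LinearMap.det (a1_L u v) = u.1 * v.2 - u.2 * v.1 := by
  rw [← LinearMap.det_toMatrix (Module.Basis.finTwoProd ℝ), Matrix.det_fin_two]
  simp [LinearMap.toMatrix_apply, a1_L]
  ring

/-- the open standard triangle -/
def a1_T : Set (ℝ × ℝ) := {z | 0 < z.1 ∧ 0 < z.2 ∧ z.1 + z.2 < 1}

/-- the closed standard triangle -/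
def a1_T' : Set (ℝ × ℝ) := {z | 0 ≤ z.1 ∧ 0 ≤ z.2 ∧ z.1 + z.2 ≤ 1}

theorem a1_vol : volume a1_T = ENNReal.ofReal (1 / 2) := by
  have h1 : a1_T = regionBetween (fun _ => (0 : ℝ)) (fun x => 1 - x) (Set.Ioo 0 1) := by
    ext z
    simp only [a1_T, regionBetween, Set.mem_ofPred_eq, Set.mem_Ioo]
    constructor
    · rintro ⟨h1, h2, h3⟩
      exact ⟨⟨h1, by linarith⟩, h2, by linarith⟩
    · rintro ⟨⟨h1, h2⟩, h3, h4⟩
      exact ⟨h1, h3, by linarith⟩
  rw [h1]
  rw [MeasureTheory.Measure.volume_eq_prod, volume_regionBetween_eq_integral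
    (by
      refine (continuous_const.integrableOn_Icc (a := 0) (b := 1)).mono_set Set.Ioo_subset_Icc_self)
    (by
      refine (Continuous.integrableOn_Icc (a := 0) (b := 1) (by fun_prop)).mono_set
        Set.Ioo_subset_Icc_self)
    measurableSet_Ioo (fun x hx => by
      linarith [hx.2])]
  congr 1
  rw [← MeasureTheory.integral_Ioc_eq_integral_Ioo, ← intervalIntegral.integral_of_le zero_le_one]
  have h2 : (∫ x : ℝ in (0:ℝ)..1, ((fun x : ℝ => 1 - x) - (fun _ : ℝ => (0:ℝ))) x)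
      = ∫ x : ℝ in (0:ℝ)..1, ((1 : ℝ) - x) := by
    simp only [Pi.sub_apply, sub_zero]
  rw [h2, intervalIntegral.integral_sub (by simp) (by simp), integral_id]
  simp
  norm_num

theorem a1_convex : Convex ℝ a1_T := by
  rw [convex_iff_forall_pos]
  rintro x ⟨hx1, hx2, hx3⟩ y ⟨hy1, hy2, hy3⟩ a b ha hb hab
  refine ⟨?_, ?_, ?_⟩
  · simp only [Prod.fst_add, Prod.smul_fst, smul_eq_mul]
    positivity
  · simp only [Prod.snd_add, Prod.smul_snd, smul_eq_mul]
    positivity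
  · simp only [Prod.snd_add, Prod.smul_snd, Prod.fst_add, Prod.smul_fst, smul_eq_mul]
    have h1 := mul_lt_mul_of_pos_left hx3 ha
    have h2 := mul_lt_mul_of_pos_left hy3 hb
    nlinarith

theorem a1_sub : a1_T' ⊆ closure a1_T := by
  rintro ⟨x, y⟩ ⟨h1, h2, h3⟩
  dsimp only at h1 h2 h3
  have hc : Continuous (fun ε : ℝ => (((1 - ε) * x + ε / 3, (1 - ε) * y + ε / 3) : ℝ × ℝ)) := by
    fun_prop
  have ht : Filter.Tendsto (fun ε : ℝ => (((1 - ε) * x + ε / 3, (1 - ε) * y + ε / 3) : ℝ × ℝ))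
      (nhdsWithin 0 (Set.Ioi 0)) (nhds (x, y)) := by
    have h4 := hc.tendsto 0
    simp only [sub_zero, one_mul, zero_div, add_zero] at h4
    exact h4.mono_left nhdsWithin_le_nhds
  refine mem_closure_of_tendsto ht ?_
  filter_upwards [Ioo_mem_nhdsGT (show (0 : ℝ) < 1 by norm_num)] with ε hε
  obtain ⟨e1, e2⟩ := hε
  have e3 : 0 < 1 - ε := by linarith
  refine ⟨?_, ?_, ?_⟩
  · dsimp only
    have := mul_nonneg e3.le h1
    linarith
  · dsimp only
    have := mul_nonneg e3.le h2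
    linarith
  · dsimp only
    have := mul_le_mul_of_nonneg_left h3 e3.le
    nlinarith

theorem a1_vol' : volume a1_T' ≤ ENNReal.ofReal (1 / 2) := by
  rw [← a1_vol]
  refine (measure_mono a1_sub).trans ?_
  rw [closure_eq_self_union_frontier]
  refine (measure_union_le _ _).trans ?_
  rw [a1_convex.addHaar_frontier volume, add_zero]

theorem a1_tr (w : ℝ × ℝ) (s : Set (ℝ × ℝ)) : volume ((fun x => w + x) '' s) = volume s := by
  rw [Set.image_add_left, measure_preimage_add]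

theorem a1_o (w a b : ℝ × ℝ) : otri w a b =
    (fun x => w + x) '' (a1_L (a - w) (b - w) '' a1_T) := by
  ext z
  constructor
  · rintro ⟨s, t, h1, h2, h3, rfl⟩
    refine ⟨_, ⟨(s, t), ⟨h1, h2, h3⟩, rfl⟩, ?_⟩
    show w + (s • (a - w) + t • (b - w)) = _
    ext
    · simp only [Prod.fst_add, Prod.smul_fst, Prod.fst_sub, smul_eq_mul]
      ring
    · simp only [Prod.snd_add, Prod.smul_snd, Prod.snd_sub, smul_eq_mul]
      ring
  · rintro ⟨_, ⟨⟨s, t⟩, ⟨h1, h2, h3⟩, rfl⟩, rfl⟩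
    refine ⟨s, t, h1, h2, h3, ?_⟩
    show w + (s • (a - w) + t • (b - w)) = _
    ext
    · simp only [Prod.fst_add, Prod.smul_fst, Prod.fst_sub, smul_eq_mul]
      ring
    · simp only [Prod.snd_add, Prod.smul_snd, Prod.snd_sub, smul_eq_mul]
      ring

theorem a1_c (w a b : ℝ × ℝ) : ctri w a b =
    (fun x => w + x) '' (a1_L (a - w) (b - w) '' a1_T') := by
  ext z
  constructor
  · rintro ⟨s, t, h1, h2, h3, rfl⟩
    refine ⟨_, ⟨(s, t), ⟨h1, h2, h3⟩, rfl⟩, ?_⟩
    show w + (s • (a - w) + t • (b - w)) = _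
    ext
    · simp only [Prod.fst_add, Prod.smul_fst, Prod.fst_sub, smul_eq_mul]
      ring
    · simp only [Prod.snd_add, Prod.smul_snd, Prod.snd_sub, smul_eq_mul]
      ring
  · rintro ⟨_, ⟨⟨s, t⟩, ⟨h1, h2, h3⟩, rfl⟩, rfl⟩
    refine ⟨s, t, h1, h2, h3, ?_⟩
    show w + (s • (a - w) + t • (b - w)) = _
    ext
    · simp only [Prod.fst_add, Prod.smul_fst, Prod.fst_sub, smul_eq_mul]
      ring
    · simp only [Prod.snd_add, Prod.smul_snd, Prod.snd_sub, smul_eq_mul]
      ring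

theorem a1_cr (w a b : ℝ × ℝ) : LinearMap.det (a1_L (a - w) (b - w)) = cr w a b := by
  rw [a1_det]
  simp only [Prod.fst_sub, Prod.snd_sub, cr]

/-- [A1a] PROOF. Volume of the open triangle. Compare `Pool/Agent/Leb/Geo.lean` (`geo_vol`,
`geo_det`, `Vc_tri`: the same in `ℂ`): `otri w a b` is the translate by `w` of the image of the open
standard simplex (volume `1/2`, `volume_regionBetween_eq_integral`) under a linear map with
determinant `cr w a b` (`MeasureTheory.Measure.addHaar_image_linearMap`; use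
`Basis.finTwoProd ℝ` and `LinearMap.det_toLin`, or transport to `ℂ` with
`Complex.volume_preserving_equiv_real_prod`). -/
theorem volume_otri (w a b : ℝ × ℝ) (h : cr w a b ≠ 0) :
    volume (otri w a b) = ENNReal.ofReal (|cr w a b| / 2) := by
  rw [a1_o, a1_tr, MeasureTheory.Measure.addHaar_image_linearMap, a1_cr, a1_vol,
    ← ENNReal.ofReal_mul (abs_nonneg _)]
  congr 1
  ring

/-- [A1b] PROOF. As A1a with the closed simplex (`≤`, volume `1/2`). Only `≤` is needed. -/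
theorem volume_ctri_le (w a b : ℝ × ℝ) :
    volume (ctri w a b) ≤ ENNReal.ofReal (|cr w a b| / 2) := by
  rw [a1_c, a1_tr, MeasureTheory.Measure.addHaar_image_linearMap, a1_cr,
    show |cr w a b| / 2 = |cr w a b| * (1 / 2) by ring, ENNReal.ofReal_mul (abs_nonneg _)]
  exact mul_le_mul_right a1_vol' _

end BakerTrap
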