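import Pool.Agent.MP_1b0c96_an.A1

/-!
# [BT-A1c] Fans
-/

set_option autoImplicit false

open MeasureTheory

namespace BakerTrap

/-- `f` lies on the closed left side of the line through `e` and not on this line -/
def Sep (e f : (ℝ × ℝ) × (ℝ × ℝ)) : Prop :=
  0 ≤ cr e.1 e.2 f.1 ∧ 0 ≤ cr e.1 e.2 f.2 ∧ (0 < cr e.1 e.2 f.1 ∨ 0 < cr e.1 e.2 f.2)

/-- the functional `cr a b` at a point of the triangle -/
theorem a1c_aff (a b w c d z : ℝ × ℝ) (s t : ℝ)
    (hz : z = (w.1 + s * (c.1 - w.1) + t * (d.1 - w.1), w.2 + s * (c.2 - w.2) + t * (d.2 - w.2))) :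
    cr a b z = (1 - s - t) * cr a b w + s * cr a b c + t * cr a b d := by
  rw [hz]
  unfold cr
  ring

theorem a1c_self (a b : ℝ × ℝ) : cr a b a = 0 ∧ cr a b b = 0 := by
  unfold cr
  constructor <;> ring

theorem a1c_pos (e f : (ℝ × ℝ) × (ℝ × ℝ)) (h : Sep e f) {s t : ℝ} (hs : 0 < s) (ht : 0 < t) :
    0 < s * cr e.1 e.2 f.1 + t * cr e.1 e.2 f.2 := by
  obtain ⟨h1, h2, h3⟩ := h
  rcases h3 with h3 | h3
  · have := mul_pos hs h3
    have := mul_nonneg ht.le h2
    linarith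
  · have := mul_pos ht h3
    have := mul_nonneg hs.le h1
    linarith

/-- [A1c] two triangles with apex `w` over separated edges are disjoint. PROOF. Let `z` be in both,
`(a, b) = e`, `(c, d) = f`, `F p = cr a b p`, `G p = cr c d p`; `F w = cr w a b > 0`, `G w > 0`.
With `z = w + s (c - w) + t (d - w)`: `F z = (1 - s - t) F w + s F c + t F d > (1 - s - t) F w` and
`G z = (1 - s - t) G w` (as `G c = G d = 0`), so `F z * G w > G z * F w`. By symmetry
`G z * F w > F z * G w`, contradiction. -/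
theorem otri_disjoint (w : ℝ × ℝ) (e f : (ℝ × ℝ) × (ℝ × ℝ)) (he : 0 < cr e.1 e.2 w)
    (hf : 0 < cr f.1 f.2 w) (h1 : Sep e f) (h2 : Sep f e) :
    Disjoint (otri w e.1 e.2) (otri w f.1 f.2) := by
  rw [Set.disjoint_left]
  rintro z ⟨s', t', hs', ht', -, hz'⟩ ⟨s, t, hs, ht, -, hz⟩
  have e1 := a1c_aff e.1 e.2 w e.1 e.2 z s' t' hz'
  have e2 := a1c_aff e.1 e.2 w f.1 f.2 z s t hz
  have e3 := a1c_aff f.1 f.2 w e.1 e.2 z s' t' hz'
  have e4 := a1c_aff f.1 f.2 w f.1 f.2 z s t hz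
  rw [(a1c_self e.1 e.2).1, (a1c_self e.1 e.2).2] at e1
  rw [(a1c_self f.1 f.2).1, (a1c_self f.1 f.2).2] at e4
  have p1 := a1c_pos e f h1 hs ht
  have p2 := a1c_pos f e h2 hs' ht'
  have q1 : 0 < (s + t - s' - t') * cr e.1 e.2 w := by nlinarith
  have q2 : 0 < (s' + t' - s - t) * cr f.1 f.2 w := by nlinarith
  have r1 : 0 < s + t - s' - t' := by
    by_contra h
    have := mul_nonpos_of_nonpos_of_nonneg (not_lt.1 h) he.le
    linarith
  have r2 : 0 < s' + t' - s - t := by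
    by_contra h
    have := mul_nonpos_of_nonpos_of_nonneg (not_lt.1 h) hf.le
    linarith
  linarith

theorem a1c_cyc (a b w : ℝ × ℝ) : cr w a b = cr a b w := by
  unfold cr
  ring

/-- a nondegenerate open triangle is open -/
theorem a1c_open (w a b : ℝ × ℝ) (h : cr w a b ≠ 0) : IsOpen (otri w a b) := by
  have key : otri w a b = {z : ℝ × ℝ |
      0 < ((z.1 - w.1) * (b.2 - w.2) - (z.2 - w.2) * (b.1 - w.1)) / cr w a b ∧
      0 < ((a.1 - w.1) * (z.2 - w.2) - (a.2 - w.2) * (z.1 - w.1)) / cr w a b ∧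
      ((z.1 - w.1) * (b.2 - w.2) - (z.2 - w.2) * (b.1 - w.1)) / cr w a b +
        ((a.1 - w.1) * (z.2 - w.2) - (a.2 - w.2) * (z.1 - w.1)) / cr w a b < 1} := by
    ext z
    constructor
    · rintro ⟨s, t, hs, ht, hst, hz⟩
      have e1 : ((z.1 - w.1) * (b.2 - w.2) - (z.2 - w.2) * (b.1 - w.1)) / cr w a b = s := by
        rw [div_eq_iff h, hz]
        unfold cr
        ring
      have e2 : ((a.1 - w.1) * (z.2 - w.2) - (a.2 - w.2) * (z.1 - w.1)) / cr w a b = t := by
        rw [div_eq_iff h, hz]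
        unfold cr
        ring
      show _ ∧ _ ∧ _
      rw [e1, e2]
      exact ⟨hs, ht, hst⟩
    · rintro ⟨h1, h2, h3⟩
      refine ⟨_, _, h1, h2, h3, ?_⟩
      refine Prod.ext ?_ ?_
      · show z.1 = _
        field_simp
        unfold cr
        ring
      · show z.2 = _
        field_simp
        unfold cr
        ring
  rw [key]
  have c1 : Continuous fun z : ℝ × ℝ =>
      ((z.1 - w.1) * (b.2 - w.2) - (z.2 - w.2) * (b.1 - w.1)) / cr w a b := by fun_prop
  have c2 : Continuous fun z : ℝ × ℝ =>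
      ((a.1 - w.1) * (z.2 - w.2) - (a.2 - w.2) * (z.1 - w.1)) / cr w a b := by fun_prop
  exact (isOpen_lt continuous_const c1).inter ((isOpen_lt continuous_const c2).inter
    (isOpen_lt (c1.add c2) continuous_const))

theorem a1c_sub {K : Set (ℝ × ℝ)} (hc : Convex ℝ K) {w a b : ℝ × ℝ} (hw : w ∈ K) (ha : a ∈ K)
    (hb : b ∈ K) : otri w a b ⊆ K := by
  rintro z ⟨s, t, hs, ht, hst, hz⟩
  have hp : 0 < s + t := by linarith
  have h1 : (s / (s + t)) • a + (t / (s + t)) • b ∈ K :=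
    hc ha hb (by positivity) (by positivity) (by field_simp)
  have h2 : (1 - (s + t)) • w + (s + t) • ((s / (s + t)) • a + (t / (s + t)) • b) ∈ K :=
    hc hw h1 (by linarith) hp.le (by ring)
  convert h2 using 1
  rw [hz]
  refine Prod.ext ?_ ?_
  · simp only [Prod.fst_add, Prod.smul_fst, smul_eq_mul]
    field_simp
    ring
  · simp only [Prod.snd_add, Prod.smul_snd, smul_eq_mul]
    field_simp
    ring

/-- the triangle over an edge, empty if `w` is on the wrong side -/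
def a1c_V (w : ℝ × ℝ) (e : (ℝ × ℝ) × (ℝ × ℝ)) : Set (ℝ × ℝ) :=
  {z | 0 < cr e.1 e.2 w ∧ z ∈ otri w e.1 e.2}

/-- the union of the triangles -/
def a1c_U (w : ℝ × ℝ) (E : List ((ℝ × ℝ) × (ℝ × ℝ))) : Set (ℝ × ℝ) :=
  {z | ∃ e ∈ E, z ∈ a1c_V w e}

theorem a1c_V_meas (w : ℝ × ℝ) (e : (ℝ × ℝ) × (ℝ × ℝ)) :
    MeasurableSet (a1c_V w e) ∧
      volume (a1c_V w e) = ENNReal.ofReal (max 0 (cr e.1 e.2 w) / 2) := by
  by_cases h : 0 < cr e.1 e.2 w
  · have h1 : a1c_V w e = otri w e.1 e.2 := by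
      ext z
      exact ⟨fun hz => hz.2, fun hz => ⟨h, hz⟩⟩
    have h2 : cr w e.1 e.2 ≠ 0 := by
      rw [a1c_cyc]
      exact h.ne'
    rw [h1]
    refine ⟨(a1c_open _ _ _ h2).measurableSet, ?_⟩
    rw [volume_otri _ _ _ h2, a1c_cyc, abs_of_pos h, max_eq_right h.le]
  · have h1 : a1c_V w e = ∅ := by
      ext z
      simp only [Set.mem_empty_iff_false, iff_false]
      exact fun hz => h hz.1
    rw [h1, max_eq_left (not_lt.1 h)]
    simp

theorem a1c_vol (w : ℝ × ℝ) (E : List ((ℝ × ℝ) × (ℝ × ℝ)))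
    (hsep : E.Pairwise (fun e f => Sep e f ∧ Sep f e)) :
    volume (a1c_U w E) = ENNReal.ofReal ((E.map (fun e => max 0 (cr e.1 e.2 w))).sum / 2) := by
  induction E with
  | nil =>
    have : a1c_U w [] = ∅ := by
      ext z
      simp [a1c_U]
    rw [this]
    simp
  | cons e E ih =>
    rw [List.pairwise_cons] at hsep
    have h1 : a1c_U w (e :: E) = a1c_V w e ∪ a1c_U w E := by
      ext z
      simp [a1c_U]
    have h2 : Disjoint (a1c_V w e) (a1c_U w E) := by
      rw [Set.disjoint_left]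
      rintro z hz ⟨f, hf, hz'⟩
      exact Set.disjoint_left.1 (otri_disjoint w e f hz.1 hz'.1 (hsep.1 f hf).1 (hsep.1 f hf).2)
        hz.2 hz'.2
    rw [h1, measure_union' h2 (a1c_V_meas w e).1, (a1c_V_meas w e).2, ih hsep.2,
      ← ENNReal.ofReal_add]
    · congr 1
      rw [List.map_cons, List.sum_cons]
      ring
    · exact div_nonneg (le_max_left _ _) zero_le_two
    · refine div_nonneg (List.sum_nonneg ?_) zero_le_two
      intro x hx
      rw [List.mem_map] at hx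
      obtain ⟨f, -, rfl⟩ := hx
      exact le_max_left _ _

/-- [A1d] the fan inequality. PROOF. By induction on the list `E` one proves that the union of the
open triangles `otri w e.1 e.2`, `e ∈ E`, `0 < cr e.1 e.2 w`, has measure
`ENNReal.ofReal` of the sum (A1a, A1c; `otri` is measurable: it is open, or an image as in A1a; or
use `measure_union₀`-type lemmas); it is contained in the convex set `K`. -/
theorem fan_area {K : Set (ℝ × ℝ)} (hc : Convex ℝ K) (hK : IsCompact K)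
    (E : List ((ℝ × ℝ) × (ℝ × ℝ))) (hE : ∀ e ∈ E, e.1 ∈ K ∧ e.2 ∈ K) (w : ℝ × ℝ) (hw : w ∈ K)
    (hsep : E.Pairwise (fun e f => Sep e f ∧ Sep f e)) :
    (E.map (fun e => max 0 (cr e.1 e.2 w))).sum / 2 ≤ (volume K).toReal := by
  have h1 : a1c_U w E ⊆ K := by
    rintro z ⟨e, he, hz⟩
    exact a1c_sub hc hw (hE e he).1 (hE e he).2 hz.2
  have h2 := measure_mono (μ := volume) h1
  rw [a1c_vol w E hsep] at h2
  rwa [ENNReal.ofReal_le_iff_le_toReal hK.measure_lt_top.ne] at h2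

end BakerTrap
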