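import Pool.Agent.MP_1b0c96_an.A1

/-!
# [BT-A2] Upper bound for the area of a convex polygon
-/

set_option autoImplicit false

open MeasureTheory

namespace BakerTrap

theorem a2_swap (a b c : ℝ × ℝ) : cr b a c = - cr a b c := by
  unfold cr
  ring

theorem a2_ctri {v p q z : ℝ × ℝ} (h1 : 0 ≤ cr v p z) (h2 : 0 < cr p q z) (h3 : cr v q z < 0) :
    z ∈ ctri v p q := by
  have hD : cr v p q = cr v p z + cr p q z - cr v q z := by
    unfold cr
    ring
  have hDpos : 0 < cr v p q := by rw [hD]; linarith
  have hne : cr v p q ≠ 0 := hDpos.ne'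
  refine ⟨-cr v q z / cr v p q, cr v p z / cr v p q, ?_, ?_, ?_, ?_⟩
  · exact div_nonneg (by linarith) hDpos.le
  · exact div_nonneg h1 hDpos.le
  · rw [← add_div, div_le_one hDpos, hD]
    linarith
  · refine Prod.ext ?_ ?_
    · simp only
      field_simp
      unfold cr
      ring
    · simp only
      field_simp
      unfold cr
      ring

theorem a2_aux (v : ℝ × ℝ) (l : List (ℝ × ℝ)) : ∀ p : ℝ × ℝ,
    volume {z : ℝ × ℝ | 0 ≤ cr v p z ∧
      (p :: l).IsChain (fun a b => 0 < cr a b z) ∧
      0 < cr ((p :: l).getLast (List.cons_ne_nil _ _)) v z} ≤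
    ENNReal.ofReal ((List.zipWith (fun a b => |cr v a b| / 2) (p :: l) l).sum) := by
  induction l with
  | nil =>
    intro p
    have h1 : {z : ℝ × ℝ | 0 ≤ cr v p z ∧
      ([p] : List (ℝ × ℝ)).IsChain (fun a b => 0 < cr a b z) ∧
      0 < cr (([p] : List (ℝ × ℝ)).getLast (List.cons_ne_nil _ _)) v z} = ∅ := by
      ext z
      refine ⟨?_, fun h => absurd h (Set.notMem_empty z)⟩
      rintro ⟨h, -, h'⟩
      exfalso
      rw [List.getLast_singleton, a2_swap] at h'
      linarith
    rw [h1, measure_empty]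
    exact bot_le
  | cons q l ih =>
    intro p
    have hsub : {z : ℝ × ℝ | 0 ≤ cr v p z ∧
        (p :: q :: l).IsChain (fun a b => 0 < cr a b z) ∧
        0 < cr ((p :: q :: l).getLast (List.cons_ne_nil _ _)) v z} ⊆
        ctri v p q ∪ {z : ℝ × ℝ | 0 ≤ cr v q z ∧
          (q :: l).IsChain (fun a b => 0 < cr a b z) ∧
          0 < cr ((q :: l).getLast (List.cons_ne_nil _ _)) v z} := by
      rintro z ⟨h1, h2, h3⟩
      rw [List.isChain_cons_cons] at h2
      rw [List.getLast_cons (List.cons_ne_nil _ _)] at h3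
      by_cases h4 : 0 ≤ cr v q z
      · exact Or.inr ⟨h4, h2.2, h3⟩
      · exact Or.inl (a2_ctri h1 h2.1 (not_le.1 h4))
    have hsum : (List.zipWith (fun a b => |cr v a b| / 2) (p :: q :: l) (q :: l)).sum =
        |cr v p q| / 2 + (List.zipWith (fun a b => |cr v a b| / 2) (q :: l) l).sum := by
      rw [List.zipWith_cons_cons, List.sum_cons]
    have hnn : 0 ≤ (List.zipWith (fun a b => |cr v a b| / 2) (q :: l) l).sum := by
      refine List.sum_nonneg fun x hx => ?_
      rw [List.mem_iff_getElem] at hx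
      obtain ⟨i, hi, rfl⟩ := hx
      rw [List.getElem_zipWith]
      positivity
    rw [hsum, ENNReal.ofReal_add (by positivity) hnn]
    exact (measure_mono hsub).trans ((measure_union_le _ _).trans
      (add_le_add (volume_ctri_le v p q) (ih q)))

/-- [A2] upper bound for the area of a polygon `v, l₀, l₁, ..., l_m` (counterclockwise) which is
given by its edges. PROOF. For `z` in the set, walk along the list: `cr v l₀ z > 0` (first
hypothesis), `cr v l_m z < 0` (last edge), so there are consecutive `p, q` in the list with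
`0 ≤ cr v p z`, `cr v q z < 0`; together with `0 < cr p q z` this gives `z ∈ ctri v p q`
(`cr v p z + cr p q z + cr q v z = cr v p q`, and
`z = v + (cr q v z / D) (p - v) + (cr v p z / D) (q - v)`, `D = cr v p q > 0`). Induction on the list:
the set of `z` with `0 ≤ cr v l₀ z`, `cr (last) v z > 0` and positive for all consecutive edges is
contained in the union of the `ctri v p q`. -/
theorem polygon_area_le (v : ℝ × ℝ) (p : ℝ × ℝ) (l : List (ℝ × ℝ)) :
    volume {z : ℝ × ℝ | 0 < cr v p z ∧
      (p :: l).IsChain (fun a b => 0 < cr a b z) ∧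
      0 < cr ((p :: l).getLast (List.cons_ne_nil _ _)) v z} ≤
    ENNReal.ofReal ((List.zipWith (fun a b => |cr v a b| / 2) (p :: l) l).sum) :=
  (measure_mono (by
    rintro z ⟨h1, h2, h3⟩
    exact ⟨h1.le, h2, h3⟩)).trans (a2_aux v l p)

end BakerTrap
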