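import Pool.Agent.MP_1b0c96_an.Defs

/-!
# [BT-A3] Thickening of a compact convex set
-/

set_option autoImplicit false

open MeasureTheory

namespace BakerTrap

/-- the slices of a compact set are compact -/
theorem a3_slice_compact {S : Set (ℝ × ℝ)} (hS : IsCompact S) (x : ℝ) :
    IsCompact (Prod.mk x ⁻¹' S) := by
  refine IsCompact.of_isClosed_subset (hS.image continuous_snd) ?_ ?_
  · exact hS.isClosed.preimage (by fun_prop)
  · intro y hy
    exact ⟨(x, y), hy, rfl⟩

/-- the slices of a convex set are convex -/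
theorem a3_slice_convex {S : Set (ℝ × ℝ)} (hc : Convex ℝ S) (x : ℝ) :
    Convex ℝ (Prod.mk x ⁻¹' S) := by
  intro a ha b hb s t hs ht hst
  have h := hc ha hb hs ht hst
  have e : s • ((x, a) : ℝ × ℝ) + t • ((x, b) : ℝ × ℝ) = (x, s • a + t • b) := by
    ext
    · simp only [Prod.fst_add, Prod.smul_fst, smul_eq_mul]
      rw [← add_mul, hst, one_mul]
    · simp
  rw [e] at h
  exact h

/-- [A3a] PROOF. Fubini (`MeasureTheory.Measure.prod_apply`): the slice of
`S' = {z | ∃ y ∈ S, z.1 = y.1 ∧ |z.2 - y.2| ≤ ε}` over `x` is the closed `ε`-neighbourhood of the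
slice of `S`, which is empty or a compact interval `[a, b]`, so its length is at most `b - a + 2 ε`,
and it is empty for `x ∉ [α, β]`. `S'` is compact and convex (image of `S × [-ε, ε]` under
`(y, t) ↦ (y.1, y.2 + t)`). -/
theorem thicken_snd {S : Set (ℝ × ℝ)} (hS : IsCompact S) (hc : Convex ℝ S) {α β ε : ℝ}
    (hαβ : α ≤ β) (hε : 0 ≤ ε) (hsub : ∀ z ∈ S, α ≤ z.1 ∧ z.1 ≤ β) :
    ∃ S' : Set (ℝ × ℝ), IsCompact S' ∧ Convex ℝ S' ∧
      S' = {z | ∃ y ∈ S, z.1 = y.1 ∧ |z.2 - y.2| ≤ ε} ∧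
      volume S' ≤ volume S + ENNReal.ofReal (2 * ε * (β - α)) := by
  set S' : Set (ℝ × ℝ) := {z | ∃ y ∈ S, z.1 = y.1 ∧ |z.2 - y.2| ≤ ε} with hS'
  have himg : S' = (fun q : (ℝ × ℝ) × ℝ => ((q.1.1, q.1.2 + q.2) : ℝ × ℝ)) ''
      (S ×ˢ Set.Icc (-ε) ε) := by
    ext z
    constructor
    · rintro ⟨y, hy, h1, h2⟩
      refine ⟨(y, z.2 - y.2), ⟨hy, ?_⟩, ?_⟩
      · exact Set.mem_Icc.mpr (abs_le.mp h2)
      · ext <;> simp [h1]
    · rintro ⟨⟨y, t⟩, ⟨hy, ht⟩, rfl⟩
      refine ⟨y, hy, rfl, ?_⟩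
      simp only [add_sub_cancel_left]
      exact abs_le.mpr (Set.mem_Icc.mp ht)
  have hcomp : IsCompact S' := by
    rw [himg]
    exact (hS.prod isCompact_Icc).image (by fun_prop)
  have hconv : Convex ℝ S' := by
    intro a ha b hb s t hs ht hst
    obtain ⟨y, hy, h1, h2⟩ := ha
    obtain ⟨y', hy', h1', h2'⟩ := hb
    refine ⟨s • y + t • y', hc hy hy' hs ht hst, ?_, ?_⟩
    · simp [h1, h1']
    · have e : (s • a + t • b).2 - (s • y + t • y').2 = s * (a.2 - y.2) + t * (b.2 - y'.2) := by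
        simp; ring
      rw [e]
      calc |s * (a.2 - y.2) + t * (b.2 - y'.2)| ≤ |s * (a.2 - y.2)| + |t * (b.2 - y'.2)| := abs_add_le _ _
        _ = s * |a.2 - y.2| + t * |b.2 - y'.2| := by rw [abs_mul, abs_mul, abs_of_nonneg hs, abs_of_nonneg ht]
        _ ≤ s * ε + t * ε := by gcongr
        _ = ε := by rw [← add_mul, hst, one_mul]
  refine ⟨S', hcomp, hconv, rfl, ?_⟩
  have hmS : MeasurableSet S := hS.measurableSet
  have hmS' : MeasurableSet S' := hcomp.measurableSet
  have hslice : ∀ x : ℝ, volume (Prod.mk x ⁻¹' S') ≤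
      volume (Prod.mk x ⁻¹' S) + (Set.Icc α β).indicator (fun _ => ENNReal.ofReal (2 * ε)) x := by
    intro x
    rcases Set.eq_empty_or_nonempty (Prod.mk x ⁻¹' S) with hem | hne
    · have : Prod.mk x ⁻¹' S' = ∅ := by
        rw [Set.eq_empty_iff_forall_notMem]
        rintro t ⟨y, hy, h1, h2⟩
        have : y.2 ∈ Prod.mk x ⁻¹' S := by
          have h1' : x = y.1 := h1
          show (x, y.2) ∈ S
          rw [h1']
          exact hy
        rw [hem] at this
        exact this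
      rw [this]
      simp
    · have hxin : x ∈ Set.Icc α β := by
        obtain ⟨t, ht⟩ := hne
        exact hsub _ ht
      have hI := eq_Icc_of_connected_compact ⟨hne, (a3_slice_convex hc x).isPreconnected⟩
        (a3_slice_compact hS x)
      set a := sInf (Prod.mk x ⁻¹' S)
      set b := sSup (Prod.mk x ⁻¹' S)
      have hab : a ≤ b := by
        obtain ⟨t, ht⟩ := hne
        rw [hI] at ht
        exact ht.1.trans ht.2
      have hsl : Prod.mk x ⁻¹' S' ⊆ Set.Icc (a - ε) (b + ε) := by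
        rintro t ⟨y, hy, h1, h2⟩
        have : y.2 ∈ Prod.mk x ⁻¹' S := by
          have h1' : x = y.1 := h1
          show (x, y.2) ∈ S
          rw [h1']
          exact hy
        rw [hI] at this
        obtain ⟨h3, h4⟩ := this
        have h5 := abs_le.mp h2
        simp only at h5
        constructor <;> linarith [h5.1, h5.2]
      rw [Set.indicator_of_mem hxin, hI, Real.volume_Icc]
      refine (measure_mono hsl).trans ?_
      rw [Real.volume_Icc, ← ENNReal.ofReal_add (by linarith) (by linarith)]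
      apply ENNReal.ofReal_le_ofReal
      linarith
  rw [Measure.volume_eq_prod, Measure.prod_apply hmS', Measure.prod_apply hmS]
  calc ∫⁻ x, volume (Prod.mk x ⁻¹' S') ≤ ∫⁻ x, (volume (Prod.mk x ⁻¹' S) +
        (Set.Icc α β).indicator (fun _ => ENNReal.ofReal (2 * ε)) x) := lintegral_mono hslice
    _ = (∫⁻ x, volume (Prod.mk x ⁻¹' S)) +
        ∫⁻ x, (Set.Icc α β).indicator (fun _ => ENNReal.ofReal (2 * ε)) x := by
        rw [lintegral_add_left (measurable_measure_prodMk_left hmS)]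
    _ = (∫⁻ x, volume (Prod.mk x ⁻¹' S)) + ENNReal.ofReal (2 * ε * (β - α)) := by
        rw [lintegral_indicator measurableSet_Icc, lintegral_const, Measure.restrict_apply_univ,
          Real.volume_Icc, ← ENNReal.ofReal_mul (by linarith)]
    _ ≤ _ := le_refl _

/-- [A3b] PROOF. Apply A3a in the second coordinate (`α = 0`, `β = 1`), and then in the first
coordinate (swap the coordinates, `Prod.swap` preserves the volume; now the second coordinates lie in
`[-ε, 1 + ε]`): `2 ε + 2 ε (1 + 2 ε) = 4 ε + 4 ε²`. -/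
theorem thicken {K : Set (ℝ × ℝ)} (hK : IsCompact K) (hc : Convex ℝ K) (hX : K ⊆ X) {ε : ℝ}
    (hε : 0 ≤ ε) :
    ∃ K' : Set (ℝ × ℝ), IsCompact K' ∧ Convex ℝ K' ∧
      (∀ z ∈ K, ∀ y : ℝ × ℝ, |y.1 - z.1| ≤ ε → |y.2 - z.2| ≤ ε → y ∈ K') ∧
      (volume K').toReal ≤ (volume K).toReal + 4 * ε + 4 * ε ^ 2 := by
  have hX1 : ∀ z ∈ K, (0 : ℝ) ≤ z.1 ∧ z.1 ≤ 1 := fun z hz => (hX hz).1
  have hX2 : ∀ z ∈ K, (0 : ℝ) ≤ z.2 ∧ z.2 ≤ 1 := fun z hz => (hX hz).2
  obtain ⟨S1, hS1c, hS1v, hS1e, hS1m⟩ := thicken_snd hK hc (by norm_num : (0 : ℝ) ≤ 1) hε hX1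
  have hsw : ∀ (T : Set (ℝ × ℝ)), IsCompact T → IsCompact (Prod.swap ⁻¹' T) := by
    intro T hT
    rw [← Set.image_swap_eq_preimage_swap]
    exact hT.image continuous_swap
  have hswc : ∀ (T : Set (ℝ × ℝ)), Convex ℝ T → Convex ℝ (Prod.swap ⁻¹' T) := by
    intro T hT a ha b hb s t hs ht hst
    exact hT ha hb hs ht hst
  have hswm : ∀ (T : Set (ℝ × ℝ)), IsCompact T → volume (Prod.swap ⁻¹' T) = volume T := by
    intro T hT
    rw [Measure.volume_eq_prod]
    exact Measure.measurePreserving_swap.measure_preimage hT.measurableSet.nullMeasurableSet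
  have hX3 : ∀ z ∈ Prod.swap ⁻¹' S1, -ε ≤ z.1 ∧ z.1 ≤ 1 + ε := by
    intro z hz
    rw [hS1e] at hz
    obtain ⟨y, hy, h1, h2⟩ := hz
    have h3 := hX2 y hy
    have h4 := abs_le.mp h2
    simp only [Prod.snd_swap] at h4
    constructor <;> linarith [h4.1, h4.2, h3.1, h3.2]
  obtain ⟨S2, hS2c, hS2v, hS2e, hS2m⟩ := thicken_snd (hsw S1 hS1c) (hswc S1 hS1v)
    (by linarith : -ε ≤ 1 + ε) hε hX3
  refine ⟨Prod.swap ⁻¹' S2, hsw S2 hS2c, hswc S2 hS2v, ?_, ?_⟩
  · intro z hz y h1 h2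
    show y.swap ∈ S2
    rw [hS2e]
    refine ⟨(y.2, z.1), ?_, rfl, h1⟩
    show ((y.2, z.1) : ℝ × ℝ).swap ∈ S1
    rw [hS1e]
    exact ⟨z, hz, rfl, h2⟩
  · rw [hswm S2 hS2c]
    have hfin : volume K ≠ ⊤ := hK.measure_lt_top.ne
    have hle : volume S2 ≤ volume K + ENNReal.ofReal (2 * ε * (1 - 0)) +
        ENNReal.ofReal (2 * ε * (1 + ε - -ε)) := by
      refine hS2m.trans ?_
      rw [hswm S1 hS1c]
      gcongr
    have h := ENNReal.toReal_mono
      (ENNReal.add_ne_top.mpr ⟨ENNReal.add_ne_top.mpr ⟨hfin, ENNReal.ofReal_ne_top⟩,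
        ENNReal.ofReal_ne_top⟩) hle
    rw [ENNReal.toReal_add (ENNReal.add_ne_top.mpr ⟨hfin, ENNReal.ofReal_ne_top⟩)
        ENNReal.ofReal_ne_top, ENNReal.toReal_add hfin ENNReal.ofReal_ne_top,
      ENNReal.toReal_ofReal (by nlinarith), ENNReal.toReal_ofReal (by nlinarith)] at h
    nlinarith [h]

/-- [A3c] PROOF. `K = closure H`; `volume (closure H) = volume H` for a bounded convex set:
`closure H \ H ⊆ closure H \ interior H = frontier H` has measure zero (`Convex.addHaar_frontier`). -/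
theorem volume_closure_eq {H : Set (ℝ × ℝ)} (hc : Convex ℝ H) :
    volume (closure H) = volume H := by
  apply le_antisymm _ (measure_mono subset_closure)
  have h0 : volume (frontier H) = 0 := hc.addHaar_frontier volume
  calc volume (closure H) = volume (interior H ∪ frontier H) := by
        rw [closure_eq_interior_union_frontier]
    _ ≤ volume (interior H) + volume (frontier H) := measure_union_le _ _
    _ = volume (interior H) := by rw [h0, add_zero]
    _ ≤ volume H := measure_mono interior_subset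

end BakerTrap
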