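import Pool.Agent.MP_1b0c96_an.Defs

/-!
# [BT-D1] Digits and boxes
-/

set_option autoImplicit false

open MeasureTheory

namespace BakerTrap

/-- the number with binary digits `f 0, f 1, ..., f (T - 1)` (most significant first) -/
def bn (f : ℕ → Bool) : ℕ → ℕ
  | 0 => 0
  | T + 1 => 2 * bn f T + (f T).toNat

/-- the real number `0.f₀f₁f₂…` -/
noncomputable def real (f : ℕ → Bool) : ℝ := ∑' n : ℕ, (if f n then (1 : ℝ) else 0) / 2 ^ (n + 1)

theorem code_eq (u : ℤ → Bool) :
    code u = (real (fun n => u (n + 1)), real (fun n => u (-n))) := rfl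

theorem code_shift (u : ℤ → Bool) (k : ℤ) :
    code (shift k u) = (real (fun n => u (n + 1 + k)), real (fun n => u (-n + k))) := rfl

theorem d1_term_nonneg (f : ℕ → Bool) (n : ℕ) : 0 ≤ (if f n then (1 : ℝ) else 0) / 2 ^ (n + 1) := by
  split_ifs <;> positivity

theorem d1_term_le (f : ℕ → Bool) (n : ℕ) :
    (if f n then (1 : ℝ) else 0) / 2 ^ (n + 1) ≤ 1 / 2 * (1 / 2) ^ n := by
  have h : (1 : ℝ) / 2 * (1 / 2) ^ n = 1 / 2 ^ (n + 1) := by
    rw [one_div_pow, pow_succ]
    field_simp
  rw [h]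
  split_ifs
  · exact le_refl _
  · rw [zero_div]
    positivity

theorem d1_geom : HasSum (fun n : ℕ => (1 : ℝ) / 2 * (1 / 2) ^ n) 1 := by
  have h := (hasSum_geometric_of_lt_one (by norm_num : (0 : ℝ) ≤ 1 / 2) (by norm_num)).mul_left (1 / 2 : ℝ)
  have e : (1 : ℝ) / 2 * (1 - 1 / 2)⁻¹ = 1 := by norm_num
  rwa [e] at h

/-- [D1a] PROOF. comparison with `∑ 1 / 2 ^ (n + 1) = 1`. -/
theorem real_summable (f : ℕ → Bool) :
    Summable (fun n : ℕ => (if f n then (1 : ℝ) else 0) / 2 ^ (n + 1)) :=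
  Summable.of_nonneg_of_le (d1_term_nonneg f) (d1_term_le f) d1_geom.summable

theorem real_nonneg (f : ℕ → Bool) : 0 ≤ real f := tsum_nonneg (d1_term_nonneg f)

theorem real_le_one (f : ℕ → Bool) : real f ≤ 1 := by
  rw [← d1_geom.tsum_eq]
  exact (real_summable f).tsum_le_tsum (d1_term_le f) d1_geom.summable

theorem code_mem_X (u : ℤ → Bool) : code u ∈ X := by
  rw [code_eq]
  exact ⟨⟨real_nonneg _, real_le_one _⟩, ⟨real_nonneg _, real_le_one _⟩⟩

theorem d1_one (f : ℕ → Bool) :
    real f = (f 0).toNat / 2 + real (fun n => f (n + 1)) / 2 := by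
  unfold real
  rw [(real_summable f).tsum_eq_zero_add, ← tsum_div_const]
  congr 1
  · cases f 0 <;> simp
  · refine tsum_congr fun n => ?_
    rw [pow_succ, div_div]

/-- [D1b] PROOF. `real f = ∑_{n < T} + 2^{-T} real (fun n => f (n + T))` (`Summable.sum_add_tsum_nat_add`),
induction on `T`. -/
theorem real_split (f : ℕ → Bool) (T : ℕ) :
    real f = bn f T / 2 ^ T + real (fun n => f (n + T)) / 2 ^ T := by
  induction T with
  | zero => simp [bn]
  | succ T ih =>
    rw [ih, d1_one (fun n => f (n + T))]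
    have e : (fun n => f (n + 1 + T)) = fun n => f (n + (T + 1)) := by
      funext n
      congr 1
      ring
    simp only [bn, zero_add]
    rw [e]
    push_cast
    rw [pow_succ]
    field_simp
    ring

theorem real_mem (f : ℕ → Bool) (T : ℕ) :
    (bn f T : ℝ) / 2 ^ T ≤ real f ∧ real f ≤ (bn f T + 1) / 2 ^ T := by
  rw [real_split f T]
  have h0 := real_nonneg (fun n => f (n + T))
  have h1 := real_le_one (fun n => f (n + T))
  have h2 : (0 : ℝ) < 2 ^ T := by positivity
  constructor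
  · have := div_nonneg h0 h2.le
    linarith
  · rw [add_div]
    have := div_le_div_of_nonneg_right h1 h2.le
    linarith

theorem d1_bn_le (f : ℕ → Bool) (T : ℕ) : bn f T + 1 ≤ 2 ^ T := by
  induction T with
  | zero => simp [bn]
  | succ T ih =>
    simp only [bn]
    have h : (f T).toNat ≤ 1 := Bool.toNat_le (f T)
    rw [pow_succ]
    omega

/-- [D1c] `real f` is `0` (`1`) only for the constant sequence. PROOF. If `f n = true` then
`real f ≥ 2^{-(n+1)} > 0`; if `f n = false` then `real f ≤ 1 - 2^{-(n+1)}` (use `real_split`). -/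
theorem real_pos {f : ℕ → Bool} {n : ℕ} (h : f n = true) : 0 < real f := by
  have h1 := (real_mem f (n + 1)).1
  have h2 : (1 : ℝ) ≤ (bn f (n + 1) : ℝ) := by
    have : 1 ≤ bn f (n + 1) := by
      simp only [bn, h, Bool.toNat_true]
      omega
    exact_mod_cast this
  have h3 : (0 : ℝ) < (bn f (n + 1) : ℝ) / 2 ^ (n + 1) := by positivity
  linarith

theorem real_lt_one {f : ℕ → Bool} {n : ℕ} (h : f n = false) : real f < 1 := by
  have h1 := (real_mem f (n + 1)).2
  have h2 : (bn f (n + 1) : ℝ) + 1 < 2 ^ (n + 1) := by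
    have : bn f (n + 1) + 1 < 2 ^ (n + 1) := by
      simp only [bn, h, Bool.toNat_false]
      have := d1_bn_le f n
      rw [pow_succ]
      omega
    exact_mod_cast this
  have h3 : ((bn f (n + 1) : ℝ) + 1) / 2 ^ (n + 1) < 1 := by
    rw [div_lt_one (by positivity)]
    exact h2
  linarith

/-- the two-sided sequence with the blocks `f (β j)` of length `ℓ` -/
def blk (ℓ : ℕ) (f : Bool → ℕ → Bool) (β : ℤ → Bool) : ℤ → Bool :=
  fun i => f (β (i / ℓ)) (i % ℓ).toNat

end BakerTrap
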