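import Pool.Agent.MP_1b0c96_an.D1

/-!
# [BT-D2] Positive dimension from two blocks
-/

set_option autoImplicit false

open MeasureTheory

namespace BakerTrap

theorem d2_bn_congr {f g : ℕ → Bool} {T : ℕ} (h : ∀ n < T, f n = g n) : bn f T = bn g T := by
  induction T with
  | zero => rfl
  | succ T ih =>
    simp only [bn]
    rw [ih fun n hn => h n (by omega), h T (by omega)]

theorem d2_bn_inj {f g : ℕ → Bool} {T : ℕ} (h : bn f T = bn g T) : ∀ n < T, f n = g n := by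
  induction T with
  | zero => intro n hn; omega
  | succ T ih =>
    simp only [bn] at h
    have h1 : (f T).toNat < 2 := Bool.toNat_lt _
    have h2 : (g T).toNat < 2 := Bool.toNat_lt _
    have h3 : (f T).toNat = (g T).toNat := by omega
    have h4 : bn f T = bn g T := by omega
    intro n hn
    rcases Nat.lt_succ_iff_lt_or_eq.mp hn with h5 | h5
    · exact ih h4 n h5
    · subst h5
      cases hf : f n <;> cases hg : g n <;> simp [hf, hg] at h3 ⊢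

/-- the abscissa of the point -/
noncomputable def d2_X (ℓ : ℕ) (f : Bool → ℕ → Bool) (β : ℕ → Bool) : ℝ :=
  real (fun n => f (β (n / ℓ)) (n % ℓ))

theorem d2_X_rec (ℓ : ℕ) (hℓ : 0 < ℓ) (f : Bool → ℕ → Bool) (β : ℕ → Bool) :
    d2_X ℓ f β = ((bn (f (β 0)) ℓ : ℝ) + d2_X ℓ f (fun j => β (j + 1))) / 2 ^ ℓ := by
  unfold d2_X
  rw [real_split _ ℓ, add_div]
  congr 2
  · congr 1
    apply d2_bn_congr
    intro n hn
    rw [Nat.div_eq_of_lt hn, Nat.mod_eq_of_lt hn]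
  · congr 1
    funext n
    rw [Nat.add_div_right _ hℓ, Nat.add_mod_right]

theorem d2_X_mem (ℓ : ℕ) (f : Bool → ℕ → Bool) (β : ℕ → Bool) :
    0 ≤ d2_X ℓ f β ∧ d2_X ℓ f β ≤ 1 := ⟨real_nonneg _, real_le_one _⟩

/-- distance of the two block numbers -/
noncomputable def d2_D (ℓ : ℕ) (f : Bool → ℕ → Bool) : ℝ :=
  |(bn (f false) ℓ : ℝ) - (bn (f true) ℓ : ℝ)|

theorem d2_N_le (ℓ : ℕ) (f : Bool → ℕ → Bool) (b b' : Bool) :
    |(bn (f b) ℓ : ℝ) - (bn (f b') ℓ : ℝ)| ≤ d2_D ℓ f := by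
  unfold d2_D
  cases b <;> cases b'
  · simp
  · exact le_rfl
  · rw [abs_sub_comm]
  · simp

theorem d2_N_eq (ℓ : ℕ) (f : Bool → ℕ → Bool) {b b' : Bool} (h : b ≠ b') :
    |(bn (f b) ℓ : ℝ) - (bn (f b') ℓ : ℝ)| = d2_D ℓ f := by
  unfold d2_D
  cases b <;> cases b'
  · exact absurd rfl h
  · rfl
  · rw [abs_sub_comm]
  · exact absurd rfl h

theorem d2_D_pos (ℓ : ℕ) (f : Bool → ℕ → Bool) (hne : ∃ r < ℓ, f false r ≠ f true r) :
    0 < d2_D ℓ f := by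
  unfold d2_D
  rw [abs_pos, sub_ne_zero]
  intro h
  have h' : bn (f false) ℓ = bn (f true) ℓ := by exact_mod_cast h
  obtain ⟨r, hr, hne⟩ := hne
  exact hne (d2_bn_inj h' r hr)

theorem d2_D_nonneg (ℓ : ℕ) (f : Bool → ℕ → Bool) : 0 ≤ d2_D ℓ f := abs_nonneg _

theorem d2_two_pow (ℓ : ℕ) (hℓ : 2 ≤ ℓ) : (4 : ℝ) ≤ 2 ^ ℓ := by
  calc (4 : ℝ) = 2 ^ 2 := by norm_num
    _ ≤ 2 ^ ℓ := pow_le_pow_right₀ (by norm_num) hℓ

theorem d2_diff_le_aux (ℓ : ℕ) (hℓ : 2 ≤ ℓ) (f : Bool → ℕ → Bool) (k : ℕ) :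
    ∀ β β' : ℕ → Bool, |d2_X ℓ f β - d2_X ℓ f β'| ≤ d2_D ℓ f / (2 ^ ℓ - 1) + 1 / 2 ^ k := by
  have h4 := d2_two_pow ℓ hℓ
  have hD := d2_D_nonneg ℓ f
  induction k with
  | zero =>
    intro β β'
    have h1 := d2_X_mem ℓ f β
    have h2 := d2_X_mem ℓ f β'
    have h3 : 0 ≤ d2_D ℓ f / (2 ^ ℓ - 1) := div_nonneg hD (by linarith)
    rw [pow_zero, div_one]
    have : |d2_X ℓ f β - d2_X ℓ f β'| ≤ 1 := by
      rw [abs_le]; constructor <;> linarith [h1.1, h1.2, h2.1, h2.2]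
    linarith
  | succ k ih =>
    intro β β'
    rw [d2_X_rec ℓ (by omega) f β, d2_X_rec ℓ (by omega) f β', ← sub_div, abs_div,
      abs_of_pos (by linarith : (0 : ℝ) < 2 ^ ℓ), div_le_iff₀ (by linarith)]
    have h5 := ih (fun j => β (j + 1)) (fun j => β' (j + 1))
    have h6 := d2_N_le ℓ f (β 0) (β' 0)
    have h7 : |(bn (f (β 0)) ℓ : ℝ) + d2_X ℓ f (fun j => β (j + 1)) -
        ((bn (f (β' 0)) ℓ : ℝ) + d2_X ℓ f (fun j => β' (j + 1)))| ≤
        |(bn (f (β 0)) ℓ : ℝ) - (bn (f (β' 0)) ℓ : ℝ)| +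
          |d2_X ℓ f (fun j => β (j + 1)) - d2_X ℓ f (fun j => β' (j + 1))| := by
      have := abs_add_le ((bn (f (β 0)) ℓ : ℝ) - (bn (f (β' 0)) ℓ : ℝ))
        (d2_X ℓ f (fun j => β (j + 1)) - d2_X ℓ f (fun j => β' (j + 1)))
      refine le_trans (le_of_eq ?_) this
      congr 1
      ring
    have h8 : (d2_D ℓ f / (2 ^ ℓ - 1) + 1 / 2 ^ (k + 1)) * 2 ^ ℓ =
        d2_D ℓ f + d2_D ℓ f / (2 ^ ℓ - 1) + (1 / 2 ^ k) * (2 ^ ℓ / 2) := by
      have h9 : (2 : ℝ) ^ ℓ - 1 ≠ 0 := by linarith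
      field_simp
      ring
    rw [h8]
    have h10 : (1 : ℝ) / 2 ^ k ≤ (1 / 2 ^ k) * (2 ^ ℓ / 2) := by
      have : (0 : ℝ) < 1 / 2 ^ k := by positivity
      nlinarith
    linarith

theorem d2_diff_le (ℓ : ℕ) (hℓ : 2 ≤ ℓ) (f : Bool → ℕ → Bool) (β β' : ℕ → Bool) :
    |d2_X ℓ f β - d2_X ℓ f β'| ≤ d2_D ℓ f / (2 ^ ℓ - 1) := by
  refine le_of_forall_pos_le_add fun ε hε => ?_
  obtain ⟨k, hk⟩ := exists_pow_lt_of_lt_one hε (by norm_num : (1 / 2 : ℝ) < 1)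
  have h := d2_diff_le_aux ℓ hℓ f k β β'
  rw [one_div_pow] at hk
  linarith

/-- the separation constant -/
noncomputable def d2_kap (ℓ : ℕ) (f : Bool → ℕ → Bool) : ℝ :=
  (d2_D ℓ f - d2_D ℓ f / (2 ^ ℓ - 1)) / 2 ^ ℓ

theorem d2_kap_pos (ℓ : ℕ) (hℓ : 2 ≤ ℓ) (f : Bool → ℕ → Bool)
    (hne : ∃ r < ℓ, f false r ≠ f true r) : 0 < d2_kap ℓ f := by
  have h4 := d2_two_pow ℓ hℓ
  have hD := d2_D_pos ℓ f hne
  unfold d2_kap
  apply div_pos _ (by linarith)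
  have h5 : d2_D ℓ f / (2 ^ ℓ - 1) < d2_D ℓ f := by
    rw [div_lt_iff₀ (by linarith)]
    nlinarith
  linarith

theorem d2_diff_ge (ℓ : ℕ) (hℓ : 2 ≤ ℓ) (f : Bool → ℕ → Bool) (j₀ : ℕ) :
    ∀ β β' : ℕ → Bool, (∀ j < j₀, β j = β' j) → β j₀ ≠ β' j₀ →
      d2_kap ℓ f ≤ |d2_X ℓ f β - d2_X ℓ f β'| * (2 ^ ℓ) ^ j₀ := by
  have h4 := d2_two_pow ℓ hℓ
  induction j₀ with
  | zero =>
    intro β β' _ hne
    rw [pow_zero, mul_one, d2_X_rec ℓ (by omega) f β, d2_X_rec ℓ (by omega) f β', ← sub_div,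
      abs_div, abs_of_pos (by linarith : (0 : ℝ) < 2 ^ ℓ)]
    unfold d2_kap
    have h5 := d2_diff_le ℓ hℓ f (fun j => β (j + 1)) (fun j => β' (j + 1))
    have h6 := d2_N_eq ℓ f hne
    have h7 : |(bn (f (β 0)) ℓ : ℝ) - (bn (f (β' 0)) ℓ : ℝ)| ≤
        |(bn (f (β 0)) ℓ : ℝ) + d2_X ℓ f (fun j => β (j + 1)) -
        ((bn (f (β' 0)) ℓ : ℝ) + d2_X ℓ f (fun j => β' (j + 1)))| +
          |d2_X ℓ f (fun j => β (j + 1)) - d2_X ℓ f (fun j => β' (j + 1))| := by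
      have := abs_sub ((bn (f (β 0)) ℓ : ℝ) + d2_X ℓ f (fun j => β (j + 1)) -
        ((bn (f (β' 0)) ℓ : ℝ) + d2_X ℓ f (fun j => β' (j + 1))))
        (d2_X ℓ f (fun j => β (j + 1)) - d2_X ℓ f (fun j => β' (j + 1)))
      refine le_trans (le_of_eq ?_) this
      congr 1
      ring
    gcongr
    linarith
  | succ j ih =>
    intro β β' heq hne
    have h0 : β 0 = β' 0 := heq 0 (by omega)
    have h5 := ih (fun j => β (j + 1)) (fun j => β' (j + 1)) (fun i hi => heq (i + 1) (by omega)) hne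
    rw [d2_X_rec ℓ (by omega) f β, d2_X_rec ℓ (by omega) f β', h0, ← sub_div, add_sub_add_left_eq_sub,
      abs_div, abs_of_pos (by linarith : (0 : ℝ) < 2 ^ ℓ), pow_succ']
    have h9 : (2 : ℝ) ^ ℓ ≠ 0 := by linarith
    refine h5.trans (le_of_eq ?_)
    field_simp

theorem d2_t_diff_le (j₀ : ℕ) (β β' : ℕ → Bool) (h : ∀ j < j₀, β j = β' j) :
    |real β - real β'| ≤ 1 / 2 ^ j₀ := by
  have h1 := real_mem β j₀
  have h2 := real_mem β' j₀
  rw [d2_bn_congr h] at h1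
  rw [add_div] at h1 h2
  rw [abs_le]
  constructor <;> linarith [h1.1, h1.2, h2.1, h2.2]

theorem d2_surj (t : ℝ) (h0 : 0 ≤ t) (h1 : t < 1) : ∃ β : ℕ → Bool, real β = t := by
  let β : ℕ → Bool := fun n => decide (⌊t * 2 ^ (n + 1)⌋₊ % 2 = 1)
  have hbn : ∀ T, bn β T = ⌊t * 2 ^ T⌋₊ := by
    intro T
    induction T with
    | zero =>
      simp only [bn, pow_zero, mul_one]
      exact (Nat.floor_eq_zero.mpr h1).symm
    | succ T ih =>
      simp only [bn, ih]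
      have h2 : ⌊t * 2 ^ (T + 1)⌋₊ / 2 = ⌊t * 2 ^ T⌋₊ := by
        have h3 := Nat.floor_div_natCast (t * 2 ^ (T + 1)) 2
        rw [← h3]
        congr 1
        push_cast
        rw [pow_succ]
        ring
      have h3 : (β T).toNat = ⌊t * 2 ^ (T + 1)⌋₊ % 2 := by
        simp only [β]
        rcases Nat.mod_two_eq_zero_or_one ⌊t * 2 ^ (T + 1)⌋₊ with h | h <;> simp [h]
      omega
  refine ⟨β, ?_⟩
  have hk : ∀ T, |real β - t| ≤ 1 / 2 ^ T := by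
    intro T
    have h2 := real_mem β T
    rw [hbn T] at h2
    have hT : (0 : ℝ) < 2 ^ T := by positivity
    have h3 : (⌊t * 2 ^ T⌋₊ : ℝ) ≤ t * 2 ^ T := Nat.floor_le (by positivity)
    have h4 : t * 2 ^ T < ⌊t * 2 ^ T⌋₊ + 1 := Nat.lt_floor_add_one _
    have h5 : (⌊t * 2 ^ T⌋₊ : ℝ) / 2 ^ T ≤ t := by rw [div_le_iff₀ hT]; exact h3
    have h6 : t ≤ ((⌊t * 2 ^ T⌋₊ : ℝ) + 1) / 2 ^ T := by rw [le_div_iff₀ hT]; exact h4.le
    rw [add_div] at h6 h2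
    rw [abs_le]
    constructor <;> linarith [h2.1, h2.2]
  have h7 : |real β - t| ≤ 0 := by
    refine le_of_forall_pos_le_add fun ε hε => ?_
    obtain ⟨k, hk'⟩ := exists_pow_lt_of_lt_one hε (by norm_num : (1 / 2 : ℝ) < 1)
    have h := hk k
    rw [one_div_pow] at hk'
    linarith
  have h8 := abs_nonpos_iff.mp h7
  linarith

/-- extension of a one-sided sequence -/
def d2_ext (β : ℕ → Bool) : ℤ → Bool := fun j => if 0 ≤ j then β j.toNat else false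

/-- the point -/
noncomputable def d2_P (ℓ : ℕ) (f : Bool → ℕ → Bool) (β : ℕ → Bool) : ℝ × ℝ :=
  code (shift (-1) (blk ℓ f (d2_ext β)))

theorem d2_P_fst (ℓ : ℕ) (f : Bool → ℕ → Bool) (β : ℕ → Bool) :
    (d2_P ℓ f β).1 = d2_X ℓ f β := by
  unfold d2_P d2_X
  rw [code_shift]
  show real (fun n : ℕ => blk ℓ f (d2_ext β) ((n : ℤ) + 1 + -1)) = _
  congr 1
  funext n
  rw [show (n : ℤ) + 1 + -1 = (n : ℤ) by ring]
  unfold blk d2_ext
  have h1 : ((n : ℤ) / (ℓ : ℤ)) = ((n / ℓ : ℕ) : ℤ) := by push_cast; rfl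
  have h2 : ((n : ℤ) % (ℓ : ℤ)) = ((n % ℓ : ℕ) : ℤ) := by push_cast; rfl
  rw [h1, h2, if_pos (Int.natCast_nonneg _), Int.toNat_natCast, Int.toNat_natCast]

/-- [D2] PROOF. Let `β : ℕ → Bool` be extended by `β j = false` for `j < 0` and
`u = blk ℓ f β`, `code (shift (-1) u) = (x β, y)` (or `shift` by any other amount such that the first
coordinate reads the blocks `0, 1, 2, ...`), where `y` does not depend on `β` (the left part consists
of blocks `f false`) and `x β = ∑ j, c (β j) / 2 ^ (ℓ j)`, `c b = bn (f b) ℓ / 2 ^ ℓ`. All these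
points are in `survivor H`. If `β ≠ β'` differ first at `j₀` then
`|x β - x β'| ≥ 2^{-ℓ j₀} κ`, `κ = |c true - c false| (1 - 1/(2^ℓ - 1)) > 0` for `ℓ ≥ 2`
(`|c true - c false| ≥ 2^{-ℓ}` since the blocks differ). For `ℓ = 1` replace `ℓ` by `2` (pairs of
blocks), or assume `2 ≤ ℓ` as here. The map `x β ↦ ∑ β j / 2^(j+1)` is therefore well defined and
Hölder with exponent `1/ℓ` on the set of these points and maps it onto `[0, 1]`
(`HolderOnWith.dimH_image_le`, `Real.dimH_of_nonempty_interior` or similar), so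
`1 ≤ ℓ * dimH (survivor H)`. -/
theorem dim_pos (ℓ : ℕ) (hℓ : 2 ≤ ℓ) (f : Bool → ℕ → Bool)
    (hne : ∃ r < ℓ, f false r ≠ f true r) (H : Set (ℝ × ℝ))
    (hH : ∀ β : ℤ → Bool, ∀ k : ℤ, code (shift k (blk ℓ f β)) ∉ H) :
    0 < dimH (survivor H) := by
  have hkap := d2_kap_pos ℓ hℓ f hne
  set κ := d2_kap ℓ f with hκ
  -- key inequality
  have hfirst : ∀ β β' : ℕ → Bool, β ≠ β' → ∃ j₀, (∀ j < j₀, β j = β' j) ∧ β j₀ ≠ β' j₀ := by
    intro β β' hne'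
    have hex : ∃ j, β j ≠ β' j := by
      by_contra hcon
      push Not at hcon
      exact hne' (funext hcon)
    refine ⟨Nat.find hex, fun j hj => ?_, Nat.find_spec hex⟩
    have := Nat.find_min hex hj
    simpa using this
  have hdist : ∀ β β' : ℕ → Bool, |d2_X ℓ f β - d2_X ℓ f β'| ≤ dist (d2_P ℓ f β) (d2_P ℓ f β') := by
    intro β β'
    rw [Prod.dist_eq, ← d2_P_fst, ← d2_P_fst, ← Real.dist_eq]
    exact le_max_left _ _
  have hinj : Function.Injective (d2_P ℓ f) := by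
    intro β β' heq
    by_contra hne'
    obtain ⟨j₀, h1, h2⟩ := hfirst β β' hne'
    have h3 := d2_diff_ge ℓ hℓ f j₀ β β' h1 h2
    have h4 := hdist β β'
    rw [heq, dist_self] at h4
    have h5 : |d2_X ℓ f β - d2_X ℓ f β'| = 0 := le_antisymm h4 (abs_nonneg _)
    rw [h5, zero_mul] at h3
    linarith
  let ψ : ℝ × ℝ → ℝ := fun z => real (Function.invFun (d2_P ℓ f) z)
  have hψ : ∀ β, ψ (d2_P ℓ f β) = real β := by
    intro β
    show real (Function.invFun (d2_P ℓ f) (d2_P ℓ f β)) = real β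
    rw [Function.leftInverse_invFun hinj β]
  have hℓ0 : (0 : ℝ) < ℓ := by
    have : (2 : ℝ) ≤ ℓ := by exact_mod_cast hℓ
    linarith
  -- Hölder
  let r : NNReal := 1 / (ℓ : NNReal)
  have hr : 0 < r := by
    have : (0 : NNReal) < (ℓ : NNReal) := by exact_mod_cast hℓ0
    positivity
  have hrr : (r : ℝ) = 1 / ℓ := by
    simp [r]
  let C : NNReal := Real.toNNReal ((1 / κ) ^ (1 / (ℓ : ℝ)))
  have hC : (C : ℝ) = (1 / κ) ^ (1 / (ℓ : ℝ)) := Real.coe_toNNReal _ (by positivity)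
  have hholder : HolderOnWith C r ψ (Set.range (d2_P ℓ f)) := by
    rintro _ ⟨β, rfl⟩ _ ⟨β', rfl⟩
    rw [hψ, hψ]
    by_cases hbb : β = β'
    · subst hbb
      rw [edist_self]
      exact bot_le
    obtain ⟨j₀, h1, h2⟩ := hfirst β β' hbb
    have h3 := d2_diff_ge ℓ hℓ f j₀ β β' h1 h2
    have h4 := hdist β β'
    have h5 := d2_t_diff_le j₀ β β' h1
    have hD0 : 0 ≤ dist (d2_P ℓ f β) (d2_P ℓ f β') := dist_nonneg
    have h6 : κ ≤ dist (d2_P ℓ f β) (d2_P ℓ f β') * (2 ^ ℓ) ^ j₀ :=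
      h3.trans (mul_le_mul_of_nonneg_right h4 (by positivity))
    have h7 : dist (real β) (real β') ≤ (1 / κ) ^ (1 / (ℓ : ℝ)) *
        dist (d2_P ℓ f β) (d2_P ℓ f β') ^ (1 / (ℓ : ℝ)) := by
      rw [Real.dist_eq]
      refine h5.trans ?_
      rw [← Real.mul_rpow (by positivity) hD0]
      have h8 : (1 : ℝ) / (2 ^ ℓ) ^ j₀ ≤ 1 / κ * dist (d2_P ℓ f β) (d2_P ℓ f β') := by
        rw [div_le_iff₀ (by positivity), mul_assoc, one_div_mul_eq_div, le_div_iff₀ hkap, one_mul]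
        exact h6
      have h9 : (1 : ℝ) / 2 ^ j₀ = (1 / (2 ^ ℓ) ^ j₀) ^ (1 / (ℓ : ℝ)) := by
        have h10 : (1 : ℝ) / (2 ^ ℓ) ^ j₀ = (1 / 2 ^ j₀) ^ ℓ := by
          rw [div_pow, one_pow, ← pow_mul, ← pow_mul, mul_comm]
        rw [h10, ← Real.rpow_natCast (1 / 2 ^ j₀) ℓ,
          ← Real.rpow_mul (by positivity), mul_one_div_cancel (ne_of_gt hℓ0), Real.rpow_one]
      rw [h9]
      exact Real.rpow_le_rpow (by positivity) h8 (by positivity)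
    rw [edist_dist, edist_dist, hrr, ENNReal.ofReal_rpow_of_nonneg hD0 (by positivity),
      show (C : ENNReal) = ENNReal.ofReal ((1 / κ) ^ (1 / (ℓ : ℝ))) from rfl,
      ← ENNReal.ofReal_mul (by positivity)]
    exact ENNReal.ofReal_le_ofReal h7
  have hdim := hholder.dimH_image_le hr
  have himg : Set.Ico (0 : ℝ) 1 ⊆ ψ '' (Set.range (d2_P ℓ f)) := by
    rintro t ⟨ht0, ht1⟩
    obtain ⟨β, hβ⟩ := d2_surj t ht0 ht1
    exact ⟨d2_P ℓ f β, ⟨β, rfl⟩, by rw [hψ, hβ]⟩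
  have hone : dimH (Set.Ico (0 : ℝ) 1) = 1 := by
    have := Real.dimH_of_nonempty_interior (E := ℝ) (s := Set.Ico (0 : ℝ) 1) (by
      rw [interior_Ico]; exact ⟨1 / 2, by norm_num, by norm_num⟩)
    rw [this]
    simp
  have h1 : (1 : ENNReal) ≤ dimH (Set.range (d2_P ℓ f)) / r := by
    rw [← hone]
    exact (dimH_mono himg).trans hdim
  have hsub : Set.range (d2_P ℓ f) ⊆ survivor H := by
    rintro _ ⟨β, rfl⟩
    refine ⟨shift (-1) (blk ℓ f (d2_ext β)), fun k => ?_, rfl⟩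
    have h2 : shift k (shift (-1) (blk ℓ f (d2_ext β))) = shift (k + -1) (blk ℓ f (d2_ext β)) := by
      funext n
      simp only [shift]
      congr 1
      ring
    rw [h2]
    exact hH _ _
  refine lt_of_lt_of_le ?_ (dimH_mono hsub)
  rw [pos_iff_ne_zero]
  intro h0
  rw [h0, ENNReal.zero_div] at h1
  exact absurd h1 (by norm_num)

end BakerTrap
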