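import Mathlib

/-!
# Convex dimension traps of the baker's map: definitions

(problem MP_1b0c96_an; the statement of the hand-in uses only this file)
-/

set_option autoImplicit false

open MeasureTheory

namespace BakerTrap

/-- The unit square `[0, 1]²`. -/
def X : Set (ℝ × ℝ) := Set.Icc 0 1 ×ˢ Set.Icc 0 1

/-- The coding map `π : {0,1}^ℤ → X`, `π(u) = (∑_{n ≥ 1} u_n 2^{-n}, ∑_{n ≥ 0} u_{-n} 2^{-n-1})`,
which conjugates the left shift to the baker's map. -/
noncomputable def code (u : ℤ → Bool) : ℝ × ℝ :=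
  (∑' n : ℕ, (if u (n + 1) then (1 : ℝ) else 0) / 2 ^ (n + 1),
   ∑' n : ℕ, (if u (-n) then (1 : ℝ) else 0) / 2 ^ (n + 1))

/-- The `k`-th power of the left shift, `(σ^k u)_n = u_{n + k}`. -/
def shift (k : ℤ) (u : ℤ → Bool) : ℤ → Bool := fun n => u (n + k)

/-- The survivor set `𝒥(H) = π {u : π(σ^k u) ∉ H for all k ∈ ℤ}`. -/
def survivor (H : Set (ℝ × ℝ)) : Set (ℝ × ℝ) :=
  code '' {u | ∀ k : ℤ, code (shift k u) ∉ H}

/-- A convex dimension trap: a convex subset of `X`, open in `X`, whose survivor set has Hausdorff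
dimension `0`. -/
structure ConvexTrap (H : Set (ℝ × ℝ)) : Prop where
  /-- `H` is a subset of `X` -/
  sub : H ⊆ X
  /-- `H` is open in `X` -/
  opn : ∃ U : Set (ℝ × ℝ), IsOpen U ∧ H = U ∩ X
  /-- `H` is convex -/
  conv : Convex ℝ H
  /-- the survivor set has Hausdorff dimension `0` -/
  trap : dimH (survivor H) = 0

/-- `δ(B)`: the infimum of the areas of the convex dimension traps of the baker's map. -/
noncomputable def delta : ℝ := sInf ((fun H : Set (ℝ × ℝ) => (volume H).toReal) '' {H | ConvexTrap H})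

/-- The variant of `δ(B)` in which the traps are required to be open in the plane. -/
noncomputable def deltaOpen : ℝ :=
  sInf ((fun H : Set (ℝ × ℝ) => (volume H).toReal) '' {H | ConvexTrap H ∧ IsOpen H})

end BakerTrap
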