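import Pool.Agent.MP_1b0c96_an.D1

/-!
# [BT-G1] Gluing homoclinic sequences
-/

set_option autoImplicit false

open MeasureTheory

namespace BakerTrap

/-- A homoclinic sequence: `gam n L p g` has the periodic word `p 0 ... p (n - 1)` to the left of `0`,
then the letters `g 0 ... g (L - 1)`, then again `p 0 p 1 ...` periodically. -/
def gam (n L : ℕ) (p g : ℕ → Bool) : ℤ → Bool := fun d =>
  if d < 0 then p (d % n).toNat else if d < L then g d.toNat else p ((d - L) % n).toNat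

/-- the blocks `g p^a g p^(a+1)` and `g p^(a+1) g p^a`, of length `2 L + (2 a + 1) n` -/
def blkf (n L a : ℕ) (p g : ℕ → Bool) (b : Bool) : ℕ → Bool := fun r =>
  let τ : ℕ := L + (a + b.toNat) * n
  if r < L then g r else if r < τ then p ((r - L) % n) else if r < τ + L then g (r - τ)
  else p ((r - τ - L) % n)

/-- periodic continuation -/
def g1_pp (n : ℕ) (p : ℕ → Bool) (d : ℤ) : Bool := p (d % n).toNat

theorem g1_pp_congr {n : ℕ} {p : ℕ → Bool} {d d' : ℤ} (m : ℤ) (h : d = d' + m * n) :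
    g1_pp n p d = g1_pp n p d' := by
  unfold g1_pp
  rw [h, Int.add_mul_emod_self_right]

theorem g1_pp_nat (n : ℕ) (p : ℕ → Bool) (m : ℕ) : p (m % n) = g1_pp n p (m : ℤ) := by
  unfold g1_pp
  rw [show (m : ℤ) % (n : ℤ) = ((m % n : ℕ) : ℤ) by push_cast; rfl, Int.toNat_natCast]

theorem g1_gam_neg {n L : ℕ} {p g : ℕ → Bool} {d : ℤ} (h : d < 0) :
    gam n L p g d = g1_pp n p d := by
  unfold gam
  rw [if_pos h]
  rfl

theorem g1_gam_mid {n L : ℕ} {p g : ℕ → Bool} {d : ℤ} (h0 : 0 ≤ d) (h : d < L) :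
    gam n L p g d = g d.toNat := by
  unfold gam
  rw [if_neg (not_lt.mpr h0), if_pos h]

theorem g1_gam_right {n L : ℕ} {p g : ℕ → Bool} {d : ℤ} (h : (L : ℤ) ≤ d) :
    gam n L p g d = g1_pp n p (d - L) := by
  unfold gam
  have h0 : 0 ≤ d := le_trans (Int.natCast_nonneg _) h
  rw [if_neg (not_lt.mpr h0), if_neg (not_lt.mpr h)]
  rfl

theorem g1_blk {n L a : ℕ} {p g : ℕ → Bool} {β : ℤ → Bool} (j r : ℤ) (hr : 0 ≤ r)
    (hr2 : r < 2 * L + (2 * a + 1) * n) :
    blk (2 * L + (2 * a + 1) * n) (blkf n L a p g) β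
      ((2 * L + (2 * a + 1) * n : ℤ) * j + r) = blkf n L a p g (β j) r.toNat := by
  unfold blk
  have hc : ((2 * L + (2 * a + 1) * n : ℕ) : ℤ) = (2 * L + (2 * a + 1) * n : ℤ) := by push_cast; ring
  rw [hc]
  set ℓ : ℤ := (2 * L + (2 * a + 1) * n : ℤ) with hℓ
  have hℓ0 : ℓ ≠ 0 := by omega
  rw [Int.mul_add_ediv_left _ _ hℓ0, Int.ediv_eq_zero_of_lt hr hr2, add_zero,
    Int.mul_add_emod_self_left, Int.emod_eq_of_lt hr hr2]

theorem g1_blkf_a {n L a : ℕ} {p g : ℕ → Bool} {b : Bool} {r : ℤ} (hr : 0 ≤ r) (h : r < L) :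
    blkf n L a p g b r.toNat = g r.toNat := by
  unfold blkf
  rw [if_pos (by omega)]

theorem g1_blkf_b {n L a : ℕ} {p g : ℕ → Bool} {b : Bool} {r τ : ℤ}
    (hτ : τ = L + (a + b.toNat) * n) (hr : (L : ℤ) ≤ r) (h : r < τ) :
    blkf n L a p g b r.toNat = g1_pp n p (r - L) := by
  obtain ⟨m, rfl⟩ := Int.eq_ofNat_of_zero_le (le_trans (Int.natCast_nonneg L) hr)
  have h1 : L ≤ m := by exact_mod_cast hr
  have h2 : m < L + (a + b.toNat) * n := by rw [hτ] at h; exact_mod_cast h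
  unfold blkf
  rw [Int.toNat_natCast, if_neg (not_lt.mpr h1)]
  rw [if_pos h2, g1_pp_nat n p (m - L), Nat.cast_sub h1]

theorem g1_blkf_c {n L a : ℕ} {p g : ℕ → Bool} {b : Bool} {r τ : ℤ}
    (hτ : τ = L + (a + b.toNat) * n) (hr : τ ≤ r) (h : r < τ + L) :
    blkf n L a p g b r.toNat = g (r - τ).toNat := by
  have hτ0 : (L : ℤ) ≤ τ := by
    rw [hτ]
    have : (0 : ℤ) ≤ (a + b.toNat) * n := by positivity
    linarith
  obtain ⟨m, rfl⟩ := Int.eq_ofNat_of_zero_le (le_trans (le_trans (Int.natCast_nonneg L) hτ0) hr)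
  have h1 : L + (a + b.toNat) * n ≤ m := by rw [hτ] at hr; exact_mod_cast hr
  have h2 : m < L + (a + b.toNat) * n + L := by rw [hτ] at h; exact_mod_cast h
  have h3 : L ≤ m := le_trans (Nat.le_add_right _ _) h1
  unfold blkf
  rw [Int.toNat_natCast, if_neg (not_lt.mpr h3)]
  rw [if_neg (not_lt.mpr h1), if_pos h2]
  congr 1
  have hc : τ = ((L + (a + b.toNat) * n : ℕ) : ℤ) := by rw [hτ]; push_cast; ring
  rw [hc]
  omega

theorem g1_blkf_d {n L a : ℕ} {p g : ℕ → Bool} {b : Bool} {r τ : ℤ}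
    (hτ : τ = L + (a + b.toNat) * n) (hr : τ + L ≤ r) :
    blkf n L a p g b r.toNat = g1_pp n p (r - τ - L) := by
  have hτ0 : (L : ℤ) ≤ τ := by
    rw [hτ]
    have : (0 : ℤ) ≤ (a + b.toNat) * n := by positivity
    linarith
  have hL0 : (0 : ℤ) ≤ L := Int.natCast_nonneg L
  obtain ⟨m, rfl⟩ := Int.eq_ofNat_of_zero_le (show 0 ≤ r by linarith)
  have h1 : L + (a + b.toNat) * n + L ≤ m := by rw [hτ] at hr; exact_mod_cast hr
  have h2 : L + (a + b.toNat) * n ≤ m := le_trans (Nat.le_add_right _ _) h1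
  have h3 : L ≤ m := le_trans (Nat.le_add_right _ _) h2
  unfold blkf
  rw [Int.toNat_natCast, if_neg (not_lt.mpr h3)]
  rw [if_neg (not_lt.mpr h2), if_neg (not_lt.mpr h1),
    g1_pp_nat n p (m - (L + (a + b.toNat) * n) - L), Nat.cast_sub (by omega),
    Nat.cast_sub h2]
  congr 2
  rw [hτ]
  push_cast
  ring

theorem g1_start_a {n L a : ℕ} {p g : ℕ → Bool} {β : ℤ → Bool} (j d : ℤ)
    (hd1 : -((a : ℤ) * n) ≤ d) (hd2 : d < L + (a : ℤ) * n) :
    blk (2 * L + (2 * a + 1) * n) (blkf n L a p g) β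
      ((2 * L + (2 * a + 1) * n : ℤ) * j + d) = gam n L p g d := by
  have hn0 : (0 : ℤ) ≤ n := Int.natCast_nonneg n
  have hL0 : (0 : ℤ) ≤ L := Int.natCast_nonneg L
  have ha0 : (0 : ℤ) ≤ (a : ℤ) * n := by positivity
  rcases lt_or_ge d 0 with h | h
  · rw [show (2 * L + (2 * a + 1) * n : ℤ) * j + d =
      (2 * L + (2 * a + 1) * n : ℤ) * (j - 1) + ((2 * L + (2 * a + 1) * n : ℤ) + d) by ring,
      g1_blk (j - 1) _ (by nlinarith) (by linarith)]
    have hb : ((β (j - 1)).toNat : ℤ) ≤ 1 := by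
      have := Bool.toNat_le (β (j - 1)); exact_mod_cast this
    have hb' : ((β (j - 1)).toNat : ℤ) * n ≤ 1 * n := mul_le_mul_of_nonneg_right hb hn0
    rw [g1_blkf_d rfl (by linarith), g1_gam_neg h]
    apply g1_pp_congr (a + 1 - (β (j - 1)).toNat)
    ring
  · rcases lt_or_ge d L with h' | h'
    · rw [g1_blk j d h (by nlinarith), g1_blkf_a h h', g1_gam_mid h h']
    · rw [g1_blk j d h (by nlinarith)]
      have hb : (0 : ℤ) ≤ ((β j).toNat : ℤ) * n := by positivity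
      rw [g1_blkf_b rfl h' (by linarith), g1_gam_right h']

theorem g1_start_b {n L a : ℕ} {p g : ℕ → Bool} {β : ℤ → Bool} (j d τ : ℤ)
    (hτ : τ = L + (a + (β j).toNat) * n)
    (hd1 : -((a : ℤ) * n) ≤ d) (hd2 : d < L + (a : ℤ) * n) :
    blk (2 * L + (2 * a + 1) * n) (blkf n L a p g) β
      ((2 * L + (2 * a + 1) * n : ℤ) * j + (τ + d)) = gam n L p g d := by
  have hn0 : (0 : ℤ) ≤ n := Int.natCast_nonneg n
  have hL0 : (0 : ℤ) ≤ L := Int.natCast_nonneg L
  have ha0 : (0 : ℤ) ≤ (a : ℤ) * n := by positivity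
  have hb : ((β j).toNat : ℤ) ≤ 1 := by
    have := Bool.toNat_le (β j); exact_mod_cast this
  have hb' : ((β j).toNat : ℤ) * n ≤ 1 * n := mul_le_mul_of_nonneg_right hb hn0
  have hb0 : (0 : ℤ) ≤ ((β j).toNat : ℤ) * n := by positivity
  rw [g1_blk j (τ + d) (by linarith) (by linarith)]
  rcases lt_or_ge d 0 with h | h
  · rw [g1_blkf_b hτ (by linarith) (by linarith), g1_gam_neg h]
    apply g1_pp_congr (a + (β j).toNat)
    rw [hτ]
    ring
  · rcases lt_or_ge d L with h' | h'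
    · rw [g1_blkf_c hτ (by linarith) (by linarith), g1_gam_mid h h']
      congr 2
      ring
    · rw [g1_blkf_d hτ (by linarith), g1_gam_right h']
      congr 1
      ring

/-- [G1a] every window of radius `T` of a concatenation of the two blocks is a window of the homoclinic
sequence, `2 T ≤ a n`. PROOF. Let `pp d = p (d mod n)`, `A = a n`, `ℓ = 2 L + (2 a + 1) n`,
`u = blk ℓ (blkf ..) β`. Call `t` a start of `u` if `u (t + d) = γ d` for `-A ≤ d < L + A`. For every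
`j` the positions `ℓ j` and `ℓ j + τ`, `τ = L + (a + b) n`, `b = β j`, are starts (five lines each:
to the left of `ℓ j` there are the last `(a + 1 - b') n` letters of the block `j - 1`, which are
`p`-periodic and `ℓ - τ' - L = (a + 1 - b') n`; etc.). Now let `i` be given, `j = i / ℓ`,
`r = i % ℓ`. If `r ≤ L + T - 1` use the start `ℓ j`, `κ = r`; if `L + T ≤ r`, `r + T ≤ τ` the window
lies in a `p`-run: `u (i + d) = pp (r - L + d)`, choose `κ ≡ r - L mod n` with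
`-T - n < κ ≤ -T`; if `τ < r + T`, `r ≤ τ + L + T - 1` use the start `ℓ j + τ`, `κ = r - τ`; if
`τ + L + T ≤ r`, `r + T ≤ ℓ` again a `p`-run; if `ℓ < r + T` use the start `ℓ (j + 1)`,
`κ = r - ℓ`. -/
theorem window_glue (n L a T : ℕ) (hn : 0 < n) (hT : 0 < T) (hA : 2 * T ≤ a * n) (p g : ℕ → Bool)
    (β : ℤ → Bool) (i : ℤ) :
    ∃ κ : ℤ, -(T : ℤ) - n < κ ∧ κ ≤ L + T - 1 ∧
      ∀ d : ℤ, -(T : ℤ) ≤ d → d < T →
        blk (2 * L + (2 * a + 1) * n) (blkf n L a p g) β (i + d) = gam n L p g (κ + d) := by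
  have hn0 : (0 : ℤ) < n := by exact_mod_cast hn
  have hT0 : (0 : ℤ) < T := by exact_mod_cast hT
  have hL0 : (0 : ℤ) ≤ L := Int.natCast_nonneg L
  have hA' : 2 * (T : ℤ) ≤ (a : ℤ) * n := by exact_mod_cast hA
  have hℓ0 : (0 : ℤ) < (2 * L + (2 * a + 1) * n : ℤ) := by nlinarith
  obtain ⟨j, r, hr0, hr1, rfl⟩ : ∃ j r : ℤ, 0 ≤ r ∧ r < (2 * L + (2 * a + 1) * n : ℤ) ∧
      i = (2 * L + (2 * a + 1) * n : ℤ) * j + r :=
    ⟨i / (2 * L + (2 * a + 1) * n : ℤ), i % (2 * L + (2 * a + 1) * n : ℤ),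
      Int.emod_nonneg _ hℓ0.ne', Int.emod_lt_of_pos _ hℓ0, (Int.mul_ediv_add_emod _ _).symm⟩
  have hb : ((β j).toNat : ℤ) ≤ 1 := by
    have := Bool.toNat_le (β j); exact_mod_cast this
  have hb' : ((β j).toNat : ℤ) * n ≤ 1 * n := mul_le_mul_of_nonneg_right hb hn0.le
  have hb0 : (0 : ℤ) ≤ ((β j).toNat : ℤ) * n := by positivity
  obtain ⟨τ, hτ⟩ : ∃ τ : ℤ, τ = L + (a + (β j).toNat) * n := ⟨_, rfl⟩
  have hτ' : τ = L + a * n + (β j).toNat * n := by rw [hτ]; ring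
  have hrun : ∀ s : ℤ, ∃ κ : ℤ, -(T : ℤ) - n < κ ∧ κ ≤ -T ∧
      ∀ d : ℤ, d < T → g1_pp n p (s + d) = gam n L p g (κ + d) := by
    intro s
    refine ⟨-T - (-T - s) % n, ?_, ?_, ?_⟩
    · have := Int.emod_lt_of_pos (-(T : ℤ) - s) hn0
      linarith
    · have := Int.emod_nonneg (-(T : ℤ) - s) hn0.ne'
      linarith
    · intro d hd
      have h1 := Int.emod_nonneg (-(T : ℤ) - s) hn0.ne'
      rw [g1_gam_neg (by linarith)]
      apply g1_pp_congr (-((-(T : ℤ) - s) / n))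
      have h2 := Int.mul_ediv_add_emod (-(T : ℤ) - s) n
      linarith
  rcases le_or_gt r (L + T - 1) with h1 | h1
  · refine ⟨r, by linarith, h1, fun d hd1 hd2 => ?_⟩
    rw [add_assoc]
    exact g1_start_a j (r + d) (by linarith) (by linarith)
  rcases le_or_gt (r + T) τ with h2 | h2
  · obtain ⟨κ, hκ1, hκ2, hκ3⟩ := hrun (r - L)
    refine ⟨κ, hκ1, by linarith, fun d hd1 hd2 => ?_⟩
    rw [← hκ3 d hd2, add_assoc, g1_blk j (r + d) (by linarith) (by linarith),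
      g1_blkf_b hτ (by linarith) (by linarith)]
    congr 1
    ring
  rcases le_or_gt r (τ + L + T - 1) with h3 | h3
  · refine ⟨r - τ, by linarith, by linarith, fun d hd1 hd2 => ?_⟩
    rw [add_assoc, show r + d = τ + (r - τ + d) by ring]
    exact g1_start_b j (r - τ + d) τ hτ (by linarith) (by linarith)
  rcases le_or_gt (r + T) (2 * L + (2 * a + 1) * n : ℤ) with h4 | h4
  · obtain ⟨κ, hκ1, hκ2, hκ3⟩ := hrun (r - τ - L)
    refine ⟨κ, hκ1, by linarith, fun d hd1 hd2 => ?_⟩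
    rw [← hκ3 d hd2, add_assoc, g1_blk j (r + d) (by linarith) (by linarith),
      g1_blkf_d hτ (by linarith)]
    congr 1
    ring
  · refine ⟨r - (2 * L + (2 * a + 1) * n : ℤ), by linarith, by linarith, fun d hd1 hd2 => ?_⟩
    rw [show (2 * L + (2 * a + 1) * n : ℤ) * j + r + d = (2 * L + (2 * a + 1) * n : ℤ) * (j + 1) +
      (r - (2 * L + (2 * a + 1) * n : ℤ) + d) by ring]
    exact g1_start_a (j + 1) _ (by linarith) (by linarith)

end BakerTrap
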