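import Pool.Agent.MP_1b0c96_an.G1
import Pool.Agent.MP_1b0c96_an.D2

/-!
# [BT-G2] A trap meets a box of every homoclinic sequence
-/

set_option autoImplicit false

open MeasureTheory

namespace BakerTrap

theorem g2_bn_congr {f f' : ℕ → Bool} (T : ℕ) (h : ∀ j < T, f j = f' j) : bn f T = bn f' T := by
  induction T with
  | zero => rfl
  | succ T ih =>
    rw [bn, bn, ih (fun j hj => h j (by omega)), h T (by omega)]

/-- [G1b] the two blocks are different if `g p ≠ p g`. PROOF. At the position `L + a n + d` the block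
`false` has the letter `(g p) d` and the block `true` the letter `(p g) d`, `d < L + n`. -/
theorem blkf_ne (n L a : ℕ) (hn : 0 < n) (p g : ℕ → Bool)
    (hne : ∃ d < L + n, (if d < L then g d else p (d - L)) ≠ (if d < n then p d else g (d - n))) :
    ∃ r < 2 * L + (2 * a + 1) * n, blkf n L a p g false r ≠ blkf n L a p g true r := by
  obtain ⟨d, hd, hne⟩ := hne
  have e1 : (2 * a + 1) * n = a * n + a * n + n := by ring
  have e2 : (a + 1) * n = a * n + n := by ring
  refine ⟨L + a * n + d, by rw [e1]; omega, ?_⟩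
  have hf : blkf n L a p g false (L + a * n + d) = if d < L then g d else p (d - L) := by
    unfold blkf
    simp only [Bool.toNat_false, add_zero]
    rw [if_neg (by omega), if_neg (by omega)]
    by_cases h : d < L
    · rw [if_pos (by omega), if_pos h]
      congr 1
      omega
    · rw [if_neg (by omega), if_neg h]
      have h1 : L + a * n + d - (L + a * n) - L = d - L := by omega
      rw [h1, Nat.mod_eq_of_lt (by omega)]
  have ht : blkf n L a p g true (L + a * n + d) = if d < n then p d else g (d - n) := by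
    unfold blkf
    simp only [Bool.toNat_true]
    rw [if_neg (by omega), e2]
    by_cases h : d < n
    · rw [if_pos (by omega), if_pos h]
      have h1 : L + a * n + d - L = d + a * n := by omega
      rw [h1, Nat.add_mul_mod_self_right, Nat.mod_eq_of_lt h]
    · rw [if_neg (by omega), if_neg h, if_pos (by omega)]
      congr 1
      omega
  rw [hf, ht]
  exact hne

/-- the set `H` meets the closed dyadic box of level `T` with the indices `Xc`, `Yc` -/
def Meets (H : Set (ℝ × ℝ)) (T Xc Yc : ℕ) : Prop :=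
  ∃ q ∈ H, (Xc : ℝ) / 2 ^ T ≤ q.1 ∧ q.1 ≤ (Xc + 1) / 2 ^ T ∧
    (Yc : ℝ) / 2 ^ T ≤ q.2 ∧ q.2 ≤ (Yc + 1) / 2 ^ T

/-- [G1c] a trap meets a box of every homoclinic sequence. PROOF. Choose `a` with `2 T ≤ a n`, `1 ≤ a`.
By `dim_pos` and G1b some `code (shift k u) ∈ H`, `u = blk ..`. Let `i = k + 1`; by `real_mem` and
`code_shift` the point lies in the box with the indices `bn (fun j => u (i + j)) T`,
`bn (fun j => u (i - 1 - j)) T`, which only depend on `u (i + d)`, `-T ≤ d < T`; now use G1a. -/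
theorem trap_meets {H : Set (ℝ × ℝ)} (hH : dimH (survivor H) = 0) (n L T : ℕ) (hn : 0 < n)
    (hT : 0 < T) (p g : ℕ → Bool)
    (hne : ∃ d < L + n, (if d < L then g d else p (d - L)) ≠ (if d < n then p d else g (d - n))) :
    ∃ κ : ℤ, -(T : ℤ) - n < κ ∧ κ ≤ L + T - 1 ∧
      Meets H T (bn (fun j => gam n L p g (κ + j)) T) (bn (fun j => gam n L p g (κ - 1 - j)) T) := by
  have hA : 2 * T ≤ (2 * T) * n := Nat.le_mul_of_pos_right _ hn
  have hℓ : 2 ≤ 2 * L + (2 * (2 * T) + 1) * n := by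
    have h1 : (2 * (2 * T) + 1) * n = 4 * T * n + n := by ring
    have h2 : T ≤ T * n := Nat.le_mul_of_pos_right _ hn
    have h3 : 4 * T * n = 4 * (T * n) := by ring
    omega
  have h1 : ∃ β : ℤ → Bool, ∃ k : ℤ,
      code (shift k (blk (2 * L + (2 * (2 * T) + 1) * n) (blkf n L (2 * T) p g) β)) ∈ H := by
    by_contra hcon
    push Not at hcon
    have := dim_pos _ hℓ (blkf n L (2 * T) p g) (blkf_ne n L (2 * T) hn p g hne) H hcon
    rw [hH] at this
    exact lt_irrefl _ this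
  obtain ⟨β, k, hk⟩ := h1
  obtain ⟨κ, h2, h3, h4⟩ := window_glue n L (2 * T) T hn hT hA p g β (k + 1)
  refine ⟨κ, h2, h3, _, hk, ?_⟩
  rw [code_shift]
  set u := blk (2 * L + (2 * (2 * T) + 1) * n) (blkf n L (2 * T) p g) β with hu
  have e1 : bn (fun j => gam n L p g (κ + j)) T = bn (fun n : ℕ => u (n + 1 + k)) T := by
    refine g2_bn_congr T fun j hj => ?_
    rw [← h4 j (by omega) (by omega)]
    congr 1
    ring
  have e2 : bn (fun j => gam n L p g (κ - 1 - j)) T = bn (fun n : ℕ => u (-n + k)) T := by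
    refine g2_bn_congr T fun j hj => ?_
    have h5 := h4 (-1 - j) (by omega) (by omega)
    have h6 : κ - 1 - (j : ℤ) = κ + (-1 - j) := by ring
    rw [h6, ← h5]
    congr 1
    ring
  rw [e1, e2]
  have h5 := real_mem (fun n : ℕ => u (n + 1 + k)) T
  have h6 := real_mem (fun n : ℕ => u (-n + k)) T
  exact ⟨h5.1, h5.2, h6.1, h6.2⟩

theorem g2_coarse {X m T' : ℕ} {x : ℝ} (h1 : (X : ℝ) / 2 ^ (T' + m) ≤ x)
    (h2 : x ≤ (X + 1) / 2 ^ (T' + m)) :
    ((X / 2 ^ m : ℕ) : ℝ) / 2 ^ T' ≤ x ∧ x ≤ (((X / 2 ^ m : ℕ) : ℝ) + 1) / 2 ^ T' := by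
  have hpm : (0 : ℝ) < 2 ^ m := by positivity
  have hpT : (0 : ℝ) < 2 ^ T' := by positivity
  have h3 : X / 2 ^ m * 2 ^ m ≤ X := Nat.div_mul_le_self _ _
  have h4 : X + 1 ≤ (X / 2 ^ m + 1) * 2 ^ m := by
    have := Nat.lt_mul_of_div_lt (Nat.lt_succ_self (X / 2 ^ m)) (show 0 < 2 ^ m by positivity)
    rw [Nat.succ_eq_add_one] at this
    omega
  have h3' : ((X / 2 ^ m : ℕ) : ℝ) * 2 ^ m ≤ X := by exact_mod_cast h3
  have h4' : (X : ℝ) + 1 ≤ (((X / 2 ^ m : ℕ) : ℝ) + 1) * 2 ^ m := by exact_mod_cast h4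
  rw [pow_add] at h1 h2
  constructor
  · refine le_trans ?_ h1
    rw [div_le_div_iff₀ hpT (by positivity)]
    nlinarith
  · refine le_trans h2 ?_
    rw [div_le_div_iff₀ (by positivity) hpT]
    nlinarith

/-- [G1d] coarsening. PROOF. `X / 2^(T - T') * 2^(T - T') ≤ X` and
`X + 1 ≤ (X / 2^(T - T') + 1) * 2^(T - T')`. -/
theorem Meets.coarsen {H : Set (ℝ × ℝ)} {T Xc Yc : ℕ} (h : Meets H T Xc Yc) {T' : ℕ}
    (hT : T' ≤ T) : Meets H T' (Xc / 2 ^ (T - T')) (Yc / 2 ^ (T - T')) := by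
  obtain ⟨q, hq, h1, h2, h3, h4⟩ := h
  obtain ⟨m, rfl⟩ := Nat.exists_eq_add_of_le hT
  rw [Nat.add_sub_cancel_left]
  obtain ⟨a1, a2⟩ := g2_coarse h1 h2
  obtain ⟨a3, a4⟩ := g2_coarse h3 h4
  exact ⟨q, hq, a1, a2, a3, a4⟩

end BakerTrap
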