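/-!
# The checker of the branch and bound certificate (lower bound)
-/

set_option autoImplicit false

namespace BakerTrap

/-- binary trees of numbers, heap order -/
inductive BT where
  | nil : BT
  | node : BT → Nat → BT → BT

/-- the entry with index `i` -/
def BT.get : BT → Nat → Nat
  | .nil, _ => 0
  | .node l v r, i =>
    match Nat.beq i 0 with
    | true => v
    | false =>
      match Nat.beq (Nat.mod i 2) 1 with
      | true => l.get (Nat.div i 2)
      | false => r.get (Nat.sub (Nat.div i 2) 1)

/-- A constraint: the homoclinic sequence `gam n L p g`, stored as the number `N` of its word on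
`[-off, L + off)` and the number `R` of the reversed word. -/
structure Con where
  n : Nat
  L : Nat
  off : Nat
  N : Nat
  R : Nat

/-- binary trees of constraints, heap order -/
inductive CT where
  | nil : CT
  | node : CT → Con → CT → CT

/-- the constraint with index `i` -/
def CT.get : CT → Nat → Con
  | .nil, _ => ⟨0, 0, 0, 0, 0⟩
  | .node l v r, i =>
    match Nat.beq i 0 with
    | true => v
    | false =>
      match Nat.beq (Nat.mod i 2) 1 with
      | true => l.get (Nat.div i 2)
      | false => r.get (Nat.sub (Nat.div i 2) 1)

/-- positive part of twice the signed area of `a b (x, y)` -/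
def cp (ax ay bx b_y x y : Nat) : Nat :=
  Nat.sub (Nat.add (Nat.add (Nat.mul bx y) (Nat.mul b_y ax)) (Nat.mul ay x))
    (Nat.add (Nat.add (Nat.mul bx ay) (Nat.mul ax y)) (Nat.mul b_y x))

/-- sum of the positive parts over the edges of the polygonal line `a, l₀, l₁, ..., l_m, f` -/
def fan (x y fx fy : Nat) : Nat → Nat → List (Nat × Nat) → Nat
  | ax, ay, [] => cp ax ay fx fy x y
  | ax, ay, (bx, b_y) :: l => Nat.add (cp ax ay bx b_y x y) (fan x y fx fy bx b_y l)

/-- the fan sum of a closed polygon with respect to the point `(x, y)` -/
def fanSum (x y : Nat) : List (Nat × Nat) → Nat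
  | [] => 0
  | (ax, ay) :: l => fan x y ax ay ax ay l

/-- decode `k` points with coordinates `< B` -/
def decPts (B : Nat) : Nat → Nat → List (Nat × Nat)
  | 0, _ => []
  | k + 1, z => (Nat.mod z B, Nat.mod (Nat.div z B) B) :: decPts B k (Nat.div z (Nat.mul B B))

/-- decode `k` pointers -/
def decPtr : Nat → Nat → List Nat
  | 0, _ => []
  | k + 1, z => Nat.mod z 16384 :: decPtr k (Nat.div z 16384)

/-- is `(x, y)` a member of the list -/
def mem (x y : Nat) : List (Nat × Nat) → Bool
  | [] => false
  | (a, b) :: l =>
    match Nat.beq a x with
    | true =>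
      match Nat.beq b y with
      | true => true
      | false => mem x y l
    | false => mem x y l

def subset : List (Nat × Nat) → List (Nat × Nat) → Bool
  | [], _ => true
  | (a, b) :: l, m =>
    match mem a b m with
    | true => subset l m
    | false => false

def coars (D : Nat) : List (Nat × Nat) → List (Nat × Nat)
  | [] => []
  | (a, b) :: l => (Nat.div a D, Nat.div b D) :: coars D l

/-- all points of the list are `a`, `b` or strictly to the left of `a b` -/
def leftOf (ax ay bx b_y : Nat) : List (Nat × Nat) → Bool
  | [] => true
  | (x, y) :: l =>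
    match Nat.beq (cp ax ay bx b_y x y) 0 with
    | false => leftOf ax ay bx b_y l
    | true =>
      match mem x y [(ax, ay), (bx, b_y)] with
      | true => leftOf ax ay bx b_y l
      | false => false

/-- the condition `leftOf` for all edges of the polygonal line -/
def leftAll (h : List (Nat × Nat)) (fx fy : Nat) : Nat → Nat → List (Nat × Nat) → Bool
  | ax, ay, [] => leftOf ax ay fx fy h
  | ax, ay, (bx, b_y) :: l =>
    match leftOf ax ay bx b_y h with
    | true => leftAll h fx fy bx b_y l
    | false => false

/-- no point occurs twice -/
def nodup : List (Nat × Nat) → Bool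
  | [] => true
  | (a, b) :: l =>
    match mem a b l with
    | true => false
    | false => nodup l

/-- the hull condition -/
def hullOK : List (Nat × Nat) → Bool
  | [] => true
  | [_] => true
  | [_, _] => true
  | (ax, ay) :: l =>
    match nodup ((ax, ay) :: l) with
    | true => leftAll ((ax, ay) :: l) ax ay ax ay l
    | false => false

/-- a pointer is good: node code `q` has level `≤ T` and its boxes are coarsenings of boxes of `h` -/
def ptrOK (T : Nat) (h : List (Nat × Nat)) (q : Nat) : Bool :=
  match Nat.ble (Nat.mod q 64) T with
  | true =>
    subset (decPts (Nat.pow 2 (Nat.mod q 64)) (Nat.mod (Nat.div q 32768) 32) (Nat.div q 134217728))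
      (coars (Nat.pow 2 (Nat.sub T (Nat.mod q 64))) h)
  | false => false

/-- the children of a node: `k` windows, exponents `e`, `f` -/
def kids (get : Nat → Nat) (i T thr P N R : Nat) (h : List (Nat × Nat)) : Nat → Nat → Nat → List Nat → Bool
  | 0, _, _, _ => true
  | k + 1, e, f, ps =>
    match Nat.ble thr (fanSum (Nat.mod (Nat.div N (Nat.pow 2 e)) P)
        (Nat.mod (Nat.div R (Nat.pow 2 f)) P) h) with
    | true => kids get i T thr P N R h k (Nat.add e 1) (Nat.sub f 1) ps
    | false =>
      match ps with
      | [] => false
      | p :: ps' =>
        match Nat.ble i p with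
        | true => false
        | false =>
          match ptrOK T ((Nat.mod (Nat.div N (Nat.pow 2 e)) P, Nat.mod (Nat.div R (Nat.pow 2 f)) P)
              :: h) (get p) with
          | true => kids get i T thr P N R h k (Nat.add e 1) (Nat.sub f 1) ps'
          | false => false

/-- threshold for the fan sum at level `T`, `A₀ = num / 10^12` -/
def thr (num T : Nat) : Nat :=
  Nat.add (Nat.div (Nat.add (Nat.mul (Nat.mul 2 num) (Nat.pow 4 T)) 999999999999) 1000000000000)
    (Nat.add (Nat.mul 4 (Nat.pow 2 T)) 2)

/-- one node -/
def nodeOK (num : Nat) (get : Nat → Nat) (con : Nat → Con) (i q : Nat) : Bool :=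
  let T := Nat.mod q 64
  let P := Nat.pow 2 T
  let m := Nat.mod (Nat.div q 32768) 32
  let h := decPts P m (Nat.div q 134217728)
  let np := Nat.mod (Nat.div q 1048576) 128
  let ps := decPtr np (Nat.div q (Nat.mul 134217728 (Nat.pow P (Nat.mul 2 m))))
  match con (Nat.mod (Nat.div q 64) 512) with
  | ⟨n, L, off, N, R⟩ =>
    match Nat.ble (Nat.add (Nat.mul 2 T) n) off with
    | true =>
      match Nat.beq T 0 with
      | true => false
      | false =>
      match hullOK h with
      | true => kids get i T (thr num T) P N R h (Nat.sub (Nat.add (Nat.add L (Nat.mul 2 T)) n) 1)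
          (Nat.sub (Nat.add off 1) (Nat.mul 2 T)) (Nat.sub (Nat.add off L) 1) ps
      | false => false
    | false => false

/-- nodes `i, i + 1, ..., i + k - 1` -/
def range (num : Nat) (get : Nat → Nat) (con : Nat → Con) : Nat → Nat → Bool
  | 0, _ => true
  | k + 1, i =>
    match nodeOK num get con i (get i) with
    | true => range num get con k (Nat.add i 1)
    | false => false

theorem range_sound {num : Nat} {get : Nat → Nat} {con : Nat → Con} :
    ∀ (k i : Nat), range num get con k i = true →
      ∀ j, i ≤ j → j < i + k → nodeOK num get con j (get j) = true := by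
  intro k
  induction k with
  | zero =>
    intro i _ j h1 h2
    omega
  | succ k ih =>
    intro i h j h1 h2
    unfold range at h
    cases h3 : nodeOK num get con i (get i) with
    | false =>
      rw [h3] at h
      simp at h
    | true =>
      rw [h3] at h
      simp only at h
      rcases Nat.eq_or_lt_of_le h1 with h4 | h4
      · subst h4
        exact h3
      · exact ih (i + 1) h j h4 (by omega)

/-- chaining of statements about all elements of an interval -/
theorem all_trans {p : Nat → Prop} {a b c : Nat} (h1 : ∀ j, a ≤ j → j < b → p j)
    (h2 : ∀ j, b ≤ j → j < c → p j) : ∀ j, a ≤ j → j < c → p j := by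
  intro j h3 h4
  rcases Nat.lt_or_ge j b with h | h
  · exact h1 j h3 h
  · exact h2 j h h4

end BakerTrap
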