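import Pool.Agent.MP_1b0c96_an.L1
import Pool.Agent.MP_1b0c96_an.G2

/-!
# Validity of the constraints
-/

set_option autoImplicit false

namespace BakerTrap

/-- reversal of the lowest `k` binary digits of `z` (added to `acc * 2 ^ k`) -/
def rev : ℕ → ℕ → ℕ → ℕ
  | 0, _, acc => acc
  | k + 1, z, acc => rev k (Nat.div z 2) (Nat.add (Nat.mul 2 acc) (Nat.mod z 2))

/-- validity of a constraint -/
def conOK (c : Con) : Bool :=
  Nat.ble 1 c.n && Nat.ble c.n c.off && Nat.beq (Nat.mod c.off c.n) 0 &&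
  Nat.beq (Nat.div c.N (Nat.pow 2 (Nat.add c.L c.off))) (Nat.mod c.N (Nat.pow 2 c.off)) &&
  Nat.beq (Nat.div (Nat.mod c.N (Nat.pow 2 c.off)) (Nat.pow 2 c.n))
    (Nat.mod c.N (Nat.pow 2 (Nat.sub c.off c.n))) &&
  !(Nat.beq (Nat.mod (Nat.div c.N (Nat.pow 2 (Nat.sub c.off c.n))) (Nat.pow 2 (Nat.add c.L c.n)))
    (Nat.mod (Nat.div c.N (Nat.pow 2 c.off)) (Nat.pow 2 (Nat.add c.L c.n)))) &&
  Nat.beq (rev (Nat.add (Nat.mul 2 c.off) c.L) c.N 0) c.R

/-- the `j`-th of `M` digits (most significant first) -/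
def wd (N M j : ℕ) : Bool := N.testBit (M - 1 - j)

theorem bn_congr {f g : ℕ → Bool} {T : ℕ} (h : ∀ j < T, f j = g j) : bn f T = bn g T := by
  induction T with
  | zero => rfl
  | succ T ih =>
    simp only [bn]
    rw [ih fun j hj => h j (by omega), h T (by omega)]

theorem bn_wd (N M a T : ℕ) (h : a + T ≤ M) :
    bn (fun j => wd N M (a + j)) T = N / 2 ^ (M - a - T) % 2 ^ T := by
  induction T with
  | zero => simp [bn, Nat.mod_one]
  | succ T ih =>
    simp only [bn]
    rw [ih (by omega)]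
    have h1 : M - 1 - (a + T) = M - a - (T + 1) := by omega
    have h2 : M - a - T = M - a - (T + 1) + 1 := by omega
    rw [wd, h1, Nat.toNat_testBit, h2, pow_succ, pow_succ' 2 T, Nat.mod_mul, ← Nat.div_div_eq_div_mul]
    ring

theorem rev_testBit (k : ℕ) : ∀ (z acc : ℕ),
    (∀ i < k, (rev k z acc).testBit (k - 1 - i) = z.testBit i) ∧
    (∀ i, (rev k z acc).testBit (k + i) = acc.testBit i) := by
  induction k with
  | zero =>
    intro z acc
    refine ⟨fun i hi => absurd hi (by omega), fun i => ?_⟩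
    simp [rev]
  | succ k ih =>
    intro z acc
    obtain ⟨h1, h2⟩ := ih (z / 2) (2 * acc + z % 2)
    have hr : rev (k + 1) z acc = rev k (z / 2) (2 * acc + z % 2) := rfl
    rw [hr]
    refine ⟨fun i hi => ?_, fun i => ?_⟩
    · rcases Nat.eq_zero_or_pos i with rfl | hi0
      · have h3 := h2 0
        rw [Nat.add_zero] at h3
        rw [show k + 1 - 1 - 0 = k by omega, h3, Nat.testBit_zero, Nat.testBit_zero,
          show (2 * acc + z % 2) % 2 = z % 2 by omega]
      · have h3 := h1 (i - 1) (by omega)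
        rw [show k + 1 - 1 - i = k - 1 - (i - 1) by omega, h3]
        obtain ⟨i', rfl⟩ : ∃ i', i = i' + 1 := ⟨i - 1, by omega⟩
        rw [Nat.add_sub_cancel, Nat.testBit_succ]
    · have h3 := h2 (i + 1)
      rw [show k + 1 + i = k + (i + 1) by omega, h3, Nat.testBit_succ,
        show (2 * acc + z % 2) / 2 = acc by omega]

theorem conOK_iff {c : Con} (h : conOK c = true) :
    1 ≤ c.n ∧ c.n ≤ c.off ∧ c.off % c.n = 0 ∧ c.N / 2 ^ (c.L + c.off) = c.N % 2 ^ c.off ∧
    c.N % 2 ^ c.off / 2 ^ c.n = c.N % 2 ^ (c.off - c.n) ∧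
    c.N / 2 ^ (c.off - c.n) % 2 ^ (c.L + c.n) ≠ c.N / 2 ^ c.off % 2 ^ (c.L + c.n) ∧
    rev (2 * c.off + c.L) c.N 0 = c.R := by
  simp only [conOK, Bool.and_eq_true, Bool.not_eq_true', and_assoc] at h
  obtain ⟨h1, h2, h3, h4, h5, h6, h7⟩ := h
  exact ⟨Nat.le_of_ble_eq_true h1, Nat.le_of_ble_eq_true h2, Nat.eq_of_beq_eq_true h3,
    Nat.eq_of_beq_eq_true h4, Nat.eq_of_beq_eq_true h5, Nat.ne_of_beq_eq_false h6,
    Nat.eq_of_beq_eq_true h7⟩

/-- the periodic word of a constraint -/
def conp (c : Con) : ℕ → Bool := fun j => wd c.N (2 * c.off + c.L) j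

/-- the middle word of a constraint -/
def cong (c : Con) : ℕ → Bool := fun j => wd c.N (2 * c.off + c.L) (c.off + j)

theorem conp_right {c : Con} (h : conOK c = true) {j : ℕ} (hj : j < c.off) :
    wd c.N (2 * c.off + c.L) (c.off + c.L + j) = conp c j := by
  obtain ⟨-, -, -, h4, -⟩ := conOK_iff h
  have h5 := congrArg (fun z => z.testBit (c.off - 1 - j)) h4
  simp only [Nat.testBit_div_two_pow, Nat.testBit_mod_two_pow] at h5
  rw [conp, wd, wd]
  rw [show 2 * c.off + c.L - 1 - (c.off + c.L + j) = c.off - 1 - j by omega,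
    show 2 * c.off + c.L - 1 - j = c.off - 1 - j + (c.L + c.off) by omega, h5]
  simp [show c.off - 1 - j < c.off by omega]

theorem conp_add {c : Con} (h : conOK c = true) {j : ℕ} (hj : j + c.n < c.off) :
    conp c (j + c.n) = conp c j := by
  rw [← conp_right h (by omega : j < c.off), ← conp_right h hj]
  obtain ⟨-, -, -, -, h4, -⟩ := conOK_iff h
  have h5 := congrArg (fun z => z.testBit (c.off - 1 - j - c.n)) h4
  simp only [Nat.testBit_div_two_pow, Nat.testBit_mod_two_pow] at h5
  rw [wd, wd]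
  rw [show 2 * c.off + c.L - 1 - (c.off + c.L + j) = c.off - 1 - j by omega,
    show 2 * c.off + c.L - 1 - (c.off + c.L + (j + c.n)) = c.off - 1 - j - c.n by omega]
  rw [show c.off - 1 - j - c.n + c.n = c.off - 1 - j by omega] at h5
  simpa [show c.off - 1 - j < c.off by omega, show c.off - 1 - j - c.n < c.off - c.n by omega]
    using h5.symm

theorem conp_mod {c : Con} (h : conOK c = true) (j : ℕ) (hj : j < c.off) :
    conp c j = conp c (j % c.n) := by
  obtain ⟨h1, -⟩ := conOK_iff h
  induction j using Nat.strong_induction_on with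
  | _ j ih =>
    by_cases hjn : j < c.n
    · rw [Nat.mod_eq_of_lt hjn]
    · have h2 := conp_add h (j := j - c.n) (by omega)
      rw [show j - c.n + c.n = j by omega] at h2
      rw [h2, ih (j - c.n) (by omega) (by omega)]
      congr 1
      exact (Nat.mod_eq_sub_mod (by omega)).symm

theorem gam_eq {c : Con} (h : conOK c = true) (d : ℤ) (h1 : -(c.off : ℤ) ≤ d)
    (h2 : d < c.L + c.off) :
    gam c.n c.L (conp c) (cong c) d = wd c.N (2 * c.off + c.L) (d + c.off).toNat := by
  obtain ⟨hn, hno, hmod, -⟩ := conOK_iff h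
  unfold gam
  split_ifs with h3 h4
  · have h5 : (d % c.n).toNat = (d + c.off).toNat % c.n := by
      have h6 : (c.off : ℤ) % c.n = 0 := by exact_mod_cast hmod
      have h7 : d % c.n = (d + c.off) % c.n := by
        rw [Int.add_emod, h6, add_zero, Int.emod_emod_of_dvd _ (dvd_refl _)]
      have h8 : ((d + c.off).toNat : ℤ) = d + c.off := Int.toNat_of_nonneg (by omega)
      rw [h7, ← h8]
      norm_cast
    rw [h5, ← conp_mod h _ (by omega)]
    rfl
  · rw [cong]
    congr 1
    omega
  · have h5 : ((d - c.L) % c.n).toNat = (d - c.L).toNat % c.n := by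
      have h8 : ((d - c.L).toNat : ℤ) = d - c.L := Int.toNat_of_nonneg (by omega)
      rw [← h8]
      norm_cast
    rw [h5, ← conp_mod h _ (by omega), ← conp_right h (by omega)]
    congr 1
    omega

theorem con_ne {c : Con} (h : conOK c = true) :
    ∃ d < c.L + c.n, (if d < c.L then cong c d else conp c (d - c.L)) ≠
      (if d < c.n then conp c d else cong c (d - c.n)) := by
  by_contra hcon
  push Not at hcon
  obtain ⟨hn, hno, hmod, -, -, h6, -⟩ := conOK_iff h
  apply h6
  have e1 := bn_wd c.N (2 * c.off + c.L) c.off (c.L + c.n) (by omega)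
  have e2 := bn_wd c.N (2 * c.off + c.L) (c.off - c.n) (c.L + c.n) (by omega)
  rw [show 2 * c.off + c.L - c.off - (c.L + c.n) = c.off - c.n by omega] at e1
  rw [show 2 * c.off + c.L - (c.off - c.n) - (c.L + c.n) = c.off by omega] at e2
  rw [← e1, ← e2]
  apply bn_congr
  intro j hj
  have h7 := hcon j hj
  have h8 : wd c.N (2 * c.off + c.L) (c.off + j) =
      (if j < c.L then cong c j else conp c (j - c.L)) := by
    split_ifs with h9
    · rfl
    · rw [← conp_right h (by omega)]
      congr 1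
      omega
  have h10 : wd c.N (2 * c.off + c.L) (c.off - c.n + j) =
      (if j < c.n then conp c j else cong c (j - c.n)) := by
    split_ifs with h9
    · have e3 : conp c (c.off - c.n + j) = conp c j := by
        rw [conp_mod h _ (by omega), conp_mod h j (by omega)]
        congr 1
        have e4 : c.n ∣ c.off - c.n := (Nat.dvd_sub (Nat.dvd_of_mod_eq_zero hmod) (dvd_refl _))
        obtain ⟨e, he⟩ := e4
        rw [he, Nat.mul_add_mod]
      exact e3
    · rw [cong]
      congr 1
      omega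
  rw [h8, h10, h7]

/-- every trap meets a box of a constraint -/
theorem con_meets {H : Set (ℝ × ℝ)} (hH : dimH (survivor H) = 0) {c : Con} (h : conOK c = true)
    {T : ℕ} (hT : 0 < T) (hTo : 2 * T + c.n ≤ c.off) :
    ∃ i < c.L + 2 * T + c.n - 1, Meets H T (c.N / 2 ^ (c.off + 1 - 2 * T + i) % 2 ^ T)
      (c.R / 2 ^ (c.off + c.L - 1 - i) % 2 ^ T) := by
  obtain ⟨hn, hno, hmod, -, -, -, hrev⟩ := conOK_iff h
  obtain ⟨κ, h1, h2, h3⟩ := trap_meets hH c.n c.L T hn hT (conp c) (cong c) (con_ne h)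
  refine ⟨(c.L + T - 1 - κ).toNat, by omega, ?_⟩
  have e1 : bn (fun j => gam c.n c.L (conp c) (cong c) (κ + j)) T =
      c.N / 2 ^ (c.off + 1 - 2 * T + (c.L + T - 1 - κ).toNat) % 2 ^ T := by
    have e2 := bn_wd c.N (2 * c.off + c.L) (κ + c.off).toNat T (by omega)
    rw [show 2 * c.off + c.L - (κ + c.off).toNat - T =
      c.off + 1 - 2 * T + (c.L + T - 1 - κ).toNat by omega] at e2
    rw [← e2]
    apply bn_congr
    intro j hj
    rw [gam_eq h _ (by omega) (by omega)]
    congr 1
    omega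
  have e3 : bn (fun j => gam c.n c.L (conp c) (cong c) (κ - 1 - j)) T =
      c.R / 2 ^ (c.off + c.L - 1 - (c.L + T - 1 - κ).toNat) % 2 ^ T := by
    have e2 := bn_wd c.R (2 * c.off + c.L) (2 * c.off + c.L - (κ + c.off).toNat) T (by omega)
    rw [show 2 * c.off + c.L - (2 * c.off + c.L - (κ + c.off).toNat) - T =
      c.off + c.L - 1 - (c.L + T - 1 - κ).toNat by omega] at e2
    rw [← e2]
    apply bn_congr
    intro j hj
    rw [gam_eq h _ (by omega) (by omega), wd, wd, ← hrev]
    have e4 := (rev_testBit (2 * c.off + c.L) c.N 0).1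
      (2 * c.off + c.L - (κ + c.off).toNat + j) (by omega)
    rw [e4]
    congr 1
    omega
  rw [e1, e3] at h3
  exact h3

end BakerTrap
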