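import Pool.Agent.MP_1b0c96_an.L1
import Pool.Agent.MP_1b0c96_an.A1c

/-!
# Soundness of the fan sum
-/

set_option autoImplicit false

open MeasureTheory

namespace BakerTrap

/-- the centre of a dyadic box -/
noncomputable def ctr (T : ℕ) (z : ℕ × ℕ) : ℝ × ℝ :=
  ((2 * z.1 + 1) / 2 ^ (T + 1), (2 * z.2 + 1) / 2 ^ (T + 1))

theorem cr_ctr (T : ℕ) (a b c : ℕ × ℕ) :
    cr (ctr T a) (ctr T b) (ctr T c) =
      (((b.1 : ℝ) - a.1) * ((c.2 : ℝ) - a.2) - ((b.2 : ℝ) - a.2) * ((c.1 : ℝ) - a.1)) / 4 ^ T := by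
  have h : (4 : ℝ) ^ T = 2 ^ T * 2 ^ T := by
    rw [← mul_pow]
    norm_num
  simp only [cr, ctr, h, pow_succ]
  field_simp
  ring

theorem cp_eq (T : ℕ) (a b : ℕ × ℕ) (x y : ℕ) :
    (cp a.1 a.2 b.1 b.2 x y : ℝ) / 4 ^ T = max 0 (cr (ctr T a) (ctr T b) (ctr T (x, y))) := by
  have h4 : (0 : ℝ) < 4 ^ T := by positivity
  have h : (cp a.1 a.2 b.1 b.2 x y : ℝ) =
      max 0 (((b.1 : ℝ) - a.1) * ((y : ℝ) - a.2) - ((b.2 : ℝ) - a.2) * ((x : ℝ) - a.1)) := by
    have e1 : cp a.1 a.2 b.1 b.2 x y =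
      (b.1 * y + b.2 * a.1 + a.2 * x) - (b.1 * a.2 + a.1 * y + b.2 * x) := rfl
    rw [e1]
    rcases le_total (b.1 * a.2 + a.1 * y + b.2 * x) (b.1 * y + b.2 * a.1 + a.2 * x) with h1 | h1
    · have h2 : ((b.1 * a.2 + a.1 * y + b.2 * x : ℕ) : ℝ) ≤
        ((b.1 * y + b.2 * a.1 + a.2 * x : ℕ) : ℝ) := by exact_mod_cast h1
      rw [Nat.cast_sub h1]
      push_cast at h2 ⊢
      rw [max_eq_right]
      · ring
      · nlinarith
    · have h2 : ((b.1 * y + b.2 * a.1 + a.2 * x : ℕ) : ℝ) ≤
        ((b.1 * a.2 + a.1 * y + b.2 * x : ℕ) : ℝ) := by exact_mod_cast h1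
      rw [Nat.sub_eq_zero_of_le h1]
      push_cast at h2 ⊢
      rw [max_eq_left]
      nlinarith
  rw [h, cr_ctr]
  rcases le_total 0 (((b.1 : ℝ) - a.1) * ((y : ℝ) - a.2) - ((b.2 : ℝ) - a.2) * ((x : ℝ) - a.1))
    with h1 | h1
  · rw [max_eq_right h1, max_eq_right (div_nonneg h1 h4.le)]
  · rw [max_eq_left h1, max_eq_left (div_nonpos_of_nonpos_of_nonneg h1 h4.le), zero_div]

/-- the edges of the polygonal line `a, l₀, ..., f` -/
def edl (f : ℕ × ℕ) : ℕ × ℕ → List (ℕ × ℕ) → List ((ℕ × ℕ) × (ℕ × ℕ))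
  | a, [] => [(a, f)]
  | a, b :: l => (a, b) :: edl f b l

theorem fan_eq (x y : ℕ) (f a : ℕ × ℕ) (l : List (ℕ × ℕ)) :
    fan x y f.1 f.2 a.1 a.2 l =
      ((edl f a l).map (fun e => cp e.1.1 e.1.2 e.2.1 e.2.2 x y)).sum := by
  induction l generalizing a with
  | nil => simp [fan, edl]
  | cons b l ih =>
    obtain ⟨bx, b_y⟩ := b
    have h1 : fan x y f.1 f.2 a.1 a.2 ((bx, b_y) :: l) =
      cp a.1 a.2 bx b_y x y + fan x y f.1 f.2 bx b_y l := rfl
    rw [h1, edl, List.map_cons, List.sum_cons]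
    have := ih (bx, b_y)
    simp only at this
    rw [this]

theorem mem_iff (x y : ℕ) (l : List (ℕ × ℕ)) : mem x y l = true ↔ (x, y) ∈ l := by
  induction l with
  | nil => simp [mem]
  | cons b l ih =>
    obtain ⟨bx, b_y⟩ := b
    rw [List.mem_cons]
    unfold mem
    cases h1 : Nat.beq bx x with
    | false =>
      simp only
      rw [ih]
      have := Nat.ne_of_beq_eq_false h1
      constructor
      · exact Or.inr
      · rintro (h | h)
        · exact absurd (congrArg Prod.fst h).symm this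
        · exact h
    | true =>
      have e1 := Nat.eq_of_beq_eq_true h1
      cases h2 : Nat.beq b_y y with
      | false =>
        simp only
        rw [ih]
        have := Nat.ne_of_beq_eq_false h2
        constructor
        · exact Or.inr
        · rintro (h | h)
          · exact absurd (congrArg Prod.snd h).symm this
          · exact h
      | true =>
        have e2 := Nat.eq_of_beq_eq_true h2
        simp [e1, e2]

theorem leftOf_sound {a b : ℕ × ℕ} {h : List (ℕ × ℕ)} (hl : leftOf a.1 a.2 b.1 b.2 h = true) :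
    ∀ v ∈ h, v = a ∨ v = b ∨ 0 < cp a.1 a.2 b.1 b.2 v.1 v.2 := by
  induction h with
  | nil => simp
  | cons v l ih =>
    obtain ⟨x, y⟩ := v
    unfold leftOf at hl
    intro w hw
    cases h1 : Nat.beq (cp a.1 a.2 b.1 b.2 x y) 0 with
    | false =>
      rw [h1] at hl
      simp only at hl
      rcases List.mem_cons.1 hw with rfl | hw
      · exact Or.inr (Or.inr (Nat.pos_of_ne_zero (Nat.ne_of_beq_eq_false h1)))
      · exact ih hl w hw
    | true =>
      rw [h1] at hl
      simp only at hl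
      cases h2 : mem x y [(a.1, a.2), (b.1, b.2)] with
      | false =>
        rw [h2] at hl
        simp at hl
      | true =>
        rw [h2] at hl
        simp only at hl
        rcases List.mem_cons.1 hw with rfl | hw
        · rw [mem_iff] at h2
          simp only [Prod.mk.eta, List.mem_cons, List.not_mem_nil, or_false] at h2
          rcases h2 with h2 | h2
          · exact Or.inl h2
          · exact Or.inr (Or.inl h2)
        · exact ih hl w hw

theorem leftAll_sound {h : List (ℕ × ℕ)} {f a : ℕ × ℕ} {l : List (ℕ × ℕ)}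
    (hl : leftAll h f.1 f.2 a.1 a.2 l = true) :
    ∀ e ∈ edl f a l, ∀ v ∈ h, v = e.1 ∨ v = e.2 ∨ 0 < cp e.1.1 e.1.2 e.2.1 e.2.2 v.1 v.2 := by
  induction l generalizing a with
  | nil =>
    intro e he
    rw [edl, List.mem_singleton] at he
    subst he
    exact leftOf_sound hl
  | cons b l ih =>
    obtain ⟨bx, b_y⟩ := b
    unfold leftAll at hl
    cases h1 : leftOf a.1 a.2 bx b_y h with
    | false =>
      rw [h1] at hl
      simp at hl
    | true =>
      rw [h1] at hl
      simp only at hl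
      intro e he
      rw [edl, List.mem_cons] at he
      rcases he with rfl | he
      · exact leftOf_sound (b := (bx, b_y)) h1
      · exact ih (a := (bx, b_y)) hl e he

theorem nodup_sound {l : List (ℕ × ℕ)} (h : nodup l = true) : l.Nodup := by
  induction l with
  | nil => exact List.nodup_nil
  | cons a l ih =>
    obtain ⟨x, y⟩ := a
    unfold nodup at h
    cases h1 : mem x y l with
    | true =>
      rw [h1] at h
      simp at h
    | false =>
      rw [h1] at h
      simp only at h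
      refine List.nodup_cons.2 ⟨fun h2 => ?_, ih h⟩
      rw [← mem_iff, h1] at h2
      exact Bool.noConfusion h2

theorem edl_mem {f a : ℕ × ℕ} {l : List (ℕ × ℕ)} {e : (ℕ × ℕ) × (ℕ × ℕ)} (he : e ∈ edl f a l) :
    e.1 ∈ a :: l ∧ (e.2 ∈ l ∨ e.2 = f) := by
  induction l generalizing a with
  | nil =>
    rw [edl, List.mem_singleton] at he
    subst he
    simp
  | cons b l ih =>
    rw [edl, List.mem_cons] at he
    rcases he with rfl | he
    · simp
    · obtain ⟨h1, h2⟩ := ih he
      refine ⟨List.mem_cons_of_mem _ h1, ?_⟩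
      rcases h2 with h2 | h2
      · exact Or.inl (List.mem_cons_of_mem _ h2)
      · exact Or.inr h2

/-- the relation between two different edges of a closed polygon -/
def NC (e e' : (ℕ × ℕ) × (ℕ × ℕ)) : Prop :=
  e'.1 ≠ e.1 ∧ e'.2 ≠ e.2 ∧ ¬ (e'.1 = e.2 ∧ e'.2 = e.1)

theorem edl_pairwise {f b : ℕ × ℕ} {l : List (ℕ × ℕ)} (hn : (b :: l).Nodup) (hf : f ∉ b :: l) :
    (edl f b l).Pairwise NC := by
  induction l generalizing b with
  | nil => simp [edl]
  | cons c l ih =>
    rw [edl, List.pairwise_cons]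
    obtain ⟨h1, h2⟩ := List.nodup_cons.1 hn
    obtain ⟨h3, h4⟩ := List.nodup_cons.1 h2
    have hfc : f ∉ c :: l := fun h => hf (List.mem_cons_of_mem _ h)
    refine ⟨fun e he => ?_, ih h2 hfc⟩
    obtain ⟨h5, h6⟩ := edl_mem he
    refine ⟨fun h => h1 (by have h' : e.1 = b := h; rw [← h']; exact h5), fun h => ?_,
      fun h => ?_⟩
    · simp only at h
      rcases h6 with h6 | h6
      · exact h3 (h ▸ h6)
      · exact hfc (by rw [← h6, h]; exact List.mem_cons_self)
    · have h := h.2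
      simp only at h
      rcases h6 with h6 | h6
      · exact h1 (by rw [← h]; exact List.mem_cons_of_mem _ h6)
      · exact hf (by rw [← h6, h]; exact List.mem_cons_self)

theorem edl_closed {a b c : ℕ × ℕ} {l : List (ℕ × ℕ)} (hn : (a :: b :: c :: l).Nodup) :
    (edl a a (b :: c :: l)).Pairwise NC := by
  obtain ⟨h1, h2⟩ := List.nodup_cons.1 hn
  obtain ⟨h3, h4⟩ := List.nodup_cons.1 h2
  rw [edl, List.pairwise_cons]
  refine ⟨fun e he => ?_, edl_pairwise h2 h1⟩
  obtain ⟨h5, h6⟩ := edl_mem he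
  refine ⟨fun h => h1 (by have h' : e.1 = a := h; rw [← h']; exact h5), fun h => ?_,
    fun h => ?_⟩
  · simp only at h
    rcases h6 with h6 | h6
    · exact h3 (h ▸ h6)
    · exact h1 (by rw [← h6, h]; exact List.mem_cons_self)
  · obtain ⟨h7, h8⟩ := h
    simp only at h7 h8
    rw [edl, List.mem_cons] at he
    rcases he with he | he
    · rw [he] at h8
      simp only at h8
      exact h1 (by rw [← h8]; exact List.mem_cons_of_mem _ List.mem_cons_self)
    · exact h3 (by rw [← h7]; exact (edl_mem he).1)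

theorem cr_self_left (a b : ℝ × ℝ) : cr a b a = 0 := by
  unfold cr
  ring

theorem cr_self_right (a b : ℝ × ℝ) : cr a b b = 0 := by
  unfold cr
  ring

theorem sep_of {T : ℕ} {e e' : (ℕ × ℕ) × (ℕ × ℕ)}
    (h1 : e'.1 = e.1 ∨ e'.1 = e.2 ∨ 0 < cp e.1.1 e.1.2 e.2.1 e.2.2 e'.1.1 e'.1.2)
    (h2 : e'.2 = e.1 ∨ e'.2 = e.2 ∨ 0 < cp e.1.1 e.1.2 e.2.1 e.2.2 e'.2.1 e'.2.2)
    (n1 : e'.1 ≠ e.1) (n2 : e'.2 ≠ e.2) (n3 : ¬ (e'.1 = e.2 ∧ e'.2 = e.1)) :
    Sep (ctr T e.1, ctr T e.2) (ctr T e'.1, ctr T e'.2) := by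
  have key : ∀ v : ℕ × ℕ, 0 < cp e.1.1 e.1.2 e.2.1 e.2.2 v.1 v.2 →
      0 < cr (ctr T e.1) (ctr T e.2) (ctr T v) := by
    intro v hv
    have h3 := cp_eq T e.1 e.2 v.1 v.2
    have h4 : (0 : ℝ) < (cp e.1.1 e.1.2 e.2.1 e.2.2 v.1 v.2 : ℝ) / 4 ^ T := by
      have : (0 : ℝ) < (cp e.1.1 e.1.2 e.2.1 e.2.2 v.1 v.2 : ℝ) := by exact_mod_cast hv
      positivity
    rw [h3] at h4
    rcases lt_max_iff.1 h4 with h5 | h5
    · exact absurd h5 (lt_irrefl _)
    · exact h5
  have hA : e'.1 = e.2 ∨ 0 < cr (ctr T e.1) (ctr T e.2) (ctr T e'.1) := by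
    rcases h1 with h | h | h
    · exact absurd h n1
    · exact Or.inl h
    · exact Or.inr (key _ h)
  have hB : e'.2 = e.1 ∨ 0 < cr (ctr T e.1) (ctr T e.2) (ctr T e'.2) := by
    rcases h2 with h | h | h
    · exact Or.inl h
    · exact absurd h n2
    · exact Or.inr (key _ h)
  refine ⟨?_, ?_, ?_⟩
  · rcases hA with h | h
    · rw [h]
      exact (cr_self_right _ _).ge
    · exact h.le
  · rcases hB with h | h
    · rw [h]
      exact (cr_self_left _ _).ge
    · exact h.le
  · rcases hA with h | h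
    · rcases hB with h' | h'
      · exact absurd ⟨h, h'⟩ n3
      · exact Or.inr h'
    · exact Or.inl h

theorem fan_sound {K : Set (ℝ × ℝ)} (hc : Convex ℝ K) (hK : IsCompact K) (T : ℕ)
    (h : List (ℕ × ℕ)) (x y : ℕ) (hh : ∀ z ∈ h, ctr T z ∈ K) (hw : ctr T (x, y) ∈ K)
    (hok : hullOK h = true) : (fanSum x y h : ℝ) / 4 ^ T / 2 ≤ (volume K).toReal := by
  have h4 : (0 : ℝ) < 4 ^ T := by positivity
  match h, hh, hok with
  | [], _, _ => simp [fanSum, ENNReal.toReal_nonneg]
  | [a], _, _ =>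
    have h1 : fanSum x y [a] = cp a.1 a.2 a.1 a.2 x y := rfl
    have h2 := cp_eq T a a x y
    have h3 : cr (ctr T a) (ctr T a) (ctr T (x, y)) = 0 := by
      unfold cr
      ring
    rw [h1, h2, h3]
    simp [ENNReal.toReal_nonneg]
  | [a, b], hh, _ =>
    have h1 : fanSum x y [a, b] = cp a.1 a.2 b.1 b.2 x y + cp b.1 b.2 a.1 a.2 x y := rfl
    have h2 : ((fanSum x y [a, b] : ℕ) : ℝ) / 4 ^ T =
      max 0 (cr (ctr T a) (ctr T b) (ctr T (x, y))) +
        max 0 (cr (ctr T b) (ctr T a) (ctr T (x, y))) := by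
      rw [h1, Nat.cast_add, add_div, cp_eq, cp_eq]
    have h3 : cr (ctr T b) (ctr T a) (ctr T (x, y)) = - cr (ctr T a) (ctr T b) (ctr T (x, y)) := by
      unfold cr
      ring
    have ha := hh a (by simp)
    have hb := hh b (by simp)
    rw [h2]
    rcases le_total 0 (cr (ctr T a) (ctr T b) (ctr T (x, y))) with h5 | h5
    · have h6 := fan_area hc hK [(ctr T a, ctr T b)] (by simp [ha, hb]) (ctr T (x, y)) hw
        (by simp)
      simp only [List.map_cons, List.map_nil, List.sum_cons, List.sum_nil, add_zero] at h6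
      rw [h3, max_eq_left (by linarith : - cr (ctr T a) (ctr T b) (ctr T (x, y)) ≤ 0), add_zero]
      exact h6
    · have h6 := fan_area hc hK [(ctr T b, ctr T a)] (by simp [ha, hb]) (ctr T (x, y)) hw
        (by simp)
      simp only [List.map_cons, List.map_nil, List.sum_cons, List.sum_nil, add_zero] at h6
      rw [max_eq_left h5, zero_add]
      exact h6
  | a :: b :: c :: l, hh, hok =>
    have hok' : (match nodup (a :: b :: c :: l) with
      | true => leftAll (a :: b :: c :: l) a.1 a.2 a.1 a.2 (b :: c :: l)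
      | false => false) = true := hok
    cases hnd : nodup (a :: b :: c :: l) with
    | false =>
      rw [hnd] at hok'
      simp at hok'
    | true =>
      rw [hnd] at hok'
      simp only at hok'
      have hN := nodup_sound hnd
      have hL := leftAll_sound hok'
      have hP := edl_closed hN
      have hmem : ∀ e ∈ edl a a (b :: c :: l), e.1 ∈ a :: b :: c :: l ∧
          e.2 ∈ a :: b :: c :: l := by
        intro e he
        obtain ⟨h1, h2⟩ := edl_mem he
        refine ⟨h1, ?_⟩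
        rcases h2 with h2 | h2
        · exact List.mem_cons_of_mem _ h2
        · rw [h2]
          exact List.mem_cons_self
      have h6 := fan_area hc hK
        ((edl a a (b :: c :: l)).map (fun e => (ctr T e.1, ctr T e.2))) (by
          intro e he
          obtain ⟨e', he', rfl⟩ := List.mem_map.1 he
          exact ⟨hh _ (hmem e' he').1, hh _ (hmem e' he').2⟩) (ctr T (x, y)) hw (by
          rw [List.pairwise_map]
          refine List.Pairwise.imp_of_mem ?_ hP
          intro e e' he he' hne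
          obtain ⟨n1, n2, n3⟩ := hne
          refine ⟨sep_of (hL e he _ (hmem e' he').1) (hL e he _ (hmem e' he').2) n1 n2 n3,
            sep_of (hL e' he' _ (hmem e he).1) (hL e' he' _ (hmem e he).2) n1.symm n2.symm ?_⟩
          rintro ⟨m1, m2⟩
          exact n3 ⟨m2.symm, m1.symm⟩)
      have h7 : fanSum x y (a :: b :: c :: l) =
        ((edl a a (b :: c :: l)).map (fun e => cp e.1.1 e.1.2 e.2.1 e.2.2 x y)).sum :=
        fan_eq x y a a (b :: c :: l)
      have h8 : ((fanSum x y (a :: b :: c :: l) : ℕ) : ℝ) / 4 ^ T =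
          (((edl a a (b :: c :: l)).map (fun e => (ctr T e.1, ctr T e.2))).map
            (fun e => max 0 (cr e.1 e.2 (ctr T (x, y))))).sum := by
        rw [h7]
        generalize edl a a (b :: c :: l) = E
        induction E with
        | nil => simp
        | cons e E ih =>
          simp only [List.map_cons, List.sum_cons, Nat.cast_add, add_div]
          rw [ih, cp_eq]
      rw [h8]
      exact h6

end BakerTrap
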