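import Pool.Agent.MP_1b0c96_an.L2
import Pool.Agent.MP_1b0c96_an.L3
import Pool.Agent.MP_1b0c96_an.A3

/-!
# Soundness of the branch and bound certificate
-/

set_option autoImplicit false

open MeasureTheory

namespace BakerTrap

/-- level of a node -/
def lv (q : ℕ) : ℕ := Nat.mod q 64

/-- boxes of a node -/
def hl (q : ℕ) : List (ℕ × ℕ) :=
  decPts (Nat.pow 2 (Nat.mod q 64)) (Nat.mod (Nat.div q 32768) 32) (Nat.div q 134217728)

theorem subset_sound {l m : List (ℕ × ℕ)} (h : subset l m = true) : ∀ z ∈ l, z ∈ m := by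
  induction l with
  | nil => simp
  | cons a l ih =>
    obtain ⟨x, y⟩ := a
    unfold subset at h
    cases h1 : mem x y m with
    | false =>
      rw [h1] at h
      simp at h
    | true =>
      rw [h1] at h
      simp only at h
      intro z hz
      rcases List.mem_cons.1 hz with rfl | hz
      · exact (mem_iff _ _ _).1 h1
      · exact ih h z hz

theorem coars_mem {D : ℕ} {l : List (ℕ × ℕ)} {z : ℕ × ℕ} (h : z ∈ coars D l) :
    ∃ w ∈ l, z = (w.1 / D, w.2 / D) := by
  induction l with
  | nil => simp [coars] at h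
  | cons a l ih =>
    obtain ⟨x, y⟩ := a
    unfold coars at h
    rcases List.mem_cons.1 h with h | h
    · exact ⟨(x, y), List.mem_cons_self, h⟩
    · obtain ⟨w, hw, h2⟩ := ih h
      exact ⟨w, List.mem_cons_of_mem _ hw, h2⟩

theorem ptrOK_sound {H : Set (ℝ × ℝ)} {T : ℕ} {h : List (ℕ × ℕ)} {q : ℕ}
    (hok : ptrOK T h q = true) (hm : ∀ z ∈ h, Meets H T z.1 z.2) :
    ∀ z ∈ hl q, Meets H (lv q) z.1 z.2 := by
  unfold ptrOK at hok
  cases h1 : Nat.ble (Nat.mod q 64) T with
  | false =>
    rw [h1] at hok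
    simp at hok
  | true =>
    rw [h1] at hok
    simp only at hok
    have hle : lv q ≤ T := Nat.le_of_ble_eq_true h1
    intro z hz
    have h2 := subset_sound hok z hz
    obtain ⟨w, hw, rfl⟩ := coars_mem h2
    exact (hm w hw).coarsen hle

theorem kids_sound (get : ℕ → ℕ) (i T th P N R : ℕ) (h : List (ℕ × ℕ)) :
    ∀ (k e f : ℕ) (ps : List ℕ), kids get i T th P N R h k e f ps = true →
      ∀ j < k, (th ≤ fanSum (N / 2 ^ (e + j) % P) (R / 2 ^ (f - j) % P) h) ∨
        (∃ p < i, ptrOK T ((N / 2 ^ (e + j) % P, R / 2 ^ (f - j) % P) :: h) (get p) = true) := by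
  intro k
  induction k with
  | zero =>
    intro e f ps _ j hj
    exact absurd hj (by omega)
  | succ k ih =>
    intro e f ps hk j hj
    unfold kids at hk
    cases h1 : Nat.ble th (fanSum (Nat.mod (Nat.div N (Nat.pow 2 e)) P)
        (Nat.mod (Nat.div R (Nat.pow 2 f)) P) h) with
    | true =>
      rw [h1] at hk
      simp only at hk
      rcases Nat.eq_zero_or_pos j with rfl | hj0
      · exact Or.inl (Nat.le_of_ble_eq_true h1)
      · have h2 := ih (e + 1) (f - 1) ps hk (j - 1) (by omega)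
        rw [show e + 1 + (j - 1) = e + j by omega, show f - 1 - (j - 1) = f - j by omega] at h2
        exact h2
    | false =>
      rw [h1] at hk
      simp only at hk
      match ps, hk with
      | [], hk => simp at hk
      | p :: ps', hk =>
        simp only at hk
        cases h3 : Nat.ble i p with
        | true =>
          rw [h3] at hk
          simp at hk
        | false =>
          rw [h3] at hk
          simp only at hk
          have hpi : p < i := by
            by_contra hcon
            rw [Nat.ble_eq_true_of_le (by omega : i ≤ p)] at h3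
            exact Bool.noConfusion h3
          cases h4 : ptrOK T ((Nat.mod (Nat.div N (Nat.pow 2 e)) P,
              Nat.mod (Nat.div R (Nat.pow 2 f)) P) :: h) (get p) with
          | false =>
            rw [h4] at hk
            simp at hk
          | true =>
            rw [h4] at hk
            simp only at hk
            rcases Nat.eq_zero_or_pos j with rfl | hj0
            · exact Or.inr ⟨p, hpi, h4⟩
            · have h2 := ih (e + 1) (f - 1) ps' hk (j - 1) (by omega)
              rw [show e + 1 + (j - 1) = e + j by omega,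
                show f - 1 - (j - 1) = f - j by omega] at h2
              exact h2

theorem nodeOK_sound {num : ℕ} {get : ℕ → ℕ} {con : ℕ → Con} {i q : ℕ}
    (h : nodeOK num get con i q = true) :
    2 * lv q + (con (q / 64 % 512)).n ≤ (con (q / 64 % 512)).off ∧ 0 < lv q ∧
    hullOK (hl q) = true ∧
    ∃ ps, kids get i (lv q) (thr num (lv q)) (2 ^ lv q) (con (q / 64 % 512)).N
      (con (q / 64 % 512)).R (hl q)
      ((con (q / 64 % 512)).L + 2 * lv q + (con (q / 64 % 512)).n - 1)
      ((con (q / 64 % 512)).off + 1 - 2 * lv q) ((con (q / 64 % 512)).off +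
        (con (q / 64 % 512)).L - 1) ps = true := by
  unfold nodeOK at h
  simp only at h
  have e0 : con (Nat.mod (Nat.div q 64) 512) = con (q / 64 % 512) := rfl
  rw [e0] at h
  generalize con (q / 64 % 512) = c at h ⊢
  obtain ⟨n, L, off, N, R⟩ := c
  simp only at h ⊢
  cases h1 : Nat.ble (Nat.add (Nat.mul 2 (Nat.mod q 64)) n) off with
  | false =>
    rw [h1] at h
    simp at h
  | true =>
    rw [h1] at h
    simp only at h
    cases h2 : Nat.beq (Nat.mod q 64) 0 with
    | true =>
      rw [h2] at h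
      simp at h
    | false =>
      rw [h2] at h
      simp only at h
      cases h3 : hullOK (hl q) with
      | false =>
        have h4 : hullOK (decPts (Nat.pow 2 (Nat.mod q 64)) (Nat.mod (Nat.div q 32768) 32)
          (Nat.div q 134217728)) = false := h3
        rw [h4] at h
        simp at h
      | true =>
        have h4 : hullOK (decPts (Nat.pow 2 (Nat.mod q 64)) (Nat.mod (Nat.div q 32768) 32)
          (Nat.div q 134217728)) = true := h3
        rw [h4] at h
        simp only at h
        exact ⟨Nat.le_of_ble_eq_true h1, Nat.pos_of_ne_zero (Nat.ne_of_beq_eq_false h2), rfl,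
          _, h⟩

theorem thr_le {num T S : ℕ} (h : thr num T ≤ S) :
    (num : ℝ) / 10 ^ 12 ≤ (S : ℝ) / 4 ^ T / 2 - 4 * (1 / 2 ^ (T + 1)) - 4 * (1 / 2 ^ (T + 1)) ^ 2 := by
  have h1 : (2 * num * 4 ^ T + 999999999999) / 1000000000000 + (4 * 2 ^ T + 2) ≤ S := h
  have h2 : 2 * num * 4 ^ T ≤ 1000000000000 * ((2 * num * 4 ^ T + 999999999999) / 1000000000000) := by
    omega
  have h3 : 2 * num * 4 ^ T + 1000000000000 * (4 * 2 ^ T + 2) ≤ 1000000000000 * S := by
    calc 2 * num * 4 ^ T + 1000000000000 * (4 * 2 ^ T + 2) ≤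
        1000000000000 * ((2 * num * 4 ^ T + 999999999999) / 1000000000000) +
          1000000000000 * (4 * 2 ^ T + 2) := by omega
      _ = 1000000000000 * ((2 * num * 4 ^ T + 999999999999) / 1000000000000 + (4 * 2 ^ T + 2)) := by ring
      _ ≤ 1000000000000 * S := Nat.mul_le_mul_left _ h1
  have h4 : (2 * num * 4 ^ T + 1000000000000 * (4 * 2 ^ T + 2) : ℝ) ≤ 1000000000000 * S := by
    exact_mod_cast h3
  have h5 : (0 : ℝ) < 2 ^ T := by positivity
  have h6 : (4 : ℝ) ^ T = 2 ^ T * 2 ^ T := by
    rw [← mul_pow]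
    norm_num
  rw [h6] at h4 ⊢
  rw [pow_succ (2 : ℝ) T]
  set p : ℝ := 2 ^ T
  have h7 : (S : ℝ) / (p * p) / 2 - 4 * (1 / (p * 2)) - 4 * (1 / (p * 2)) ^ 2 =
    (S - 4 * p - 2) / (2 * p * p) := by
    field_simp
    ring
  rw [h7, le_div_iff₀ (by positivity)]
  have h8 : (num : ℝ) / 10 ^ 12 * (2 * p * p) = 2 * num * (p * p) / 1000000000000 := by
    norm_num
    ring
  rw [h8, div_le_iff₀ (by norm_num)]
  linarith

theorem ctr_near {T : ℕ} {K : Set (ℝ × ℝ)} {x y : ℕ} {q : ℝ × ℝ}
    (h : (x : ℝ) / 2 ^ T ≤ q.1 ∧ q.1 ≤ (x + 1) / 2 ^ T ∧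
      (y : ℝ) / 2 ^ T ≤ q.2 ∧ q.2 ≤ (y + 1) / 2 ^ T) (hq : q ∈ K) {K' : Set (ℝ × ℝ)}
    (hK' : ∀ z ∈ K, ∀ y : ℝ × ℝ, |y.1 - z.1| ≤ 1 / 2 ^ (T + 1) →
      |y.2 - z.2| ≤ 1 / 2 ^ (T + 1) → y ∈ K') : ctr T (x, y) ∈ K' := by
  obtain ⟨h1, h2, h3, h4⟩ := h
  have hp : (0 : ℝ) < 2 ^ T := by positivity
  have e1 : ∀ x : ℕ, (x : ℝ) / 2 ^ T = (2 * x) / 2 ^ (T + 1) := by
    intro x
    rw [pow_succ]
    field_simp
  have e2 : ∀ x : ℕ, ((x : ℝ) + 1) / 2 ^ T = (2 * x + 2) / 2 ^ (T + 1) := by
    intro x
    rw [pow_succ]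
    field_simp
  rw [e1] at h1 h3
  rw [e2] at h2 h4
  have e3 : ∀ x : ℕ, (2 * (x : ℝ) + 1) / 2 ^ (T + 1) =
      2 * x / 2 ^ (T + 1) + 1 / 2 ^ (T + 1) := by
    intro x
    ring
  have e4 : ∀ x : ℕ, (2 * (x : ℝ) + 2) / 2 ^ (T + 1) =
      2 * x / 2 ^ (T + 1) + 2 * (1 / 2 ^ (T + 1)) := by
    intro x
    ring
  rw [e4] at h2 h4
  refine hK' q hq _ ?_ ?_
  · rw [ctr, abs_le, e3]
    constructor <;> linarith
  · rw [ctr, abs_le]
    simp only
    rw [e3]
    constructor <;> linarith

/-- soundness of the certificate -/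
theorem cert_sound {num : ℕ} {get : ℕ → ℕ} {con : ℕ → Con} {n : ℕ}
    (hcon : ∀ k, conOK (con k) = true ∨ (con k).off = 0)
    (hchk : ∀ i < n, nodeOK num get con i (get i) = true) {H : Set (ℝ × ℝ)} (hH : ConvexTrap H) :
    ∀ i < n, (∀ z ∈ hl (get i), Meets H (lv (get i)) z.1 z.2) →
      (num : ℝ) / 10 ^ 12 ≤ (volume H).toReal := by
  intro i
  induction i using Nat.strong_induction_on with
  | _ i ih =>
    intro hi hm
    obtain ⟨h1, h2, h3, ps, h4⟩ := nodeOK_sound (hchk i hi)
    have hc := (hcon (get i / 64 % 512)).resolve_right (by omega)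
    obtain ⟨j, hj, hjm⟩ := con_meets hH.trap hc h2 h1
    rcases kids_sound _ _ _ _ _ _ _ _ _ _ _ _ h4 j hj with h5 | ⟨p, hp, h5⟩
    · -- area
      have hKc : IsCompact (closure H) := by
        have hX : IsCompact X := isCompact_Icc.prod isCompact_Icc
        exact hX.of_isClosed_subset isClosed_closure
          (closure_minimal hH.sub hX.isClosed)
      have hKX : closure H ⊆ X :=
        closure_minimal hH.sub (isCompact_Icc.prod isCompact_Icc).isClosed
      obtain ⟨K', k1, k2, k3, k4⟩ := thicken hKc hH.conv.closure hKX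
        (ε := 1 / 2 ^ (lv (get i) + 1)) (by positivity)
      have h6 : ∀ z : ℕ × ℕ, Meets H (lv (get i)) z.1 z.2 → ctr (lv (get i)) z ∈ K' := by
        rintro ⟨x, y⟩ ⟨q, hq, hq'⟩
        exact ctr_near hq' (subset_closure hq) k3
      have h7 := fan_sound k2 k1 (lv (get i)) (hl (get i)) _ _ (fun z hz => h6 z (hm z hz))
        (h6 _ hjm) h3
      have h8 := thr_le h5
      rw [volume_closure_eq hH.conv] at k4
      linarith
    · refine ih p hp (by omega) (ptrOK_sound h5 ?_)
      intro z hz
      rcases List.mem_cons.1 hz with rfl | hz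
      · exact hjm
      · exact hm z hz

/-- validity of all constraints of a tree -/
def CT.all : CT → Bool
  | .nil => true
  | .node l v r => conOK v && (l.all && r.all)

theorem CT.all_sound {t : CT} (h : t.all = true) :
    ∀ k, conOK (t.get k) = true ∨ (t.get k).off = 0 := by
  induction t with
  | nil =>
    intro k
    exact Or.inr rfl
  | node l v r ihl ihr =>
    intro k
    simp only [CT.all, Bool.and_eq_true] at h
    unfold CT.get
    cases h1 : Nat.beq k 0 with
    | true => exact Or.inl h.1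
    | false =>
      cases h2 : Nat.beq (Nat.mod k 2) 1 with
      | true => exact ihl h.2.1 _
      | false => exact ihr h.2.2 _

end BakerTrap
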