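import Pool.Agent.MP_1b0c96_an.LD

/-!
# Kernel check of the branch and bound certificate (lower bound), part 2
-/

set_option autoImplicit false
set_option maxRecDepth 100000

namespace BakerTrap

theorem lcheck_17 : range 118863219210 ltree.get ctree.get 50 850 = true := by
  decide +kernel

theorem lcheck_18 : range 118863219210 ltree.get ctree.get 50 900 = true := by
  decide +kernel

theorem lcheck_19 : range 118863219210 ltree.get ctree.get 50 950 = true := by
  decide +kernel

theorem lcheck_20 : range 118863219210 ltree.get ctree.get 50 1000 = true := by
  decide +kernel

theorem lcheck_21 : range 118863219210 ltree.get ctree.get 50 1050 = true := by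
  decide +kernel

theorem lcheck_22 : range 118863219210 ltree.get ctree.get 50 1100 = true := by
  decide +kernel

theorem lcheck_23 : range 118863219210 ltree.get ctree.get 50 1150 = true := by
  decide +kernel

theorem lcheck_24 : range 118863219210 ltree.get ctree.get 50 1200 = true := by
  decide +kernel

theorem lcheck_25 : range 118863219210 ltree.get ctree.get 50 1250 = true := by
  decide +kernel

theorem lcheck_26 : range 118863219210 ltree.get ctree.get 50 1300 = true := by
  decide +kernel

theorem lcheck_27 : range 118863219210 ltree.get ctree.get 50 1350 = true := by
  decide +kernel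

theorem lcheck_28 : range 118863219210 ltree.get ctree.get 50 1400 = true := by
  decide +kernel

theorem lcheck_29 : range 118863219210 ltree.get ctree.get 50 1450 = true := by
  decide +kernel

theorem lcheck_30 : range 118863219210 ltree.get ctree.get 50 1500 = true := by
  decide +kernel

theorem lcheck_31 : range 118863219210 ltree.get ctree.get 50 1550 = true := by
  decide +kernel

theorem lcheck_32 : range 118863219210 ltree.get ctree.get 50 1600 = true := by
  decide +kernel

theorem lcheck_33 : range 118863219210 ltree.get ctree.get 50 1650 = true := by
  decide +kernel

theorem lcheck_34 : range 118863219210 ltree.get ctree.get 50 1700 = true := by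
  decide +kernel

theorem lpart_2 : ∀ j, 850 ≤ j → j < 1750 →
    nodeOK 118863219210 ltree.get ctree.get j (ltree.get j) = true :=
  all_trans (b := 900) (range_sound 50 850 lcheck_17) <|
  all_trans (b := 950) (range_sound 50 900 lcheck_18) <|
  all_trans (b := 1000) (range_sound 50 950 lcheck_19) <|
  all_trans (b := 1050) (range_sound 50 1000 lcheck_20) <|
  all_trans (b := 1100) (range_sound 50 1050 lcheck_21) <|
  all_trans (b := 1150) (range_sound 50 1100 lcheck_22) <|
  all_trans (b := 1200) (range_sound 50 1150 lcheck_23) <|
  all_trans (b := 1250) (range_sound 50 1200 lcheck_24) <|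
  all_trans (b := 1300) (range_sound 50 1250 lcheck_25) <|
  all_trans (b := 1350) (range_sound 50 1300 lcheck_26) <|
  all_trans (b := 1400) (range_sound 50 1350 lcheck_27) <|
  all_trans (b := 1450) (range_sound 50 1400 lcheck_28) <|
  all_trans (b := 1500) (range_sound 50 1450 lcheck_29) <|
  all_trans (b := 1550) (range_sound 50 1500 lcheck_30) <|
  all_trans (b := 1600) (range_sound 50 1550 lcheck_31) <|
  all_trans (b := 1650) (range_sound 50 1600 lcheck_32) <|
  all_trans (b := 1700) (range_sound 50 1650 lcheck_33) <|
  range_sound 50 1700 lcheck_34

end BakerTrap
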