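import Pool.Agent.MP_1b0c96_an.LD
import Pool.Agent.MP_1b0c96_an.LK2

/-!
# Kernel check of the branch and bound certificate (lower bound), part 6
-/

set_option autoImplicit false
set_option maxRecDepth 100000

namespace BakerTrap

theorem lcheck_88 : range 118863219210 ltree.get ctree.get 50 4400 = true := by
  decide +kernel

theorem lcheck_89 : range 118863219210 ltree.get ctree.get 50 4450 = true := by
  decide +kernel

theorem lcheck_90 : range 118863219210 ltree.get ctree.get 50 4500 = true := by
  decide +kernel

theorem lcheck_91 : range 118863219210 ltree.get ctree.get 50 4550 = true := by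
  decide +kernel

theorem lcheck_92 : range 118863219210 ltree.get ctree.get 50 4600 = true := by
  decide +kernel

theorem lcheck_93 : range 118863219210 ltree.get ctree.get 50 4650 = true := by
  decide +kernel

theorem lcheck_94 : range 118863219210 ltree.get ctree.get 50 4700 = true := by
  decide +kernel

theorem lcheck_95 : range 118863219210 ltree.get ctree.get 50 4750 = true := by
  decide +kernel

theorem lcheck_96 : range 118863219210 ltree.get ctree.get 50 4800 = true := by
  decide +kernel

theorem lcheck_97 : range 118863219210 ltree.get ctree.get 50 4850 = true := by
  decide +kernel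

theorem lcheck_98 : range 118863219210 ltree.get ctree.get 50 4900 = true := by
  decide +kernel

theorem lcheck_99 : range 118863219210 ltree.get ctree.get 50 4950 = true := by
  decide +kernel

theorem lcheck_100 : range 118863219210 ltree.get ctree.get 50 5000 = true := by
  decide +kernel

theorem lcheck_101 : range 118863219210 ltree.get ctree.get 50 5050 = true := by
  decide +kernel

theorem lcheck_102 : range 118863219210 ltree.get ctree.get 50 5100 = true := by
  decide +kernel

theorem lcheck_103 : range 118863219210 ltree.get ctree.get 50 5150 = true := by
  decide +kernel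

theorem lcheck_104 : range 118863219210 ltree.get ctree.get 50 5200 = true := by
  decide +kernel

theorem lcheck_105 : range 118863219210 ltree.get ctree.get 50 5250 = true := by
  decide +kernel

theorem lpart_6 : ∀ j, 4400 ≤ j → j < 5300 →
    nodeOK 118863219210 ltree.get ctree.get j (ltree.get j) = true :=
  all_trans (b := 4450) (range_sound 50 4400 lcheck_88) <|
  all_trans (b := 4500) (range_sound 50 4450 lcheck_89) <|
  all_trans (b := 4550) (range_sound 50 4500 lcheck_90) <|
  all_trans (b := 4600) (range_sound 50 4550 lcheck_91) <|
  all_trans (b := 4650) (range_sound 50 4600 lcheck_92) <|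
  all_trans (b := 4700) (range_sound 50 4650 lcheck_93) <|
  all_trans (b := 4750) (range_sound 50 4700 lcheck_94) <|
  all_trans (b := 4800) (range_sound 50 4750 lcheck_95) <|
  all_trans (b := 4850) (range_sound 50 4800 lcheck_96) <|
  all_trans (b := 4900) (range_sound 50 4850 lcheck_97) <|
  all_trans (b := 4950) (range_sound 50 4900 lcheck_98) <|
  all_trans (b := 5000) (range_sound 50 4950 lcheck_99) <|
  all_trans (b := 5050) (range_sound 50 5000 lcheck_100) <|
  all_trans (b := 5100) (range_sound 50 5050 lcheck_101) <|
  all_trans (b := 5150) (range_sound 50 5100 lcheck_102) <|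
  all_trans (b := 5200) (range_sound 50 5150 lcheck_103) <|
  all_trans (b := 5250) (range_sound 50 5200 lcheck_104) <|
  range_sound 50 5250 lcheck_105

end BakerTrap
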