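import Pool.Agent.MP_1b0c96_an.LD
import Pool.Agent.MP_1b0c96_an.LK6

/-!
# Kernel check of the branch and bound certificate (lower bound), part 10
-/

set_option autoImplicit false
set_option maxRecDepth 100000

namespace BakerTrap

theorem lcheck_159 : range 118863219210 ltree.get ctree.get 50 7950 = true := by
  decide +kernel

theorem lcheck_160 : range 118863219210 ltree.get ctree.get 50 8000 = true := by
  decide +kernel

theorem lcheck_161 : range 118863219210 ltree.get ctree.get 50 8050 = true := by
  decide +kernel

theorem lcheck_162 : range 118863219210 ltree.get ctree.get 50 8100 = true := by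
  decide +kernel

theorem lcheck_163 : range 118863219210 ltree.get ctree.get 50 8150 = true := by
  decide +kernel

theorem lcheck_164 : range 118863219210 ltree.get ctree.get 50 8200 = true := by
  decide +kernel

theorem lcheck_165 : range 118863219210 ltree.get ctree.get 50 8250 = true := by
  decide +kernel

theorem lcheck_166 : range 118863219210 ltree.get ctree.get 50 8300 = true := by
  decide +kernel

theorem lcheck_167 : range 118863219210 ltree.get ctree.get 50 8350 = true := by
  decide +kernel

theorem lcheck_168 : range 118863219210 ltree.get ctree.get 50 8400 = true := by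
  decide +kernel

theorem lcheck_169 : range 118863219210 ltree.get ctree.get 50 8450 = true := by
  decide +kernel

theorem lcheck_170 : range 118863219210 ltree.get ctree.get 50 8500 = true := by
  decide +kernel

theorem lcheck_171 : range 118863219210 ltree.get ctree.get 50 8550 = true := by
  decide +kernel

theorem lcheck_172 : range 118863219210 ltree.get ctree.get 50 8600 = true := by
  decide +kernel

theorem lcheck_173 : range 118863219210 ltree.get ctree.get 50 8650 = true := by
  decide +kernel

theorem lcheck_174 : range 118863219210 ltree.get ctree.get 50 8700 = true := by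
  decide +kernel

theorem lcheck_175 : range 118863219210 ltree.get ctree.get 50 8750 = true := by
  decide +kernel

theorem lcheck_176 : range 118863219210 ltree.get ctree.get 50 8800 = true := by
  decide +kernel

theorem lpart_10 : ∀ j, 7950 ≤ j → j < 8850 →
    nodeOK 118863219210 ltree.get ctree.get j (ltree.get j) = true :=
  all_trans (b := 8000) (range_sound 50 7950 lcheck_159) <|
  all_trans (b := 8050) (range_sound 50 8000 lcheck_160) <|
  all_trans (b := 8100) (range_sound 50 8050 lcheck_161) <|
  all_trans (b := 8150) (range_sound 50 8100 lcheck_162) <|
  all_trans (b := 8200) (range_sound 50 8150 lcheck_163) <|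
  all_trans (b := 8250) (range_sound 50 8200 lcheck_164) <|
  all_trans (b := 8300) (range_sound 50 8250 lcheck_165) <|
  all_trans (b := 8350) (range_sound 50 8300 lcheck_166) <|
  all_trans (b := 8400) (range_sound 50 8350 lcheck_167) <|
  all_trans (b := 8450) (range_sound 50 8400 lcheck_168) <|
  all_trans (b := 8500) (range_sound 50 8450 lcheck_169) <|
  all_trans (b := 8550) (range_sound 50 8500 lcheck_170) <|
  all_trans (b := 8600) (range_sound 50 8550 lcheck_171) <|
  all_trans (b := 8650) (range_sound 50 8600 lcheck_172) <|
  all_trans (b := 8700) (range_sound 50 8650 lcheck_173) <|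
  all_trans (b := 8750) (range_sound 50 8700 lcheck_174) <|
  all_trans (b := 8800) (range_sound 50 8750 lcheck_175) <|
  range_sound 50 8800 lcheck_176

end BakerTrap
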