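import Pool.Agent.MP_1b0c96_an.LD

/-!
# Kernel check of the branch and bound certificate (lower bound), part 3
-/

set_option autoImplicit false
set_option maxRecDepth 100000

namespace BakerTrap

theorem lcheck_35 : range 118863219210 ltree.get ctree.get 50 1750 = true := by
  decide +kernel

theorem lcheck_36 : range 118863219210 ltree.get ctree.get 50 1800 = true := by
  decide +kernel

theorem lcheck_37 : range 118863219210 ltree.get ctree.get 50 1850 = true := by
  decide +kernel

theorem lcheck_38 : range 118863219210 ltree.get ctree.get 50 1900 = true := by
  decide +kernel

theorem lcheck_39 : range 118863219210 ltree.get ctree.get 50 1950 = true := by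
  decide +kernel

theorem lcheck_40 : range 118863219210 ltree.get ctree.get 50 2000 = true := by
  decide +kernel

theorem lcheck_41 : range 118863219210 ltree.get ctree.get 50 2050 = true := by
  decide +kernel

theorem lcheck_42 : range 118863219210 ltree.get ctree.get 50 2100 = true := by
  decide +kernel

theorem lcheck_43 : range 118863219210 ltree.get ctree.get 50 2150 = true := by
  decide +kernel

theorem lcheck_44 : range 118863219210 ltree.get ctree.get 50 2200 = true := by
  decide +kernel

theorem lcheck_45 : range 118863219210 ltree.get ctree.get 50 2250 = true := by
  decide +kernel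

theorem lcheck_46 : range 118863219210 ltree.get ctree.get 50 2300 = true := by
  decide +kernel

theorem lcheck_47 : range 118863219210 ltree.get ctree.get 50 2350 = true := by
  decide +kernel

theorem lcheck_48 : range 118863219210 ltree.get ctree.get 50 2400 = true := by
  decide +kernel

theorem lcheck_49 : range 118863219210 ltree.get ctree.get 50 2450 = true := by
  decide +kernel

theorem lcheck_50 : range 118863219210 ltree.get ctree.get 50 2500 = true := by
  decide +kernel

theorem lcheck_51 : range 118863219210 ltree.get ctree.get 50 2550 = true := by
  decide +kernel

theorem lcheck_52 : range 118863219210 ltree.get ctree.get 50 2600 = true := by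
  decide +kernel

theorem lpart_3 : ∀ j, 1750 ≤ j → j < 2650 →
    nodeOK 118863219210 ltree.get ctree.get j (ltree.get j) = true :=
  all_trans (b := 1800) (range_sound 50 1750 lcheck_35) <|
  all_trans (b := 1850) (range_sound 50 1800 lcheck_36) <|
  all_trans (b := 1900) (range_sound 50 1850 lcheck_37) <|
  all_trans (b := 1950) (range_sound 50 1900 lcheck_38) <|
  all_trans (b := 2000) (range_sound 50 1950 lcheck_39) <|
  all_trans (b := 2050) (range_sound 50 2000 lcheck_40) <|
  all_trans (b := 2100) (range_sound 50 2050 lcheck_41) <|
  all_trans (b := 2150) (range_sound 50 2100 lcheck_42) <|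
  all_trans (b := 2200) (range_sound 50 2150 lcheck_43) <|
  all_trans (b := 2250) (range_sound 50 2200 lcheck_44) <|
  all_trans (b := 2300) (range_sound 50 2250 lcheck_45) <|
  all_trans (b := 2350) (range_sound 50 2300 lcheck_46) <|
  all_trans (b := 2400) (range_sound 50 2350 lcheck_47) <|
  all_trans (b := 2450) (range_sound 50 2400 lcheck_48) <|
  all_trans (b := 2500) (range_sound 50 2450 lcheck_49) <|
  all_trans (b := 2550) (range_sound 50 2500 lcheck_50) <|
  all_trans (b := 2600) (range_sound 50 2550 lcheck_51) <|
  range_sound 50 2600 lcheck_52

end BakerTrap
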