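import Pool.Agent.MP_1b0c96_an.LD
import Pool.Agent.MP_1b0c96_an.LK3

/-!
# Kernel check of the branch and bound certificate (lower bound), part 7
-/

set_option autoImplicit false
set_option maxRecDepth 100000

namespace BakerTrap

theorem lcheck_106 : range 118863219210 ltree.get ctree.get 50 5300 = true := by
  decide +kernel

theorem lcheck_107 : range 118863219210 ltree.get ctree.get 50 5350 = true := by
  decide +kernel

theorem lcheck_108 : range 118863219210 ltree.get ctree.get 50 5400 = true := by
  decide +kernel

theorem lcheck_109 : range 118863219210 ltree.get ctree.get 50 5450 = true := by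
  decide +kernel

theorem lcheck_110 : range 118863219210 ltree.get ctree.get 50 5500 = true := by
  decide +kernel

theorem lcheck_111 : range 118863219210 ltree.get ctree.get 50 5550 = true := by
  decide +kernel

theorem lcheck_112 : range 118863219210 ltree.get ctree.get 50 5600 = true := by
  decide +kernel

theorem lcheck_113 : range 118863219210 ltree.get ctree.get 50 5650 = true := by
  decide +kernel

theorem lcheck_114 : range 118863219210 ltree.get ctree.get 50 5700 = true := by
  decide +kernel

theorem lcheck_115 : range 118863219210 ltree.get ctree.get 50 5750 = true := by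
  decide +kernel

theorem lcheck_116 : range 118863219210 ltree.get ctree.get 50 5800 = true := by
  decide +kernel

theorem lcheck_117 : range 118863219210 ltree.get ctree.get 50 5850 = true := by
  decide +kernel

theorem lcheck_118 : range 118863219210 ltree.get ctree.get 50 5900 = true := by
  decide +kernel

theorem lcheck_119 : range 118863219210 ltree.get ctree.get 50 5950 = true := by
  decide +kernel

theorem lcheck_120 : range 118863219210 ltree.get ctree.get 50 6000 = true := by
  decide +kernel

theorem lcheck_121 : range 118863219210 ltree.get ctree.get 50 6050 = true := by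
  decide +kernel

theorem lcheck_122 : range 118863219210 ltree.get ctree.get 50 6100 = true := by
  decide +kernel

theorem lcheck_123 : range 118863219210 ltree.get ctree.get 50 6150 = true := by
  decide +kernel

theorem lpart_7 : ∀ j, 5300 ≤ j → j < 6200 →
    nodeOK 118863219210 ltree.get ctree.get j (ltree.get j) = true :=
  all_trans (b := 5350) (range_sound 50 5300 lcheck_106) <|
  all_trans (b := 5400) (range_sound 50 5350 lcheck_107) <|
  all_trans (b := 5450) (range_sound 50 5400 lcheck_108) <|
  all_trans (b := 5500) (range_sound 50 5450 lcheck_109) <|
  all_trans (b := 5550) (range_sound 50 5500 lcheck_110) <|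
  all_trans (b := 5600) (range_sound 50 5550 lcheck_111) <|
  all_trans (b := 5650) (range_sound 50 5600 lcheck_112) <|
  all_trans (b := 5700) (range_sound 50 5650 lcheck_113) <|
  all_trans (b := 5750) (range_sound 50 5700 lcheck_114) <|
  all_trans (b := 5800) (range_sound 50 5750 lcheck_115) <|
  all_trans (b := 5850) (range_sound 50 5800 lcheck_116) <|
  all_trans (b := 5900) (range_sound 50 5850 lcheck_117) <|
  all_trans (b := 5950) (range_sound 50 5900 lcheck_118) <|
  all_trans (b := 6000) (range_sound 50 5950 lcheck_119) <|
  all_trans (b := 6050) (range_sound 50 6000 lcheck_120) <|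
  all_trans (b := 6100) (range_sound 50 6050 lcheck_121) <|
  all_trans (b := 6150) (range_sound 50 6100 lcheck_122) <|
  range_sound 50 6150 lcheck_123

end BakerTrap
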