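import Pool.Agent.MP_1b0c96_an.LD
import Pool.Agent.MP_1b0c96_an.LK7

/-!
# Kernel check of the branch and bound certificate (lower bound), part 11
-/

set_option autoImplicit false
set_option maxRecDepth 100000

namespace BakerTrap

theorem lcheck_177 : range 118863219210 ltree.get ctree.get 50 8850 = true := by
  decide +kernel

theorem lcheck_178 : range 118863219210 ltree.get ctree.get 50 8900 = true := by
  decide +kernel

theorem lcheck_179 : range 118863219210 ltree.get ctree.get 50 8950 = true := by
  decide +kernel

theorem lcheck_180 : range 118863219210 ltree.get ctree.get 50 9000 = true := by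
  decide +kernel

theorem lcheck_181 : range 118863219210 ltree.get ctree.get 50 9050 = true := by
  decide +kernel

theorem lcheck_182 : range 118863219210 ltree.get ctree.get 50 9100 = true := by
  decide +kernel

theorem lcheck_183 : range 118863219210 ltree.get ctree.get 50 9150 = true := by
  decide +kernel

theorem lcheck_184 : range 118863219210 ltree.get ctree.get 50 9200 = true := by
  decide +kernel

theorem lcheck_185 : range 118863219210 ltree.get ctree.get 50 9250 = true := by
  decide +kernel

theorem lcheck_186 : range 118863219210 ltree.get ctree.get 50 9300 = true := by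
  decide +kernel

theorem lcheck_187 : range 118863219210 ltree.get ctree.get 50 9350 = true := by
  decide +kernel

theorem lcheck_188 : range 118863219210 ltree.get ctree.get 50 9400 = true := by
  decide +kernel

theorem lcheck_189 : range 118863219210 ltree.get ctree.get 50 9450 = true := by
  decide +kernel

theorem lcheck_190 : range 118863219210 ltree.get ctree.get 50 9500 = true := by
  decide +kernel

theorem lcheck_191 : range 118863219210 ltree.get ctree.get 50 9550 = true := by
  decide +kernel

theorem lcheck_192 : range 118863219210 ltree.get ctree.get 50 9600 = true := by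
  decide +kernel

theorem lcheck_193 : range 118863219210 ltree.get ctree.get 50 9650 = true := by
  decide +kernel

theorem lcheck_194 : range 118863219210 ltree.get ctree.get 50 9700 = true := by
  decide +kernel

theorem lpart_11 : ∀ j, 8850 ≤ j → j < 9750 →
    nodeOK 118863219210 ltree.get ctree.get j (ltree.get j) = true :=
  all_trans (b := 8900) (range_sound 50 8850 lcheck_177) <|
  all_trans (b := 8950) (range_sound 50 8900 lcheck_178) <|
  all_trans (b := 9000) (range_sound 50 8950 lcheck_179) <|
  all_trans (b := 9050) (range_sound 50 9000 lcheck_180) <|
  all_trans (b := 9100) (range_sound 50 9050 lcheck_181) <|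
  all_trans (b := 9150) (range_sound 50 9100 lcheck_182) <|
  all_trans (b := 9200) (range_sound 50 9150 lcheck_183) <|
  all_trans (b := 9250) (range_sound 50 9200 lcheck_184) <|
  all_trans (b := 9300) (range_sound 50 9250 lcheck_185) <|
  all_trans (b := 9350) (range_sound 50 9300 lcheck_186) <|
  all_trans (b := 9400) (range_sound 50 9350 lcheck_187) <|
  all_trans (b := 9450) (range_sound 50 9400 lcheck_188) <|
  all_trans (b := 9500) (range_sound 50 9450 lcheck_189) <|
  all_trans (b := 9550) (range_sound 50 9500 lcheck_190) <|
  all_trans (b := 9600) (range_sound 50 9550 lcheck_191) <|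
  all_trans (b := 9650) (range_sound 50 9600 lcheck_192) <|
  all_trans (b := 9700) (range_sound 50 9650 lcheck_193) <|
  range_sound 50 9700 lcheck_194

end BakerTrap
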