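import Pool.Agent.MP_1b0c96_an.LD

/-!
# Kernel check of the branch and bound certificate (lower bound), part 4
-/

set_option autoImplicit false
set_option maxRecDepth 100000

namespace BakerTrap

theorem lcheck_53 : range 118863219210 ltree.get ctree.get 50 2650 = true := by
  decide +kernel

theorem lcheck_54 : range 118863219210 ltree.get ctree.get 50 2700 = true := by
  decide +kernel

theorem lcheck_55 : range 118863219210 ltree.get ctree.get 50 2750 = true := by
  decide +kernel

theorem lcheck_56 : range 118863219210 ltree.get ctree.get 50 2800 = true := by
  decide +kernel

theorem lcheck_57 : range 118863219210 ltree.get ctree.get 50 2850 = true := by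
  decide +kernel

theorem lcheck_58 : range 118863219210 ltree.get ctree.get 50 2900 = true := by
  decide +kernel

theorem lcheck_59 : range 118863219210 ltree.get ctree.get 50 2950 = true := by
  decide +kernel

theorem lcheck_60 : range 118863219210 ltree.get ctree.get 50 3000 = true := by
  decide +kernel

theorem lcheck_61 : range 118863219210 ltree.get ctree.get 50 3050 = true := by
  decide +kernel

theorem lcheck_62 : range 118863219210 ltree.get ctree.get 50 3100 = true := by
  decide +kernel

theorem lcheck_63 : range 118863219210 ltree.get ctree.get 50 3150 = true := by
  decide +kernel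

theorem lcheck_64 : range 118863219210 ltree.get ctree.get 50 3200 = true := by
  decide +kernel

theorem lcheck_65 : range 118863219210 ltree.get ctree.get 50 3250 = true := by
  decide +kernel

theorem lcheck_66 : range 118863219210 ltree.get ctree.get 50 3300 = true := by
  decide +kernel

theorem lcheck_67 : range 118863219210 ltree.get ctree.get 50 3350 = true := by
  decide +kernel

theorem lcheck_68 : range 118863219210 ltree.get ctree.get 50 3400 = true := by
  decide +kernel

theorem lcheck_69 : range 118863219210 ltree.get ctree.get 50 3450 = true := by
  decide +kernel

theorem lcheck_70 : range 118863219210 ltree.get ctree.get 50 3500 = true := by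
  decide +kernel

theorem lpart_4 : ∀ j, 2650 ≤ j → j < 3550 →
    nodeOK 118863219210 ltree.get ctree.get j (ltree.get j) = true :=
  all_trans (b := 2700) (range_sound 50 2650 lcheck_53) <|
  all_trans (b := 2750) (range_sound 50 2700 lcheck_54) <|
  all_trans (b := 2800) (range_sound 50 2750 lcheck_55) <|
  all_trans (b := 2850) (range_sound 50 2800 lcheck_56) <|
  all_trans (b := 2900) (range_sound 50 2850 lcheck_57) <|
  all_trans (b := 2950) (range_sound 50 2900 lcheck_58) <|
  all_trans (b := 3000) (range_sound 50 2950 lcheck_59) <|
  all_trans (b := 3050) (range_sound 50 3000 lcheck_60) <|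
  all_trans (b := 3100) (range_sound 50 3050 lcheck_61) <|
  all_trans (b := 3150) (range_sound 50 3100 lcheck_62) <|
  all_trans (b := 3200) (range_sound 50 3150 lcheck_63) <|
  all_trans (b := 3250) (range_sound 50 3200 lcheck_64) <|
  all_trans (b := 3300) (range_sound 50 3250 lcheck_65) <|
  all_trans (b := 3350) (range_sound 50 3300 lcheck_66) <|
  all_trans (b := 3400) (range_sound 50 3350 lcheck_67) <|
  all_trans (b := 3450) (range_sound 50 3400 lcheck_68) <|
  all_trans (b := 3500) (range_sound 50 3450 lcheck_69) <|
  range_sound 50 3500 lcheck_70

end BakerTrap
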