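import Pool.Agent.MP_1b0c96_an.LD
import Pool.Agent.MP_1b0c96_an.LK4

/-!
# Kernel check of the branch and bound certificate (lower bound), part 8
-/

set_option autoImplicit false
set_option maxRecDepth 100000

namespace BakerTrap

theorem lcheck_124 : range 118863219210 ltree.get ctree.get 50 6200 = true := by
  decide +kernel

theorem lcheck_125 : range 118863219210 ltree.get ctree.get 50 6250 = true := by
  decide +kernel

theorem lcheck_126 : range 118863219210 ltree.get ctree.get 50 6300 = true := by
  decide +kernel

theorem lcheck_127 : range 118863219210 ltree.get ctree.get 50 6350 = true := by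
  decide +kernel

theorem lcheck_128 : range 118863219210 ltree.get ctree.get 50 6400 = true := by
  decide +kernel

theorem lcheck_129 : range 118863219210 ltree.get ctree.get 50 6450 = true := by
  decide +kernel

theorem lcheck_130 : range 118863219210 ltree.get ctree.get 50 6500 = true := by
  decide +kernel

theorem lcheck_131 : range 118863219210 ltree.get ctree.get 50 6550 = true := by
  decide +kernel

theorem lcheck_132 : range 118863219210 ltree.get ctree.get 50 6600 = true := by
  decide +kernel

theorem lcheck_133 : range 118863219210 ltree.get ctree.get 50 6650 = true := by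
  decide +kernel

theorem lcheck_134 : range 118863219210 ltree.get ctree.get 50 6700 = true := by
  decide +kernel

theorem lcheck_135 : range 118863219210 ltree.get ctree.get 50 6750 = true := by
  decide +kernel

theorem lcheck_136 : range 118863219210 ltree.get ctree.get 50 6800 = true := by
  decide +kernel

theorem lcheck_137 : range 118863219210 ltree.get ctree.get 50 6850 = true := by
  decide +kernel

theorem lcheck_138 : range 118863219210 ltree.get ctree.get 50 6900 = true := by
  decide +kernel

theorem lcheck_139 : range 118863219210 ltree.get ctree.get 50 6950 = true := by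
  decide +kernel

theorem lcheck_140 : range 118863219210 ltree.get ctree.get 50 7000 = true := by
  decide +kernel

theorem lcheck_141 : range 118863219210 ltree.get ctree.get 50 7050 = true := by
  decide +kernel

theorem lpart_8 : ∀ j, 6200 ≤ j → j < 7100 →
    nodeOK 118863219210 ltree.get ctree.get j (ltree.get j) = true :=
  all_trans (b := 6250) (range_sound 50 6200 lcheck_124) <|
  all_trans (b := 6300) (range_sound 50 6250 lcheck_125) <|
  all_trans (b := 6350) (range_sound 50 6300 lcheck_126) <|
  all_trans (b := 6400) (range_sound 50 6350 lcheck_127) <|
  all_trans (b := 6450) (range_sound 50 6400 lcheck_128) <|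
  all_trans (b := 6500) (range_sound 50 6450 lcheck_129) <|
  all_trans (b := 6550) (range_sound 50 6500 lcheck_130) <|
  all_trans (b := 6600) (range_sound 50 6550 lcheck_131) <|
  all_trans (b := 6650) (range_sound 50 6600 lcheck_132) <|
  all_trans (b := 6700) (range_sound 50 6650 lcheck_133) <|
  all_trans (b := 6750) (range_sound 50 6700 lcheck_134) <|
  all_trans (b := 6800) (range_sound 50 6750 lcheck_135) <|
  all_trans (b := 6850) (range_sound 50 6800 lcheck_136) <|
  all_trans (b := 6900) (range_sound 50 6850 lcheck_137) <|
  all_trans (b := 6950) (range_sound 50 6900 lcheck_138) <|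
  all_trans (b := 7000) (range_sound 50 6950 lcheck_139) <|
  all_trans (b := 7050) (range_sound 50 7000 lcheck_140) <|
  range_sound 50 7050 lcheck_141

end BakerTrap
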