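import Pool.Agent.MP_1b0c96_an.LD
import Pool.Agent.MP_1b0c96_an.LK8

/-!
# Kernel check of the branch and bound certificate (lower bound), part 12
-/

set_option autoImplicit false
set_option maxRecDepth 100000

namespace BakerTrap

theorem lcheck_195 : range 118863219210 ltree.get ctree.get 50 9750 = true := by
  decide +kernel

theorem lcheck_196 : range 118863219210 ltree.get ctree.get 50 9800 = true := by
  decide +kernel

theorem lcheck_197 : range 118863219210 ltree.get ctree.get 50 9850 = true := by
  decide +kernel

theorem lcheck_198 : range 118863219210 ltree.get ctree.get 50 9900 = true := by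
  decide +kernel

theorem lcheck_199 : range 118863219210 ltree.get ctree.get 50 9950 = true := by
  decide +kernel

theorem lcheck_200 : range 118863219210 ltree.get ctree.get 50 10000 = true := by
  decide +kernel

theorem lcheck_201 : range 118863219210 ltree.get ctree.get 50 10050 = true := by
  decide +kernel

theorem lcheck_202 : range 118863219210 ltree.get ctree.get 50 10100 = true := by
  decide +kernel

theorem lcheck_203 : range 118863219210 ltree.get ctree.get 50 10150 = true := by
  decide +kernel

theorem lcheck_204 : range 118863219210 ltree.get ctree.get 50 10200 = true := by
  decide +kernel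

theorem lcheck_205 : range 118863219210 ltree.get ctree.get 50 10250 = true := by
  decide +kernel

theorem lcheck_206 : range 118863219210 ltree.get ctree.get 50 10300 = true := by
  decide +kernel

theorem lcheck_207 : range 118863219210 ltree.get ctree.get 50 10350 = true := by
  decide +kernel

theorem lcheck_208 : range 118863219210 ltree.get ctree.get 50 10400 = true := by
  decide +kernel

theorem lcheck_209 : range 118863219210 ltree.get ctree.get 50 10450 = true := by
  decide +kernel

theorem lcheck_210 : range 118863219210 ltree.get ctree.get 50 10500 = true := by
  decide +kernel

theorem lcheck_211 : range 118863219210 ltree.get ctree.get 50 10550 = true := by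
  decide +kernel

theorem lcheck_212 : range 118863219210 ltree.get ctree.get 50 10600 = true := by
  decide +kernel

theorem lpart_12 : ∀ j, 9750 ≤ j → j < 10650 →
    nodeOK 118863219210 ltree.get ctree.get j (ltree.get j) = true :=
  all_trans (b := 9800) (range_sound 50 9750 lcheck_195) <|
  all_trans (b := 9850) (range_sound 50 9800 lcheck_196) <|
  all_trans (b := 9900) (range_sound 50 9850 lcheck_197) <|
  all_trans (b := 9950) (range_sound 50 9900 lcheck_198) <|
  all_trans (b := 10000) (range_sound 50 9950 lcheck_199) <|
  all_trans (b := 10050) (range_sound 50 10000 lcheck_200) <|
  all_trans (b := 10100) (range_sound 50 10050 lcheck_201) <|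
  all_trans (b := 10150) (range_sound 50 10100 lcheck_202) <|
  all_trans (b := 10200) (range_sound 50 10150 lcheck_203) <|
  all_trans (b := 10250) (range_sound 50 10200 lcheck_204) <|
  all_trans (b := 10300) (range_sound 50 10250 lcheck_205) <|
  all_trans (b := 10350) (range_sound 50 10300 lcheck_206) <|
  all_trans (b := 10400) (range_sound 50 10350 lcheck_207) <|
  all_trans (b := 10450) (range_sound 50 10400 lcheck_208) <|
  all_trans (b := 10500) (range_sound 50 10450 lcheck_209) <|
  all_trans (b := 10550) (range_sound 50 10500 lcheck_210) <|
  all_trans (b := 10600) (range_sound 50 10550 lcheck_211) <|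
  range_sound 50 10600 lcheck_212

end BakerTrap
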