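import Pool.Agent.MP_1b0c96_an.LD

/-!
# Kernel check of the branch and bound certificate (lower bound), part 1
-/

set_option autoImplicit false
set_option maxRecDepth 100000

namespace BakerTrap

theorem lcheck_0 : range 118863219210 ltree.get ctree.get 50 0 = true := by
  decide +kernel

theorem lcheck_1 : range 118863219210 ltree.get ctree.get 50 50 = true := by
  decide +kernel

theorem lcheck_2 : range 118863219210 ltree.get ctree.get 50 100 = true := by
  decide +kernel

theorem lcheck_3 : range 118863219210 ltree.get ctree.get 50 150 = true := by
  decide +kernel

theorem lcheck_4 : range 118863219210 ltree.get ctree.get 50 200 = true := by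
  decide +kernel

theorem lcheck_5 : range 118863219210 ltree.get ctree.get 50 250 = true := by
  decide +kernel

theorem lcheck_6 : range 118863219210 ltree.get ctree.get 50 300 = true := by
  decide +kernel

theorem lcheck_7 : range 118863219210 ltree.get ctree.get 50 350 = true := by
  decide +kernel

theorem lcheck_8 : range 118863219210 ltree.get ctree.get 50 400 = true := by
  decide +kernel

theorem lcheck_9 : range 118863219210 ltree.get ctree.get 50 450 = true := by
  decide +kernel

theorem lcheck_10 : range 118863219210 ltree.get ctree.get 50 500 = true := by
  decide +kernel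

theorem lcheck_11 : range 118863219210 ltree.get ctree.get 50 550 = true := by
  decide +kernel

theorem lcheck_12 : range 118863219210 ltree.get ctree.get 50 600 = true := by
  decide +kernel

theorem lcheck_13 : range 118863219210 ltree.get ctree.get 50 650 = true := by
  decide +kernel

theorem lcheck_14 : range 118863219210 ltree.get ctree.get 50 700 = true := by
  decide +kernel

theorem lcheck_15 : range 118863219210 ltree.get ctree.get 50 750 = true := by
  decide +kernel

theorem lcheck_16 : range 118863219210 ltree.get ctree.get 50 800 = true := by
  decide +kernel

theorem lpart_1 : ∀ j, 0 ≤ j → j < 850 →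
    nodeOK 118863219210 ltree.get ctree.get j (ltree.get j) = true :=
  all_trans (b := 50) (range_sound 50 0 lcheck_0) <|
  all_trans (b := 100) (range_sound 50 50 lcheck_1) <|
  all_trans (b := 150) (range_sound 50 100 lcheck_2) <|
  all_trans (b := 200) (range_sound 50 150 lcheck_3) <|
  all_trans (b := 250) (range_sound 50 200 lcheck_4) <|
  all_trans (b := 300) (range_sound 50 250 lcheck_5) <|
  all_trans (b := 350) (range_sound 50 300 lcheck_6) <|
  all_trans (b := 400) (range_sound 50 350 lcheck_7) <|
  all_trans (b := 450) (range_sound 50 400 lcheck_8) <|
  all_trans (b := 500) (range_sound 50 450 lcheck_9) <|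
  all_trans (b := 550) (range_sound 50 500 lcheck_10) <|
  all_trans (b := 600) (range_sound 50 550 lcheck_11) <|
  all_trans (b := 650) (range_sound 50 600 lcheck_12) <|
  all_trans (b := 700) (range_sound 50 650 lcheck_13) <|
  all_trans (b := 750) (range_sound 50 700 lcheck_14) <|
  all_trans (b := 800) (range_sound 50 750 lcheck_15) <|
  range_sound 50 800 lcheck_16

end BakerTrap
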