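import Pool.Agent.MP_1b0c96_an.LD
import Pool.Agent.MP_1b0c96_an.LK1

/-!
# Kernel check of the branch and bound certificate (lower bound), part 5
-/

set_option autoImplicit false
set_option maxRecDepth 100000

namespace BakerTrap

theorem lcheck_71 : range 118863219210 ltree.get ctree.get 50 3550 = true := by
  decide +kernel

theorem lcheck_72 : range 118863219210 ltree.get ctree.get 50 3600 = true := by
  decide +kernel

theorem lcheck_73 : range 118863219210 ltree.get ctree.get 50 3650 = true := by
  decide +kernel

theorem lcheck_74 : range 118863219210 ltree.get ctree.get 50 3700 = true := by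
  decide +kernel

theorem lcheck_75 : range 118863219210 ltree.get ctree.get 50 3750 = true := by
  decide +kernel

theorem lcheck_76 : range 118863219210 ltree.get ctree.get 50 3800 = true := by
  decide +kernel

theorem lcheck_77 : range 118863219210 ltree.get ctree.get 50 3850 = true := by
  decide +kernel

theorem lcheck_78 : range 118863219210 ltree.get ctree.get 50 3900 = true := by
  decide +kernel

theorem lcheck_79 : range 118863219210 ltree.get ctree.get 50 3950 = true := by
  decide +kernel

theorem lcheck_80 : range 118863219210 ltree.get ctree.get 50 4000 = true := by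
  decide +kernel

theorem lcheck_81 : range 118863219210 ltree.get ctree.get 50 4050 = true := by
  decide +kernel

theorem lcheck_82 : range 118863219210 ltree.get ctree.get 50 4100 = true := by
  decide +kernel

theorem lcheck_83 : range 118863219210 ltree.get ctree.get 50 4150 = true := by
  decide +kernel

theorem lcheck_84 : range 118863219210 ltree.get ctree.get 50 4200 = true := by
  decide +kernel

theorem lcheck_85 : range 118863219210 ltree.get ctree.get 50 4250 = true := by
  decide +kernel

theorem lcheck_86 : range 118863219210 ltree.get ctree.get 50 4300 = true := by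
  decide +kernel

theorem lcheck_87 : range 118863219210 ltree.get ctree.get 50 4350 = true := by
  decide +kernel

theorem lpart_5 : ∀ j, 3550 ≤ j → j < 4400 →
    nodeOK 118863219210 ltree.get ctree.get j (ltree.get j) = true :=
  all_trans (b := 3600) (range_sound 50 3550 lcheck_71) <|
  all_trans (b := 3650) (range_sound 50 3600 lcheck_72) <|
  all_trans (b := 3700) (range_sound 50 3650 lcheck_73) <|
  all_trans (b := 3750) (range_sound 50 3700 lcheck_74) <|
  all_trans (b := 3800) (range_sound 50 3750 lcheck_75) <|
  all_trans (b := 3850) (range_sound 50 3800 lcheck_76) <|
  all_trans (b := 3900) (range_sound 50 3850 lcheck_77) <|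
  all_trans (b := 3950) (range_sound 50 3900 lcheck_78) <|
  all_trans (b := 4000) (range_sound 50 3950 lcheck_79) <|
  all_trans (b := 4050) (range_sound 50 4000 lcheck_80) <|
  all_trans (b := 4100) (range_sound 50 4050 lcheck_81) <|
  all_trans (b := 4150) (range_sound 50 4100 lcheck_82) <|
  all_trans (b := 4200) (range_sound 50 4150 lcheck_83) <|
  all_trans (b := 4250) (range_sound 50 4200 lcheck_84) <|
  all_trans (b := 4300) (range_sound 50 4250 lcheck_85) <|
  all_trans (b := 4350) (range_sound 50 4300 lcheck_86) <|
  range_sound 50 4350 lcheck_87

end BakerTrap
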