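import Pool.Agent.MP_1b0c96_an.LD
import Pool.Agent.MP_1b0c96_an.LK5

/-!
# Kernel check of the branch and bound certificate (lower bound), part 9
-/

set_option autoImplicit false
set_option maxRecDepth 100000

namespace BakerTrap

theorem lcheck_142 : range 118863219210 ltree.get ctree.get 50 7100 = true := by
  decide +kernel

theorem lcheck_143 : range 118863219210 ltree.get ctree.get 50 7150 = true := by
  decide +kernel

theorem lcheck_144 : range 118863219210 ltree.get ctree.get 50 7200 = true := by
  decide +kernel

theorem lcheck_145 : range 118863219210 ltree.get ctree.get 50 7250 = true := by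
  decide +kernel

theorem lcheck_146 : range 118863219210 ltree.get ctree.get 50 7300 = true := by
  decide +kernel

theorem lcheck_147 : range 118863219210 ltree.get ctree.get 50 7350 = true := by
  decide +kernel

theorem lcheck_148 : range 118863219210 ltree.get ctree.get 50 7400 = true := by
  decide +kernel

theorem lcheck_149 : range 118863219210 ltree.get ctree.get 50 7450 = true := by
  decide +kernel

theorem lcheck_150 : range 118863219210 ltree.get ctree.get 50 7500 = true := by
  decide +kernel

theorem lcheck_151 : range 118863219210 ltree.get ctree.get 50 7550 = true := by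
  decide +kernel

theorem lcheck_152 : range 118863219210 ltree.get ctree.get 50 7600 = true := by
  decide +kernel

theorem lcheck_153 : range 118863219210 ltree.get ctree.get 50 7650 = true := by
  decide +kernel

theorem lcheck_154 : range 118863219210 ltree.get ctree.get 50 7700 = true := by
  decide +kernel

theorem lcheck_155 : range 118863219210 ltree.get ctree.get 50 7750 = true := by
  decide +kernel

theorem lcheck_156 : range 118863219210 ltree.get ctree.get 50 7800 = true := by
  decide +kernel

theorem lcheck_157 : range 118863219210 ltree.get ctree.get 50 7850 = true := by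
  decide +kernel

theorem lcheck_158 : range 118863219210 ltree.get ctree.get 50 7900 = true := by
  decide +kernel

theorem lpart_9 : ∀ j, 7100 ≤ j → j < 7950 →
    nodeOK 118863219210 ltree.get ctree.get j (ltree.get j) = true :=
  all_trans (b := 7150) (range_sound 50 7100 lcheck_142) <|
  all_trans (b := 7200) (range_sound 50 7150 lcheck_143) <|
  all_trans (b := 7250) (range_sound 50 7200 lcheck_144) <|
  all_trans (b := 7300) (range_sound 50 7250 lcheck_145) <|
  all_trans (b := 7350) (range_sound 50 7300 lcheck_146) <|
  all_trans (b := 7400) (range_sound 50 7350 lcheck_147) <|
  all_trans (b := 7450) (range_sound 50 7400 lcheck_148) <|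
  all_trans (b := 7500) (range_sound 50 7450 lcheck_149) <|
  all_trans (b := 7550) (range_sound 50 7500 lcheck_150) <|
  all_trans (b := 7600) (range_sound 50 7550 lcheck_151) <|
  all_trans (b := 7650) (range_sound 50 7600 lcheck_152) <|
  all_trans (b := 7700) (range_sound 50 7650 lcheck_153) <|
  all_trans (b := 7750) (range_sound 50 7700 lcheck_154) <|
  all_trans (b := 7800) (range_sound 50 7750 lcheck_155) <|
  all_trans (b := 7850) (range_sound 50 7800 lcheck_156) <|
  all_trans (b := 7900) (range_sound 50 7850 lcheck_157) <|
  range_sound 50 7900 lcheck_158

end BakerTrap
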