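import Pool.Agent.MP_1b0c96_an.LD
import Pool.Agent.MP_1b0c96_an.LK9

/-!
# Kernel check of the branch and bound certificate (lower bound), part 13
-/

set_option autoImplicit false
set_option maxRecDepth 100000

namespace BakerTrap

theorem lcheck_213 : range 118863219210 ltree.get ctree.get 50 10650 = true := by
  decide +kernel

theorem lcheck_214 : range 118863219210 ltree.get ctree.get 50 10700 = true := by
  decide +kernel

theorem lcheck_215 : range 118863219210 ltree.get ctree.get 50 10750 = true := by
  decide +kernel

theorem lcheck_216 : range 118863219210 ltree.get ctree.get 50 10800 = true := by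
  decide +kernel

theorem lcheck_217 : range 118863219210 ltree.get ctree.get 50 10850 = true := by
  decide +kernel

theorem lcheck_218 : range 118863219210 ltree.get ctree.get 50 10900 = true := by
  decide +kernel

theorem lcheck_219 : range 118863219210 ltree.get ctree.get 50 10950 = true := by
  decide +kernel

theorem lcheck_220 : range 118863219210 ltree.get ctree.get 50 11000 = true := by
  decide +kernel

theorem lcheck_221 : range 118863219210 ltree.get ctree.get 50 11050 = true := by
  decide +kernel

theorem lcheck_222 : range 118863219210 ltree.get ctree.get 50 11100 = true := by
  decide +kernel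

theorem lcheck_223 : range 118863219210 ltree.get ctree.get 50 11150 = true := by
  decide +kernel

theorem lcheck_224 : range 118863219210 ltree.get ctree.get 50 11200 = true := by
  decide +kernel

theorem lcheck_225 : range 118863219210 ltree.get ctree.get 50 11250 = true := by
  decide +kernel

theorem lcheck_226 : range 118863219210 ltree.get ctree.get 50 11300 = true := by
  decide +kernel

theorem lcheck_227 : range 118863219210 ltree.get ctree.get 50 11350 = true := by
  decide +kernel

theorem lcheck_228 : range 118863219210 ltree.get ctree.get 50 11400 = true := by
  decide +kernel

theorem lcheck_229 : range 118863219210 ltree.get ctree.get 50 11450 = true := by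
  decide +kernel

theorem lpart_13 : ∀ j, 10650 ≤ j → j < 11500 →
    nodeOK 118863219210 ltree.get ctree.get j (ltree.get j) = true :=
  all_trans (b := 10700) (range_sound 50 10650 lcheck_213) <|
  all_trans (b := 10750) (range_sound 50 10700 lcheck_214) <|
  all_trans (b := 10800) (range_sound 50 10750 lcheck_215) <|
  all_trans (b := 10850) (range_sound 50 10800 lcheck_216) <|
  all_trans (b := 10900) (range_sound 50 10850 lcheck_217) <|
  all_trans (b := 10950) (range_sound 50 10900 lcheck_218) <|
  all_trans (b := 11000) (range_sound 50 10950 lcheck_219) <|
  all_trans (b := 11050) (range_sound 50 11000 lcheck_220) <|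
  all_trans (b := 11100) (range_sound 50 11050 lcheck_221) <|
  all_trans (b := 11150) (range_sound 50 11100 lcheck_222) <|
  all_trans (b := 11200) (range_sound 50 11150 lcheck_223) <|
  all_trans (b := 11250) (range_sound 50 11200 lcheck_224) <|
  all_trans (b := 11300) (range_sound 50 11250 lcheck_225) <|
  all_trans (b := 11350) (range_sound 50 11300 lcheck_226) <|
  all_trans (b := 11400) (range_sound 50 11350 lcheck_227) <|
  all_trans (b := 11450) (range_sound 50 11400 lcheck_228) <|
  range_sound 50 11450 lcheck_229

end BakerTrap
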