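import Pool.Agent.MP_1b0c96_an.LD
import Pool.Agent.MP_1b0c96_an.LK10

/-!
# Kernel check of the branch and bound certificate (lower bound), part 14
-/

set_option autoImplicit false
set_option maxRecDepth 100000

namespace BakerTrap

theorem lcheck_230 : range 118863219210 ltree.get ctree.get 50 11500 = true := by
  decide +kernel

theorem lcheck_231 : range 118863219210 ltree.get ctree.get 50 11550 = true := by
  decide +kernel

theorem lcheck_232 : range 118863219210 ltree.get ctree.get 50 11600 = true := by
  decide +kernel

theorem lcheck_233 : range 118863219210 ltree.get ctree.get 50 11650 = true := by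
  decide +kernel

theorem lcheck_234 : range 118863219210 ltree.get ctree.get 50 11700 = true := by
  decide +kernel

theorem lcheck_235 : range 118863219210 ltree.get ctree.get 50 11750 = true := by
  decide +kernel

theorem lcheck_236 : range 118863219210 ltree.get ctree.get 50 11800 = true := by
  decide +kernel

theorem lcheck_237 : range 118863219210 ltree.get ctree.get 50 11850 = true := by
  decide +kernel

theorem lcheck_238 : range 118863219210 ltree.get ctree.get 50 11900 = true := by
  decide +kernel

theorem lcheck_239 : range 118863219210 ltree.get ctree.get 50 11950 = true := by
  decide +kernel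

theorem lcheck_240 : range 118863219210 ltree.get ctree.get 50 12000 = true := by
  decide +kernel

theorem lcheck_241 : range 118863219210 ltree.get ctree.get 50 12050 = true := by
  decide +kernel

theorem lcheck_242 : range 118863219210 ltree.get ctree.get 50 12100 = true := by
  decide +kernel

theorem lcheck_243 : range 118863219210 ltree.get ctree.get 50 12150 = true := by
  decide +kernel

theorem lcheck_244 : range 118863219210 ltree.get ctree.get 50 12200 = true := by
  decide +kernel

theorem lcheck_245 : range 118863219210 ltree.get ctree.get 50 12250 = true := by
  decide +kernel

theorem lcheck_246 : range 118863219210 ltree.get ctree.get 50 12300 = true := by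
  decide +kernel

theorem lcheck_247 : range 118863219210 ltree.get ctree.get 50 12350 = true := by
  decide +kernel

theorem lpart_14 : ∀ j, 11500 ≤ j → j < 12400 →
    nodeOK 118863219210 ltree.get ctree.get j (ltree.get j) = true :=
  all_trans (b := 11550) (range_sound 50 11500 lcheck_230) <|
  all_trans (b := 11600) (range_sound 50 11550 lcheck_231) <|
  all_trans (b := 11650) (range_sound 50 11600 lcheck_232) <|
  all_trans (b := 11700) (range_sound 50 11650 lcheck_233) <|
  all_trans (b := 11750) (range_sound 50 11700 lcheck_234) <|
  all_trans (b := 11800) (range_sound 50 11750 lcheck_235) <|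
  all_trans (b := 11850) (range_sound 50 11800 lcheck_236) <|
  all_trans (b := 11900) (range_sound 50 11850 lcheck_237) <|
  all_trans (b := 11950) (range_sound 50 11900 lcheck_238) <|
  all_trans (b := 12000) (range_sound 50 11950 lcheck_239) <|
  all_trans (b := 12050) (range_sound 50 12000 lcheck_240) <|
  all_trans (b := 12100) (range_sound 50 12050 lcheck_241) <|
  all_trans (b := 12150) (range_sound 50 12100 lcheck_242) <|
  all_trans (b := 12200) (range_sound 50 12150 lcheck_243) <|
  all_trans (b := 12250) (range_sound 50 12200 lcheck_244) <|
  all_trans (b := 12300) (range_sound 50 12250 lcheck_245) <|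
  all_trans (b := 12350) (range_sound 50 12300 lcheck_246) <|
  range_sound 50 12350 lcheck_247

end BakerTrap
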