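import Pool.Agent.MP_1b0c96_an.LD
import Pool.Agent.MP_1b0c96_an.LK12

/-!
# Kernel check of the branch and bound certificate (lower bound), part 16
-/

set_option autoImplicit false
set_option maxRecDepth 100000

namespace BakerTrap

theorem lcheck_266 : range 118863219210 ltree.get ctree.get 50 13300 = true := by
  decide +kernel

theorem lcheck_267 : range 118863219210 ltree.get ctree.get 50 13350 = true := by
  decide +kernel

theorem lcheck_268 : range 118863219210 ltree.get ctree.get 50 13400 = true := by
  decide +kernel

theorem lcheck_269 : range 118863219210 ltree.get ctree.get 50 13450 = true := by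
  decide +kernel

theorem lcheck_270 : range 118863219210 ltree.get ctree.get 50 13500 = true := by
  decide +kernel

theorem lcheck_271 : range 118863219210 ltree.get ctree.get 50 13550 = true := by
  decide +kernel

theorem lcheck_272 : range 118863219210 ltree.get ctree.get 50 13600 = true := by
  decide +kernel

theorem lcheck_273 : range 118863219210 ltree.get ctree.get 50 13650 = true := by
  decide +kernel

theorem lcheck_274 : range 118863219210 ltree.get ctree.get 50 13700 = true := by
  decide +kernel

theorem lcheck_275 : range 118863219210 ltree.get ctree.get 50 13750 = true := by
  decide +kernel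

theorem lcheck_276 : range 118863219210 ltree.get ctree.get 50 13800 = true := by
  decide +kernel

theorem lcheck_277 : range 118863219210 ltree.get ctree.get 50 13850 = true := by
  decide +kernel

theorem lcheck_278 : range 118863219210 ltree.get ctree.get 50 13900 = true := by
  decide +kernel

theorem lcheck_279 : range 118863219210 ltree.get ctree.get 50 13950 = true := by
  decide +kernel

theorem lcheck_280 : range 118863219210 ltree.get ctree.get 50 14000 = true := by
  decide +kernel

theorem lcheck_281 : range 118863219210 ltree.get ctree.get 50 14050 = true := by
  decide +kernel

theorem lcheck_282 : range 118863219210 ltree.get ctree.get 50 14100 = true := by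
  decide +kernel

theorem lcheck_283 : range 118863219210 ltree.get ctree.get 26 14150 = true := by
  decide +kernel

theorem lpart_16 : ∀ j, 13300 ≤ j → j < 14176 →
    nodeOK 118863219210 ltree.get ctree.get j (ltree.get j) = true :=
  all_trans (b := 13350) (range_sound 50 13300 lcheck_266) <|
  all_trans (b := 13400) (range_sound 50 13350 lcheck_267) <|
  all_trans (b := 13450) (range_sound 50 13400 lcheck_268) <|
  all_trans (b := 13500) (range_sound 50 13450 lcheck_269) <|
  all_trans (b := 13550) (range_sound 50 13500 lcheck_270) <|
  all_trans (b := 13600) (range_sound 50 13550 lcheck_271) <|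
  all_trans (b := 13650) (range_sound 50 13600 lcheck_272) <|
  all_trans (b := 13700) (range_sound 50 13650 lcheck_273) <|
  all_trans (b := 13750) (range_sound 50 13700 lcheck_274) <|
  all_trans (b := 13800) (range_sound 50 13750 lcheck_275) <|
  all_trans (b := 13850) (range_sound 50 13800 lcheck_276) <|
  all_trans (b := 13900) (range_sound 50 13850 lcheck_277) <|
  all_trans (b := 13950) (range_sound 50 13900 lcheck_278) <|
  all_trans (b := 14000) (range_sound 50 13950 lcheck_279) <|
  all_trans (b := 14050) (range_sound 50 14000 lcheck_280) <|
  all_trans (b := 14100) (range_sound 50 14050 lcheck_281) <|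
  all_trans (b := 14150) (range_sound 50 14100 lcheck_282) <|
  range_sound 26 14150 lcheck_283

end BakerTrap
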