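import Pool.Agent.MP_1b0c96_an.LK1
import Pool.Agent.MP_1b0c96_an.LK2
import Pool.Agent.MP_1b0c96_an.LK3
import Pool.Agent.MP_1b0c96_an.LK4
import Pool.Agent.MP_1b0c96_an.LK5
import Pool.Agent.MP_1b0c96_an.LK6
import Pool.Agent.MP_1b0c96_an.LK7
import Pool.Agent.MP_1b0c96_an.LK8
import Pool.Agent.MP_1b0c96_an.LK9
import Pool.Agent.MP_1b0c96_an.LK10
import Pool.Agent.MP_1b0c96_an.LK11
import Pool.Agent.MP_1b0c96_an.LK12
import Pool.Agent.MP_1b0c96_an.LK13
import Pool.Agent.MP_1b0c96_an.LK14
import Pool.Agent.MP_1b0c96_an.LK15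
import Pool.Agent.MP_1b0c96_an.LK16
import Pool.Agent.MP_1b0c96_an.L4

/-!
# The lower bound
-/

set_option autoImplicit false

open MeasureTheory

namespace BakerTrap

theorem lall : ∀ j, 0 ≤ j → j < 14176 →
    nodeOK 118863219210 ltree.get ctree.get j (ltree.get j) = true :=
  all_trans (b := 850) lpart_1 <|
  all_trans (b := 1750) lpart_2 <|
  all_trans (b := 2650) lpart_3 <|
  all_trans (b := 3550) lpart_4 <|
  all_trans (b := 4400) lpart_5 <|
  all_trans (b := 5300) lpart_6 <|
  all_trans (b := 6200) lpart_7 <|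
  all_trans (b := 7100) lpart_8 <|
  all_trans (b := 7950) lpart_9 <|
  all_trans (b := 8850) lpart_10 <|
  all_trans (b := 9750) lpart_11 <|
  all_trans (b := 10650) lpart_12 <|
  all_trans (b := 11500) lpart_13 <|
  all_trans (b := 12400) lpart_14 <|
  all_trans (b := 13300) lpart_15 <|
  lpart_16

theorem ctree_ok : CT.all ctree = true := by
  decide +kernel

theorem root_empty : hl (ltree.get 14175) = [] := by
  decide +kernel

/-- every convex dimension trap of the baker's map has area at least `0.11886321921` -/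
theorem lower {H : Set (ℝ × ℝ)} (hH : ConvexTrap H) : 0.11886321921 ≤ (volume H).toReal := by
  have h := cert_sound (num := 118863219210) (get := ltree.get) (con := ctree.get) (n := 14176)
    (CT.all_sound ctree_ok) (fun i hi => lall i (Nat.zero_le i) hi) hH 14175 (by norm_num) (by
      rw [root_empty]
      intro z hz
      exact absurd hz (List.not_mem_nil))
  have e : ((118863219210 : ℕ) : ℝ) / 10 ^ 12 = 0.11886321921 := by norm_num
  rwa [e] at h

end BakerTrap
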