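import Pool.Agent.MP_1b0c96_an.LD
import Pool.Agent.MP_1b0c96_an.LK11

/-!
# Kernel check of the branch and bound certificate (lower bound), part 15
-/

set_option autoImplicit false
set_option maxRecDepth 100000

namespace BakerTrap

theorem lcheck_248 : range 118863219210 ltree.get ctree.get 50 12400 = true := by
  decide +kernel

theorem lcheck_249 : range 118863219210 ltree.get ctree.get 50 12450 = true := by
  decide +kernel

theorem lcheck_250 : range 118863219210 ltree.get ctree.get 50 12500 = true := by
  decide +kernel

theorem lcheck_251 : range 118863219210 ltree.get ctree.get 50 12550 = true := by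
  decide +kernel

theorem lcheck_252 : range 118863219210 ltree.get ctree.get 50 12600 = true := by
  decide +kernel

theorem lcheck_253 : range 118863219210 ltree.get ctree.get 50 12650 = true := by
  decide +kernel

theorem lcheck_254 : range 118863219210 ltree.get ctree.get 50 12700 = true := by
  decide +kernel

theorem lcheck_255 : range 118863219210 ltree.get ctree.get 50 12750 = true := by
  decide +kernel

theorem lcheck_256 : range 118863219210 ltree.get ctree.get 50 12800 = true := by
  decide +kernel

theorem lcheck_257 : range 118863219210 ltree.get ctree.get 50 12850 = true := by
  decide +kernel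

theorem lcheck_258 : range 118863219210 ltree.get ctree.get 50 12900 = true := by
  decide +kernel

theorem lcheck_259 : range 118863219210 ltree.get ctree.get 50 12950 = true := by
  decide +kernel

theorem lcheck_260 : range 118863219210 ltree.get ctree.get 50 13000 = true := by
  decide +kernel

theorem lcheck_261 : range 118863219210 ltree.get ctree.get 50 13050 = true := by
  decide +kernel

theorem lcheck_262 : range 118863219210 ltree.get ctree.get 50 13100 = true := by
  decide +kernel

theorem lcheck_263 : range 118863219210 ltree.get ctree.get 50 13150 = true := by
  decide +kernel

theorem lcheck_264 : range 118863219210 ltree.get ctree.get 50 13200 = true := by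
  decide +kernel

theorem lcheck_265 : range 118863219210 ltree.get ctree.get 50 13250 = true := by
  decide +kernel

theorem lpart_15 : ∀ j, 12400 ≤ j → j < 13300 →
    nodeOK 118863219210 ltree.get ctree.get j (ltree.get j) = true :=
  all_trans (b := 12450) (range_sound 50 12400 lcheck_248) <|
  all_trans (b := 12500) (range_sound 50 12450 lcheck_249) <|
  all_trans (b := 12550) (range_sound 50 12500 lcheck_250) <|
  all_trans (b := 12600) (range_sound 50 12550 lcheck_251) <|
  all_trans (b := 12650) (range_sound 50 12600 lcheck_252) <|
  all_trans (b := 12700) (range_sound 50 12650 lcheck_253) <|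
  all_trans (b := 12750) (range_sound 50 12700 lcheck_254) <|
  all_trans (b := 12800) (range_sound 50 12750 lcheck_255) <|
  all_trans (b := 12850) (range_sound 50 12800 lcheck_256) <|
  all_trans (b := 12900) (range_sound 50 12850 lcheck_257) <|
  all_trans (b := 12950) (range_sound 50 12900 lcheck_258) <|
  all_trans (b := 13000) (range_sound 50 12950 lcheck_259) <|
  all_trans (b := 13050) (range_sound 50 13000 lcheck_260) <|
  all_trans (b := 13100) (range_sound 50 13050 lcheck_261) <|
  all_trans (b := 13150) (range_sound 50 13100 lcheck_262) <|
  all_trans (b := 13200) (range_sound 50 13150 lcheck_263) <|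
  all_trans (b := 13250) (range_sound 50 13200 lcheck_264) <|
  range_sound 50 13250 lcheck_265

end BakerTrap
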