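import Pool.Agent.MP_1b0c96_an.D1

/-!
# [BT-U1] Zero entropy from a rank function on a finite automaton
-/

set_option autoImplicit false

namespace BakerTrap

/-- the last `len` letters `u n, u (n - 1), ...` of the past of `u` at `n` as a number
(`u n` is the least significant bit) -/
def pn (u : ℤ → Bool) (n : ℤ) : ℕ → ℕ
  | 0 => 0
  | len + 1 => pn u n len + 2 ^ len * (u (n - len)).toNat

/-- [U1a] PROOF. induction. -/
theorem pn_succ (u : ℤ → Bool) (n : ℤ) (len : ℕ) :
    pn u (n + 1) (len + 1) = 2 * pn u n len + (u (n + 1)).toNat := by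
  induction len with
  | zero => simp [pn]
  | succ len ih =>
    rw [pn, ih, pn]
    rw [show n + 1 - ((len + 1 : ℕ) : ℤ) = n - len by push_cast; ring, pow_succ]
    ring

theorem pn_mod (u : ℤ → Bool) (n : ℤ) {len len' : ℕ} (h : len' ≤ len) :
    pn u n len % 2 ^ len' = pn u n len' := by
  have hlt : ∀ len, pn u n len < 2 ^ len := by
    intro len
    induction len with
    | zero => simp [pn]
    | succ len ih =>
      rw [pn, pow_succ]
      have h1 : (u (n - len)).toNat ≤ 1 := Bool.toNat_le _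
      have h2 : 2 ^ len * (u (n - len)).toNat ≤ 2 ^ len * 1 := Nat.mul_le_mul_left _ h1
      omega
  induction len with
  | zero =>
    have h0 : len' = 0 := by omega
    subst h0
    simp [pn]
  | succ len ih =>
    rcases Nat.lt_or_ge len len' with h1 | h1
    · have h2 : len' = len + 1 := by omega
      subst h2
      exact Nat.mod_eq_of_lt (hlt _)
    · rw [pn, ← ih h1]
      obtain ⟨k, hk⟩ := Nat.exists_eq_add_of_le h1
      rw [hk, pow_add, mul_assoc, Nat.add_mul_mod_self_left]

/-- An automaton: `S` states; state `s` stands for the past word of length `len s` with the number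
`val s`; `nxt s b = none` if the word followed by `b` ends with a forbidden word, otherwise it is a
state; `rk` is the rank. -/
structure Auto where
  S : ℕ
  len : ℕ → ℕ
  val : ℕ → ℕ
  nxt : ℕ → Bool → Option ℕ
  rk : ℕ → ℕ

/-- `Bad` is a set of forbidden words, given as pairs (length, number), see `pn`. -/
structure Auto.Valid (A : Auto) (Bad : ℕ → ℕ → Prop) : Prop where
  pos : 0 < A.S
  zero_len : A.len 0 = 0
  zero_val : A.val 0 = 0
  nxt_lt : ∀ s < A.S, ∀ b t, A.nxt s b = some t → t < A.S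
  nxt_len : ∀ s < A.S, ∀ b t, A.nxt s b = some t → A.len t ≤ A.len s + 1
  nxt_val : ∀ s < A.S, ∀ b t, A.nxt s b = some t →
    (2 * A.val s + b.toNat) % 2 ^ A.len t = A.val t
  bad : ∀ s < A.S, ∀ b, A.nxt s b = none →
    ∃ l v, l ≤ A.len s + 1 ∧ Bad l v ∧ (2 * A.val s + b.toNat) % 2 ^ l = v
  rk_le : ∀ s < A.S, ∀ b t, A.nxt s b = some t → A.rk t ≤ A.rk s
  rk_one : ∀ s < A.S, ∀ t t', A.nxt s false = some t → A.nxt s true = some t' →
    ¬ (A.rk t = A.rk s ∧ A.rk t' = A.rk s)

/-- no forbidden word ends in `(a, b]` (and starts after `a`) -/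
def Clean (Bad : ℕ → ℕ → Prop) (u : ℤ → Bool) (a b : ℤ) : Prop :=
  ∀ n : ℤ, a < n → n ≤ b → ∀ l : ℕ, (l : ℤ) ≤ n - a → ¬ Bad l (pn u n l)

/-- run of the automaton -/
def u1_q (A : Auto) (u : ℤ → Bool) (a : ℤ) : ℕ → ℕ
  | 0 => 0
  | m + 1 => (A.nxt (u1_q A u a m) (u (a + m + 1))).getD 0

theorem u1_some {A : Auto} {Bad : ℕ → ℕ → Prop} (hA : A.Valid Bad) {u : ℤ → Bool} {a b : ℤ}
    (hC : Clean Bad u a b) {m : ℕ} (hm : a + m + 1 ≤ b) (h1 : u1_q A u a m < A.S)
    (h2 : A.len (u1_q A u a m) ≤ m)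
    (h3 : pn u (a + m) (A.len (u1_q A u a m)) = A.val (u1_q A u a m)) :
    A.nxt (u1_q A u a m) (u (a + m + 1)) = some (u1_q A u a (m + 1)) := by
  cases hnx : A.nxt (u1_q A u a m) (u (a + m + 1)) with
  | some t => simp [u1_q, hnx]
  | none =>
    exfalso
    obtain ⟨l, v, hl, hB, hv⟩ := hA.bad _ h1 _ hnx
    rw [← h3, ← pn_succ, pn_mod _ _ hl] at hv
    rw [← hv] at hB
    exact hC (a + m + 1) (by omega) hm l (by omega) hB

theorem u1_run {A : Auto} {Bad : ℕ → ℕ → Prop} (hA : A.Valid Bad) {u : ℤ → Bool} {a b : ℤ}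
    (hC : Clean Bad u a b) (m : ℕ) (hm : a + m ≤ b) :
    u1_q A u a m < A.S ∧ A.len (u1_q A u a m) ≤ m ∧
      pn u (a + m) (A.len (u1_q A u a m)) = A.val (u1_q A u a m) := by
  induction m with
  | zero =>
    refine ⟨hA.pos, ?_, ?_⟩
    · simp [u1_q, hA.zero_len]
    · simp [u1_q, hA.zero_len, hA.zero_val, pn]
  | succ m ih =>
    obtain ⟨h1, h2, h3⟩ := ih (by push_cast at hm; omega)
    have hs := u1_some hA hC (m := m) (by push_cast at hm; omega) h1 h2 h3
    refine ⟨hA.nxt_lt _ h1 _ _ hs, (hA.nxt_len _ h1 _ _ hs).trans (by omega), ?_⟩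
    have hl := hA.nxt_len _ h1 _ _ hs
    rw [← hA.nxt_val _ h1 _ _ hs, ← h3, ← pn_succ, pn_mod _ _ hl]
    congr 1
    push_cast
    ring

theorem u1_step {A : Auto} {Bad : ℕ → ℕ → Prop} (hA : A.Valid Bad) {u : ℤ → Bool} {a b : ℤ}
    (hC : Clean Bad u a b) (m : ℕ) (hm : a + m + 1 ≤ b) :
    A.nxt (u1_q A u a m) (u (a + m + 1)) = some (u1_q A u a (m + 1)) := by
  obtain ⟨h1, h2, h3⟩ := u1_run hA hC m (by omega)
  exact u1_some hA hC hm h1 h2 h3

theorem u1_anti {A : Auto} {Bad : ℕ → ℕ → Prop} (hA : A.Valid Bad) {u : ℤ → Bool} {a b : ℤ}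
    (hC : Clean Bad u a b) (m k : ℕ) (hm : a + (m + k : ℕ) ≤ b) :
    A.rk (u1_q A u a (m + k)) ≤ A.rk (u1_q A u a m) := by
  induction k with
  | zero => exact le_rfl
  | succ k ih =>
    have h1 := ih (by push_cast at hm ⊢; omega)
    have h2 := u1_step hA hC (m + k) (by push_cast at hm ⊢; omega)
    have h3 := (u1_run hA hC (m + k) (by push_cast at hm ⊢; omega)).1
    exact (hA.rk_le _ h3 _ _ h2).trans h1

theorem u1_det {A : Auto} {Bad : ℕ → ℕ → Prop} (hA : A.Valid Bad) {u : ℤ → Bool} {a b : ℤ}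
    (hC : Clean Bad u a b) (m m' : ℕ) (hm : a + m + 1 ≤ b) (hm' : a + m' + 1 ≤ b)
    (hq : u1_q A u a m = u1_q A u a m')
    (hr : A.rk (u1_q A u a (m + 1)) = A.rk (u1_q A u a m))
    (hr' : A.rk (u1_q A u a (m' + 1)) = A.rk (u1_q A u a m')) :
    u (a + m + 1) = u (a + m' + 1) ∧ u1_q A u a (m + 1) = u1_q A u a (m' + 1) := by
  have h1 := u1_step hA hC m hm
  have h2 := u1_step hA hC m' hm'
  have h3 := (u1_run hA hC m (by omega)).1
  rw [← hq] at h2 hr'
  by_cases hu : u (a + m + 1) = u (a + m' + 1)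
  · refine ⟨hu, ?_⟩
    rw [hu, h2] at h1
    exact (Option.some.inj h1).symm
  · exfalso
    cases hb : u (a + m + 1) <;> cases hb' : u (a + m' + 1)
    · exact hu (hb.trans hb'.symm)
    · rw [hb] at h1; rw [hb'] at h2
      exact hA.rk_one _ h3 _ _ h1 h2 ⟨hr, hr'⟩
    · rw [hb] at h1; rw [hb'] at h2
      exact hA.rk_one _ h3 _ _ h2 h1 ⟨hr', hr⟩
    · exact hu (hb.trans hb'.symm)

/-- periodicity inside a rank interval -/
theorem u1_periodic {A : Auto} {Bad : ℕ → ℕ → Prop} (hA : A.Valid Bad) {u : ℤ → Bool} {a b : ℤ}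
    (hC : Clean Bad u a b) (m₀ m₁ ρ : ℕ) (hm₁ : a + m₁ ≤ b)
    (hρ : ∀ m, m₀ ≤ m → m ≤ m₁ → A.rk (u1_q A u a m) = ρ) (m : ℕ) (hm : m₀ + A.S < m)
    (hmP : m + A.S.factorial ≤ m₁) : u (a + m) = u (a + m + A.S.factorial) := by
  have hP : 0 < A.S.factorial := Nat.factorial_pos _
  -- pigeonhole
  obtain ⟨i, hi, j, hj, hij, hqij⟩ : ∃ i ∈ Finset.range (A.S + 1), ∃ j ∈ Finset.range (A.S + 1),
      i ≠ j ∧ u1_q A u a (m₀ + i) = u1_q A u a (m₀ + j) := by
    have hmaps : ∀ i ∈ Finset.range (A.S + 1), u1_q A u a (m₀ + i) ∈ Finset.range A.S := by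
      intro i hi
      rw [Finset.mem_range] at hi ⊢
      exact (u1_run hA hC (m₀ + i) (by push_cast; omega)).1
    have hcard : (Finset.range A.S).card < (Finset.range (A.S + 1)).card := by simp
    obtain ⟨i, hi, j, hj, hij, h⟩ := Finset.exists_ne_map_eq_of_card_lt_of_maps_to hcard hmaps
    exact ⟨i, hi, j, hj, hij, h⟩
  wlog hlt : i < j generalizing i j
  · exact this j hj i hi hij.symm hqij.symm (by omega)
  rw [Finset.mem_range] at hi hj
  obtain ⟨π, hπ⟩ : ∃ π, j = i + π := ⟨j - i, by omega⟩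
  subst hπ
  have hπ0 : 0 < π := by omega
  -- one period
  have hone : ∀ k, m₀ + i + k + π ≤ m₁ →
      u1_q A u a (m₀ + i + k) = u1_q A u a (m₀ + i + k + π) ∧
      (0 < k → u (a + (m₀ + i + k : ℕ)) = u (a + (m₀ + i + k + π : ℕ))) := by
    intro k
    induction k with
    | zero =>
      intro _
      refine ⟨?_, fun h => absurd h (lt_irrefl _)⟩
      rw [add_zero, hqij, add_assoc]
    | succ k ih =>
      intro hk
      obtain ⟨h1, _⟩ := ih (by omega)
      have h2 := u1_det hA hC (m₀ + i + k) (m₀ + i + k + π) (by push_cast; omega)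
        (by push_cast; omega) h1
        (by rw [hρ _ (by omega) (by omega), hρ _ (by omega) (by omega)])
        (by rw [hρ _ (by omega) (by omega), hρ _ (by omega) (by omega)])
      refine ⟨?_, fun _ => ?_⟩
      · rw [← add_assoc, h2.2]
        congr 1
        omega
      · have h3 := h2.1
        push_cast at h3 ⊢
        rw [← add_assoc] at h3
        convert h3 using 2 <;> ring
  -- many periods
  have hmany : ∀ t : ℕ, ∀ k : ℕ, m₀ + i < k → k + t * π ≤ m₁ →
      u (a + (k : ℕ)) = u (a + (k + t * π : ℕ)) := by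
    intro t
    induction t with
    | zero => intro k _ _; simp
    | succ t ih =>
      intro k hk hk2
      have h1 := ih k hk (by nlinarith)
      rw [h1]
      have h3 := (hone (k + t * π - (m₀ + i)) (by
        have : m₀ + i ≤ k + t * π := by omega
        have h4 : (t + 1) * π = t * π + π := by ring
        omega)).2 (by omega)
      have h5 : m₀ + i + (k + t * π - (m₀ + i)) = k + t * π := by omega
      rw [h5] at h3
      rw [h3]
      congr 2
      push_cast
      ring
  obtain ⟨c, hc⟩ : π ∣ A.S.factorial := Nat.dvd_factorial hπ0 (by omega)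
  have h6 := hmany c m (by omega) (by rw [mul_comm c π, ← hc]; exact hmP)
  rw [h6]
  congr 1
  rw [mul_comm c π, ← hc]
  push_cast
  ring

/-- [U1b] the number of `n ∈ (a, b]` with `n + P ≤ b`, `u n ≠ u (n + P)` is bounded by a constant,
`P = A.S !`. PROOF. Let `q a = 0`, `q (n + 1) = nxt (q n) (u (n + 1))`. As `u` is clean, `q n` is
defined for `a ≤ n ≤ b`, `len (q n) ≤ n - a` and `val (q n) = pn u n (len (q n))` (U1a). The rank
`rk (q n)` is non-increasing, with values in a set of at most `S` elements, so `(a, b]` is the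
disjoint union of at most `S` intervals on which it is constant. In such an interval `I` the letter
`u (n + 1)` and the state `q (n + 1)` are functions of `q n` (`rk_one`), hence among `S + 1`
consecutive states two are equal, so from there on `q` and `u` are periodic with a period `≤ S`, hence
with the period `P = S!` (as long as one stays in `I`). So the bad `n` are among the first `S + 1`
and the last `P + 1` elements of `I`: at most `S (S + P + 2)` in all. (Any other bound will do; the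
statement only asks for some `C`.) -/
theorem few_changes (A : Auto) {Bad : ℕ → ℕ → Prop} (hA : A.Valid Bad) :
    ∃ C : ℕ, ∀ (u : ℤ → Bool) (a b : ℤ), Clean Bad u a b →
      {n : ℤ | a < n ∧ n + (A.S.factorial : ℤ) ≤ b ∧ u n ≠ u (n + A.S.factorial)}.Finite ∧
      {n : ℤ | a < n ∧ n + (A.S.factorial : ℤ) ≤ b ∧ u n ≠ u (n + A.S.factorial)}.ncard ≤ C := by
  classical
  refine ⟨A.S * (A.S + 1 + A.S.factorial), fun u a b hC => ?_⟩
  set P := A.S.factorial with hPdef
  -- for each rank a small set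
  have hrank : ∀ ρ : ℕ, ∃ F : Finset ℤ, F.card ≤ A.S + 1 + P ∧
      ∀ m : ℕ, a + m + P ≤ b → A.rk (u1_q A u a m) = ρ → u (a + m) ≠ u (a + m + P) →
        (a + m) ∈ F := by
    intro ρ
    by_cases hex : ∃ m : ℕ, a + m ≤ b ∧ A.rk (u1_q A u a m) = ρ
    · -- the interval
      let I : Finset ℕ := (Finset.range ((b - a).toNat + 1)).filter
        (fun m => A.rk (u1_q A u a m) = ρ)
      have hmem : ∀ m : ℕ, a + m ≤ b → A.rk (u1_q A u a m) = ρ → m ∈ I := by
        intro m h1 h2
        simp only [I, Finset.mem_filter, Finset.mem_range]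
        exact ⟨by omega, h2⟩
      have hI : I.Nonempty := by
        obtain ⟨m, h1, h2⟩ := hex
        exact ⟨m, hmem m h1 h2⟩
      have hab : a ≤ b := by
        obtain ⟨m, h1, _⟩ := hex
        omega
      have hspec : ∀ m ∈ I, a + m ≤ b ∧ A.rk (u1_q A u a m) = ρ := by
        intro m hm
        simp only [I, Finset.mem_filter, Finset.mem_range] at hm
        exact ⟨by omega, hm.2⟩
      set m₀ := I.min' hI with hm₀
      set m₁ := I.max' hI with hm₁
      have h₀ := hspec m₀ (I.min'_mem hI)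
      have h₁ := hspec m₁ (I.max'_mem hI)
      have hconst : ∀ m, m₀ ≤ m → m ≤ m₁ → A.rk (u1_q A u a m) = ρ := by
        intro m hm hm'
        apply le_antisymm
        · obtain ⟨k, rfl⟩ := Nat.exists_eq_add_of_le hm
          rw [← h₀.2]
          exact u1_anti hA hC m₀ k (by omega)
        · obtain ⟨k, hk⟩ := Nat.exists_eq_add_of_le hm'
          rw [← h₁.2, hk]
          exact u1_anti hA hC m k (by omega)
      refine ⟨(Finset.Icc m₀ (m₀ + A.S) ∪ Finset.Ioc (m₁ - P) m₁).image (fun m : ℕ => a + m),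
        ?_, ?_⟩
      · refine Finset.card_image_le.trans ((Finset.card_union_le _ _).trans ?_)
        rw [Nat.card_Icc, Nat.card_Ioc]
        omega
      · intro m hm hr hne
        have hmI := hmem m (by omega) hr
        have hge : m₀ ≤ m := I.min'_le m hmI
        have hle : m ≤ m₁ := I.le_max' m hmI
        rw [Finset.mem_image]
        refine ⟨m, ?_, rfl⟩
        rw [Finset.mem_union, Finset.mem_Icc, Finset.mem_Ioc]
        by_contra hcon
        push Not at hcon
        obtain ⟨hc1, hc2⟩ := hcon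
        have hc1' := hc1 hge
        have hc3 : ¬ (m₁ - P < m) := fun h => by
          have := hc2 h
          omega
        have hP0 : 0 < P := Nat.factorial_pos _
        exact hne (u1_periodic hA hC m₀ m₁ ρ h₁.1 hconst m (by omega) (by omega))
    · refine ⟨∅, by simp, fun m hm hr _ => ?_⟩
      exact absurd ⟨m, by omega, hr⟩ hex
  choose F hF1 hF2 using hrank
  set R := (Finset.range A.S).image A.rk with hR
  have hsub : {n : ℤ | a < n ∧ n + (P : ℤ) ≤ b ∧ u n ≠ u (n + P)} ⊆ ↑(R.biUnion F) := by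
    rintro n ⟨h1, h2, h3⟩
    obtain ⟨m, hm⟩ := Int.eq_ofNat_of_zero_le (show 0 ≤ n - a by omega)
    have hn : n = a + m := by omega
    subst hn
    rw [Finset.mem_coe, Finset.mem_biUnion]
    have hrun := u1_run hA hC m (by omega)
    refine ⟨A.rk (u1_q A u a m), ?_, hF2 _ m h2 rfl h3⟩
    rw [hR, Finset.mem_image]
    exact ⟨_, Finset.mem_range.mpr hrun.1, rfl⟩
  refine ⟨(Finset.finite_toSet _).subset hsub, ?_⟩
  refine (Set.ncard_le_ncard hsub (Finset.finite_toSet _)).trans ?_
  rw [Set.ncard_coe_finset]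
  refine Finset.card_biUnion_le.trans ?_
  calc ∑ ρ ∈ R, (F ρ).card ≤ ∑ _ρ ∈ R, (A.S + 1 + P) := Finset.sum_le_sum fun ρ _ => hF1 ρ
    _ = R.card * (A.S + 1 + P) := by rw [Finset.sum_const, smul_eq_mul]
    _ ≤ A.S * (A.S + 1 + P) := by
      refine Nat.mul_le_mul_right _ ?_
      rw [hR]
      refine Finset.card_image_le.trans ?_
      simp

end BakerTrap
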