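import Pool.Agent.MP_1b0c96_an.U1

/-!
# [BT-U2] The survivor set is countable
-/

set_option autoImplicit false

namespace BakerTrap

/-- [U2a] PROOF. A set as in the conclusion is contained in the union over `N : ℕ` of
`{u | ∀ n, N ≤ |n| → u n = u (n + P)}`; such a `u` is determined by its restriction to the finite
interval `[-N - P, N + P]`: for `n > N + P` use `u n = u (n - P)`, for `n < - N - P` use
`u n = u (n + P)` (strong induction). So each of these sets is finite. -/
theorem countable_of_finite_changes (P : ℕ) (hP : 0 < P) :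
    {u : ℤ → Bool | {n : ℤ | u n ≠ u (n + P)}.Finite}.Countable := by
  have hsub : {u : ℤ → Bool | {n : ℤ | u n ≠ u (n + P)}.Finite} ⊆
      ⋃ N : ℕ, {u : ℤ → Bool | ∀ n : ℤ, (N : ℤ) ≤ |n| → u n = u (n + P)} := by
    intro u hu
    have hu' : {n : ℤ | u n ≠ u (n + P)}.Finite := hu
    obtain ⟨M, hM⟩ := (hu'.image (fun n : ℤ => |n|)).bddAbove
    rw [Set.mem_iUnion]
    refine ⟨M.toNat + 1, ?_⟩
    intro n hn
    by_contra hne
    have h1 : |n| ≤ M := hM ⟨n, hne, rfl⟩
    push_cast at hn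
    omega
  refine Set.Countable.mono hsub (Set.countable_iUnion ?_)
  intro N
  have hinj : Set.InjOn (fun (u : ℤ → Bool) (i : Set.Icc (-((N : ℤ) + P)) ((N : ℤ) + P)) => u i)
      {u : ℤ → Bool | ∀ n : ℤ, (N : ℤ) ≤ |n| → u n = u (n + P)} := by
    intro u hu v hv huv
    have key : ∀ k : ℕ, ∀ n : ℤ, n.natAbs = k → u n = v n := by
      intro k
      induction k using Nat.strong_induction_on with
      | _ k ih =>
        intro n hn
        by_cases h1 : -((N : ℤ) + P) ≤ n ∧ n ≤ (N : ℤ) + P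
        · exact congrFun huv ⟨n, h1⟩
        · by_cases h2 : 0 ≤ n
          · have h3 : (N : ℤ) ≤ |n - P| := by
              rw [abs_of_nonneg (by omega)]
              omega
            have h4 := hu (n - P) h3
            have h5 := hv (n - P) h3
            rw [sub_add_cancel] at h4 h5
            rw [← h4, ← h5]
            exact ih (n - P).natAbs (by omega) (n - P) rfl
          · have h3 : (N : ℤ) ≤ |n| := by
              rw [abs_of_nonpos (by omega)]
              omega
            rw [hu n h3, hv n h3]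
            exact ih (n + P).natAbs (by omega) (n + P) rfl
    funext n
    exact key n.natAbs n rfl
  exact Set.MapsTo.countable_of_injOn (Set.mapsTo_univ _ _) hinj (Set.to_countable _)

theorem u2_fin {D : Set ℤ} {C : ℕ} (h : ∀ F : Finset ℤ, (F : Set ℤ) ⊆ D → F.card ≤ C) :
    D.Finite := by
  by_contra hinf
  obtain ⟨F, hF, hc⟩ := Set.Infinite.exists_subset_card_eq hinf (C + 1)
  have := h F hF
  omega

theorem u2_fst {u : ℤ → Bool} {k n₁ n₂ : ℤ} (h1 : k < n₁) (h2 : k < n₂) (ht : u n₁ = true)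
    (hf : u n₂ = false) : 0 < (code (shift k u)).1 ∧ (code (shift k u)).1 < 1 := by
  rw [code_shift]
  constructor
  · apply real_pos (n := (n₁ - 1 - k).toNat)
    show u (((n₁ - 1 - k).toNat : ℤ) + 1 + k) = true
    rw [show ((n₁ - 1 - k).toNat : ℤ) + 1 + k = n₁ by omega]
    exact ht
  · apply real_lt_one (n := (n₂ - 1 - k).toNat)
    show u (((n₂ - 1 - k).toNat : ℤ) + 1 + k) = false
    rw [show ((n₂ - 1 - k).toNat : ℤ) + 1 + k = n₂ by omega]
    exact hf

theorem u2_snd {u : ℤ → Bool} {k n₁ n₂ : ℤ} (h1 : n₁ ≤ k) (h2 : n₂ ≤ k) (ht : u n₁ = true)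
    (hf : u n₂ = false) : 0 < (code (shift k u)).2 ∧ (code (shift k u)).2 < 1 := by
  rw [code_shift]
  constructor
  · apply real_pos (n := (k - n₁).toNat)
    show u (-((k - n₁).toNat : ℤ) + k) = true
    rw [show -((k - n₁).toNat : ℤ) + k = n₁ by omega]
    exact ht
  · apply real_lt_one (n := (k - n₂).toNat)
    show u (-((k - n₂).toNat : ℤ) + k) = false
    rw [show -((k - n₂).toNat : ℤ) + k = n₂ by omega]
    exact hf

theorem u2_right {u : ℤ → Bool} (h : ∀ m : ℤ, ∃ n, m ≤ n ∧ u n ≠ u m) (m : ℤ) :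
    (∃ n, m ≤ n ∧ u n = true) ∧ ∃ n, m ≤ n ∧ u n = false := by
  obtain ⟨n, hn, hne⟩ := h m
  cases hm : u m
  · rw [hm] at hne
    exact ⟨⟨n, hn, by simpa using hne⟩, ⟨m, le_refl m, hm⟩⟩
  · rw [hm] at hne
    exact ⟨⟨m, le_refl m, hm⟩, ⟨n, hn, by simpa using hne⟩⟩

theorem u2_left {u : ℤ → Bool} (h : ∀ m : ℤ, ∃ n, n ≤ m ∧ u n ≠ u m) (m : ℤ) :
    (∃ n, n ≤ m ∧ u n = true) ∧ ∃ n, n ≤ m ∧ u n = false := by
  obtain ⟨n, hn, hne⟩ := h m
  cases hm : u m
  · rw [hm] at hne
    exact ⟨⟨n, hn, by simpa using hne⟩, ⟨m, le_refl m, hm⟩⟩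
  · rw [hm] at hne
    exact ⟨⟨m, le_refl m, hm⟩, ⟨n, hn, by simpa using hne⟩⟩

/-- [U2b] Let `H ⊆ ℝ²` and `Bad` such that every occurrence of a bad word in `u` gives a point of the
orbit of `u` which is in `H` as soon as it lies in the open square. (`l` = length of the bad word,
it ends at `n`, the point is `code (shift k u)` with `n - l ≤ k ≤ n`.) Then the survivor set is
countable. PROOF. Let `u` survive and `D = {n | u n ≠ u (n + P)}`, `P = A.S !`. By U2a it is enough to
show that `D` is finite.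

Right side: `D ∩ [0, ∞)` is finite. This is clear if `u` is constant on some `[m, ∞)`. Otherwise
all `(code (shift k u)).1 ∈ (0, 1)` (`real_pos`, `real_lt_one`: the sequence `u (k + 1), u (k + 2), ...`
contains both letters). As `u` is not constant there is `k₀` such that `u` takes both values on
`(-∞, k₀]`, so `(code (shift k u)).2 ∈ (0, 1)` for all `k ≥ k₀`. So no bad word of
length `l ≤ n - k₀` ends at `n`: `Clean Bad u k₀ b` for all `b`. By `few_changes` the set
`D ∩ (k₀, b - P]` has at most `C` elements for all `b`, so `D ∩ (k₀, ∞)` is finite.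

Left side: `D ∩ (-∞, 0]` is finite, in the same way: if `u` is not constant on any `(-∞, m]`, then all
second coordinates are in `(0, 1)` and there is `k₁` with first coordinates in `(0, 1)` for
`k ≤ k₁`, and `Clean Bad u a k₁` for all `a`. -/
theorem survivor_countable (A : Auto) {Bad : ℕ → ℕ → Prop} (hA : A.Valid Bad) (H : Set (ℝ × ℝ))
    (hBad : ∀ (u : ℤ → Bool) (n : ℤ) (l : ℕ), Bad l (pn u n l) →
      ∃ k : ℤ, n - l ≤ k ∧ k ≤ n ∧
        (0 < (code (shift k u)).1 → (code (shift k u)).1 < 1 →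
          0 < (code (shift k u)).2 → (code (shift k u)).2 < 1 → code (shift k u) ∈ H)) :
    (survivor H).Countable := by
  obtain ⟨C, hC⟩ := few_changes A hA
  refine Set.Countable.image (Set.Countable.mono ?_
    (countable_of_finite_changes A.S.factorial (Nat.factorial_pos _))) code
  intro u hu
  have hu' : ∀ k : ℤ, code (shift k u) ∉ H := hu
  show {n : ℤ | u n ≠ u (n + A.S.factorial)}.Finite
  set P : ℤ := (A.S.factorial : ℤ) with hP
  have hP0 : 0 < P := by
    rw [hP]
    exact_mod_cast Nat.factorial_pos _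
  -- right side
  have hright : ∃ k₀ : ℤ, {n : ℤ | k₀ < n ∧ u n ≠ u (n + P)}.Finite := by
    by_cases hc : ∃ m : ℤ, ∀ n, m ≤ n → u n = u m
    · obtain ⟨m, hm⟩ := hc
      refine ⟨m, ?_⟩
      have : {n : ℤ | m < n ∧ u n ≠ u (n + P)} = ∅ := by
        ext n
        simp only [Set.mem_setOf_eq, Set.mem_empty_iff_false, iff_false, not_and, not_not]
        intro hn
        rw [hm n hn.le, hm (n + P) (by omega)]
      rw [this]
      exact Set.finite_empty
    · have hc' : ∀ m : ℤ, ∃ n, m ≤ n ∧ u n ≠ u m := by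
        intro m
        by_contra hcon
        apply hc
        refine ⟨m, fun n hn => ?_⟩
        by_contra hne
        exact hcon ⟨n, hn, hne⟩
      obtain ⟨⟨n₁, -, h1⟩, ⟨n₂, -, h2⟩⟩ := u2_right hc' 0
      refine ⟨max n₁ n₂, ?_⟩
      have hclean : ∀ b, Clean Bad u (max n₁ n₂) b := by
        intro b n hn _ l hl hbad
        obtain ⟨k, hk1, hk2, hk⟩ := hBad u n l hbad
        have hkk : max n₁ n₂ ≤ k := by omega
        obtain ⟨⟨m₁, hm₁, g1⟩, ⟨m₂, hm₂, g2⟩⟩ := u2_right hc' (k + 1)
        have e1 := u2_fst (k := k) (by omega) (by omega) g1 g2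
        have e2 := u2_snd (k := k) (le_trans (le_max_left _ _) hkk)
          (le_trans (le_max_right _ _) hkk) h1 h2
        exact hu' k (hk e1.1 e1.2 e2.1 e2.2)
      apply u2_fin (C := C)
      intro F hF
      obtain ⟨M, hM⟩ := F.bddAbove
      obtain ⟨hfin, hcard⟩ := hC u (max n₁ n₂) (M + P) (hclean _)
      refine le_trans ?_ hcard
      rw [← Set.ncard_coe_finset]
      apply Set.ncard_le_ncard _ hfin
      intro n hn
      have h3 := hF hn
      have h4 : n ≤ M := hM hn
      exact ⟨h3.1, by omega, h3.2⟩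
  have hleft : ∃ k₁ : ℤ, {n : ℤ | n < k₁ ∧ u n ≠ u (n + P)}.Finite := by
    by_cases hc : ∃ m : ℤ, ∀ n, n ≤ m → u n = u m
    · obtain ⟨m, hm⟩ := hc
      refine ⟨m - P, ?_⟩
      have : {n : ℤ | n < m - P ∧ u n ≠ u (n + P)} = ∅ := by
        ext n
        simp only [Set.mem_setOf_eq, Set.mem_empty_iff_false, iff_false, not_and, not_not]
        intro hn
        rw [hm n (by omega), hm (n + P) (by omega)]
      rw [this]
      exact Set.finite_empty
    · have hc' : ∀ m : ℤ, ∃ n, n ≤ m ∧ u n ≠ u m := by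
        intro m
        by_contra hcon
        apply hc
        refine ⟨m, fun n hn => ?_⟩
        by_contra hne
        exact hcon ⟨n, hn, hne⟩
      obtain ⟨⟨n₁, -, h1⟩, ⟨n₂, -, h2⟩⟩ := u2_left hc' 0
      refine ⟨min n₁ n₂ - 1 - P, ?_⟩
      have hclean : ∀ a, Clean Bad u a (min n₁ n₂ - 1) := by
        intro a n hn hn2 l hl hbad
        obtain ⟨k, hk1, hk2, hk⟩ := hBad u n l hbad
        have hkk : k ≤ min n₁ n₂ - 1 := by omega
        obtain ⟨⟨m₁, hm₁, g1⟩, ⟨m₂, hm₂, g2⟩⟩ := u2_left hc' k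
        have e1 := u2_fst (k := k) (n₁ := n₁) (n₂ := n₂) (by omega) (by omega) h1 h2
        have e2 := u2_snd (k := k) hm₁ hm₂ g1 g2
        exact hu' k (hk e1.1 e1.2 e2.1 e2.2)
      apply u2_fin (C := C)
      intro F hF
      obtain ⟨M, hM⟩ := F.bddBelow
      obtain ⟨hfin, hcard⟩ := hC u (M - 1) (min n₁ n₂ - 1) (hclean _)
      refine le_trans ?_ hcard
      rw [← Set.ncard_coe_finset]
      apply Set.ncard_le_ncard _ hfin
      intro n hn
      have h3 := hF hn
      have h4 : M ≤ n := hM hn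
      have h5 : n < min n₁ n₂ - 1 - P := h3.1
      exact ⟨by omega, by omega, h3.2⟩
  obtain ⟨k₀, hk₀⟩ := hright
  obtain ⟨k₁, hk₁⟩ := hleft
  refine Set.Finite.subset ((hk₁.union (Set.finite_Icc k₁ k₀)).union hk₀) ?_
  intro n hn
  by_cases g1 : n < k₁
  · exact Or.inl (Or.inl ⟨g1, hn⟩)
  · by_cases g2 : k₀ < n
    · exact Or.inr ⟨g2, hn⟩
    · exact Or.inl (Or.inr ⟨by omega, by omega⟩)

end BakerTrap
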