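import Pool.Agent.MP_1b0c96_an.L2
import Pool.Agent.MP_1b0c96_an.L3
import Pool.Agent.MP_1b0c96_an.A2
import Pool.Agent.MP_1b0c96_an.U2

/-!
# The checker of the automaton certificate (upper bound)
-/

set_option autoImplicit false

open MeasureTheory

namespace BakerTrap

/-- a transition of a state (length `len`, number `val`, rank `rk`) with the letter `b` -/
def trOK (S NF : ℕ) (get fget : ℕ → ℕ) (len val rk b k t : ℕ) : Bool :=
  match Nat.beq k 0 with
  | true =>
    (Nat.blt t S && Nat.ble (Nat.mod (get t) 128) (Nat.add len 1)) &&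
    (Nat.beq (Nat.mod (Nat.add (Nat.mul 2 val) b) (Nat.pow 2 (Nat.mod (get t) 128)))
      (Nat.div (get t) 2251799813685248) &&
    Nat.ble (Nat.mod (Nat.div (get t) 128) 16384) rk)
  | false =>
    (Nat.blt t NF && Nat.ble (Nat.mod (fget t) 128) (Nat.add len 1)) &&
    Nat.beq (Nat.mod (Nat.add (Nat.mul 2 val) b) (Nat.pow 2 (Nat.mod (fget t) 128)))
      (Nat.div (fget t) 8192)

/-- not both successors have the same rank as the state -/
def oneOK (get : ℕ → ℕ) (rk k0 t0 k1 t1 : ℕ) : Bool :=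
  match Nat.beq (Nat.add k0 k1) 0 with
  | true => !(Nat.beq (Nat.mod (Nat.div (get t0) 128) 16384) rk &&
      Nat.beq (Nat.mod (Nat.div (get t1) 128) 16384) rk)
  | false => true

/-- one state -/
def stOK (S NF : ℕ) (get fget : ℕ → ℕ) (q : ℕ) : Bool :=
  (trOK S NF get fget (Nat.mod q 128) (Nat.div q 2251799813685248)
    (Nat.mod (Nat.div q 128) 16384) 0 (Nat.mod (Nat.div q 2097152) 2)
    (Nat.mod (Nat.div q 4194304) 16384) &&
  trOK S NF get fget (Nat.mod q 128) (Nat.div q 2251799813685248)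
    (Nat.mod (Nat.div q 128) 16384) 1 (Nat.mod (Nat.div q 68719476736) 2)
    (Nat.mod (Nat.div q 137438953472) 16384)) &&
  oneOK get (Nat.mod (Nat.div q 128) 16384) (Nat.mod (Nat.div q 2097152) 2)
    (Nat.mod (Nat.div q 4194304) 16384) (Nat.mod (Nat.div q 68719476736) 2)
    (Nat.mod (Nat.div q 137438953472) 16384)

/-- states `i, ..., i + k - 1` -/
def stRange (S NF : ℕ) (get fget : ℕ → ℕ) : ℕ → ℕ → Bool
  | 0, _ => true
  | k + 1, i =>
    match stOK S NF get fget (get i) with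
    | true => stRange S NF get fget k (Nat.add i 1)
    | false => false

/-- the automaton of a certificate -/
def autoOf (S : ℕ) (get : ℕ → ℕ) : Auto where
  S := S
  len s := get s % 128
  val s := get s / 2251799813685248
  nxt s b :=
    if get s / (if b then 68719476736 else 2097152) % 2 = 0 then
      some (get s / (if b then 137438953472 else 4194304) % 16384) else none
  rk s := get s / 128 % 16384

/-- the forbidden words of a certificate -/
def BadOf (NF : ℕ) (fget : ℕ → ℕ) : ℕ → ℕ → Prop :=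
  fun l v => ∃ t < NF, fget t % 128 = l ∧ fget t / 8192 = v

theorem autoOf_nxt_some {S : ℕ} {get : ℕ → ℕ} {s : ℕ} {b : Bool} {t : ℕ}
    (h : (autoOf S get).nxt s b = some t) :
    get s / (if b then 68719476736 else 2097152) % 2 = 0 ∧
      t = get s / (if b then 137438953472 else 4194304) % 16384 := by
  simp only [autoOf] at h
  split_ifs at h <;> simp_all

theorem autoOf_nxt_none {S : ℕ} {get : ℕ → ℕ} {s : ℕ} {b : Bool}
    (h : (autoOf S get).nxt s b = none) :
    get s / (if b then 68719476736 else 2097152) % 2 ≠ 0 := by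
  simp only [autoOf] at h
  intro h2
  rw [if_pos h2] at h
  simp at h

theorem stOK_tr {S NF : ℕ} {get fget : ℕ → ℕ} {q : ℕ} (h : stOK S NF get fget q = true)
    (b : Bool) : trOK S NF get fget (q % 128) (q / 2251799813685248) (q / 128 % 16384) b.toNat
      (q / (if b then 68719476736 else 2097152) % 2)
      (q / (if b then 137438953472 else 4194304) % 16384) = true := by
  unfold stOK at h
  simp only [Bool.and_eq_true] at h
  cases b with
  | false => exact h.1.1
  | true => exact h.1.2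

theorem auto_valid {S NF : ℕ} {get fget : ℕ → ℕ} (hS : 0 < S)
    (h0 : get 0 % 128 = 0) (h0' : get 0 / 2251799813685248 = 0)
    (h : ∀ s < S, stOK S NF get fget (get s) = true) :
    (autoOf S get).Valid (BadOf NF fget) := by
  have key : ∀ s < S, ∀ b t, (autoOf S get).nxt s b = some t →
      t < S ∧ get t % 128 ≤ get s % 128 + 1 ∧
      (2 * (get s / 2251799813685248) + b.toNat) % 2 ^ (get t % 128) =
        get t / 2251799813685248 ∧ get t / 128 % 16384 ≤ get s / 128 % 16384 := by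
    intro s hs b t hb
    obtain ⟨h1, h2⟩ := autoOf_nxt_some hb
    have h3 := stOK_tr (h s hs) b
    rw [h1, ← h2] at h3
    unfold trOK at h3
    have hz : Nat.beq 0 0 = true := rfl
    rw [hz] at h3
    simp only [Bool.and_eq_true] at h3
    obtain ⟨⟨h4, h5⟩, h6, h7⟩ := h3
    exact ⟨by simpa [Nat.blt] using h4, Nat.le_of_ble_eq_true h5, Nat.eq_of_beq_eq_true h6,
      Nat.le_of_ble_eq_true h7⟩
  refine ⟨hS, h0, h0', fun s hs b t hb => (key s hs b t hb).1,
    fun s hs b t hb => (key s hs b t hb).2.1, fun s hs b t hb => (key s hs b t hb).2.2.1, ?_,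
    fun s hs b t hb => (key s hs b t hb).2.2.2, ?_⟩
  · intro s hs b hb
    have h1 := autoOf_nxt_none hb
    have h3 := stOK_tr (h s hs) b
    have h4 : Nat.beq (get s / (if b then 68719476736 else 2097152) % 2) 0 = false := by
      cases h5 : Nat.beq (get s / (if b then 68719476736 else 2097152) % 2) 0 with
      | false => rfl
      | true => exact absurd (Nat.eq_of_beq_eq_true h5) h1
    unfold trOK at h3
    rw [h4] at h3
    simp only [Bool.and_eq_true] at h3
    obtain ⟨⟨h6, h7⟩, h8⟩ := h3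
    exact ⟨_, _, Nat.le_of_ble_eq_true h7, ⟨_, by simpa [Nat.blt] using h6, rfl, rfl⟩,
      Nat.eq_of_beq_eq_true h8⟩
  · intro s hs t t' ht ht'
    obtain ⟨h1, h2⟩ := autoOf_nxt_some ht
    obtain ⟨h1', h2'⟩ := autoOf_nxt_some ht'
    have h3 := h s hs
    unfold stOK at h3
    simp only [Bool.and_eq_true] at h3
    have h4 := h3.2
    rintro ⟨h5, h6⟩
    simp only [Bool.false_eq_true, if_false, if_true] at h1 h2 h1' h2'
    unfold oneOK at h4
    have e1 : Nat.mod (Nat.div (get s) 2097152) 2 = 0 := h1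
    have e2 : Nat.mod (Nat.div (get s) 68719476736) 2 = 0 := h1'
    have e3 : Nat.mod (Nat.div (get s) 4194304) 16384 = t := h2.symm
    have e4 : Nat.mod (Nat.div (get s) 137438953472) 16384 = t' := h2'.symm
    rw [e1, e2, e3, e4] at h4
    have e5 : Nat.mod (Nat.div (get t) 128) 16384 = Nat.mod (Nat.div (get s) 128) 16384 := h5
    have e6 : Nat.mod (Nat.div (get t') 128) 16384 = Nat.mod (Nat.div (get s) 128) 16384 := h6
    rw [e5, e6] at h4
    simp at h4

theorem stRange_sound {S NF : ℕ} {get fget : ℕ → ℕ} :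
    ∀ (k i : ℕ), stRange S NF get fget k i = true →
      ∀ j, i ≤ j → j < i + k → stOK S NF get fget (get j) = true := by
  intro k
  induction k with
  | zero =>
    intro i _ j h1 h2
    omega
  | succ k ih =>
    intro i h j h1 h2
    unfold stRange at h
    cases h3 : stOK S NF get fget (get i) with
    | false =>
      rw [h3] at h
      simp at h
    | true =>
      rw [h3] at h
      simp only at h
      rcases Nat.eq_or_lt_of_le h1 with rfl | h4
      · exact h3
      · exact ih (i + 1) h j h4 (by omega)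

/-! ## digits -/

theorem pn_succ' (u : ℤ → Bool) (n : ℤ) (len : ℕ) :
    pn u n (len + 1) = 2 * pn u (n - 1) len + (u n).toNat := by
  have h := pn_succ u (n - 1) len
  rwa [sub_add_cancel] at h

theorem pn_eq_bn (u : ℤ → Bool) (n : ℤ) (j : ℕ) :
    pn u n j = bn (fun t => u (n - j + 1 + t)) j := by
  induction j generalizing n with
  | zero => rfl
  | succ j ih =>
    rw [pn_succ', ih]
    simp only [bn]
    congr 2
    · apply bn_congr
      intro t _
      congr 1
      push_cast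
      ring
    · congr 1
      push_cast
      ring

theorem bn_first (f : ℕ → Bool) (d : ℕ) :
    bn f (d + 1) = (f 0).toNat * 2 ^ d + bn (fun t => f (t + 1)) d := by
  induction d with
  | zero => simp [bn]
  | succ d ih =>
    have h1 : bn f (d + 1 + 1) = 2 * bn f (d + 1) + (f (d + 1)).toNat := rfl
    have h2 : bn (fun t => f (t + 1)) (d + 1) =
      2 * bn (fun t => f (t + 1)) d + (f (d + 1)).toNat := rfl
    rw [h1, h2, ih, pow_succ]
    ring

theorem rev_pn (u : ℤ → Bool) (d : ℕ) : ∀ (k : ℤ) (acc : ℕ),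
    rev d (pn u k d) acc = acc * 2 ^ d + bn (fun t => u (k - t)) d := by
  induction d with
  | zero =>
    intro k acc
    simp [rev, bn]
  | succ d ih =>
    intro k acc
    have h1 : rev (d + 1) (pn u k (d + 1)) acc =
      rev d (pn u k (d + 1) / 2) (2 * acc + pn u k (d + 1) % 2) := rfl
    have h2 : pn u k (d + 1) / 2 = pn u (k - 1) d := by
      rw [pn_succ']
      have : (u k).toNat < 2 := Bool.toNat_lt _
      omega
    have h3 : pn u k (d + 1) % 2 = (u k).toNat := by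
      rw [pn_succ']
      have : (u k).toNat < 2 := Bool.toNat_lt _
      omega
    rw [h1, h2, h3, ih, bn_first]
    have h4 : bn (fun t => u (k - 1 - t)) d = bn (fun t => (fun t : ℕ => u (k - t)) (t + 1)) d := by
      apply bn_congr
      intro t _
      simp only
      congr 1
      push_cast
      ring
    rw [h4, pow_succ]
    simp only [Nat.cast_zero, sub_zero]
    ring

theorem pn_div (u : ℤ → Bool) (n : ℤ) (j d : ℕ) :
    pn u n (j + d) / 2 ^ j = pn u (n - j) d := by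
  induction j generalizing n with
  | zero => simp
  | succ j ih =>
    rw [show j + 1 + d = j + d + 1 by omega, pn_succ', pow_succ', ← Nat.div_div_eq_div_mul]
    have : (u n).toNat < 2 := Bool.toNat_lt _
    rw [show (2 * pn u (n - 1) (j + d) + (u n).toNat) / 2 = pn u (n - 1) (j + d) by omega, ih]
    congr 1
    push_cast
    ring

/-! ## the polygon -/

/-- real coordinates of a vertex (`+ 1` in both coordinates, scaled by `2 ^ 48`) -/
noncomputable def vt (z : ℕ × ℕ) : ℝ × ℝ := ((z.1 : ℝ) / 2 ^ 48 - 1, (z.2 : ℝ) / 2 ^ 48 - 1)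

theorem cr_vt (a b c : ℕ × ℕ) : cr (vt a) (vt b) (vt c) =
    (((b.1 : ℝ) - a.1) * ((c.2 : ℝ) - a.2) - ((b.2 : ℝ) - a.2) * ((c.1 : ℝ) - a.1)) /
      (2 ^ 48 * 2 ^ 48) := by
  simp only [cr, vt]
  field_simp
  ring

theorem cp_pos {a b c : ℕ × ℕ} (h : cp a.1 a.2 b.1 b.2 c.1 c.2 ≠ 0) :
    0 < cr (vt a) (vt b) (vt c) := by
  have e1 : cp a.1 a.2 b.1 b.2 c.1 c.2 =
    (b.1 * c.2 + b.2 * a.1 + a.2 * c.1) - (b.1 * a.2 + a.1 * c.2 + b.2 * c.1) := rfl
  rw [e1] at h
  have h1 : b.1 * a.2 + a.1 * c.2 + b.2 * c.1 < b.1 * c.2 + b.2 * a.1 + a.2 * c.1 := by omega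
  have h2 : ((b.1 * a.2 + a.1 * c.2 + b.2 * c.1 : ℕ) : ℝ) <
    ((b.1 * c.2 + b.2 * a.1 + a.2 * c.1 : ℕ) : ℝ) := by exact_mod_cast h1
  push_cast at h2
  rw [cr_vt]
  apply div_pos _ (by positivity)
  nlinarith

/-- the four corners of a box are strictly to the left of all edges of the polygonal line -/
def boxLeft (x0 x1 y0 y1 fx fy : ℕ) : ℕ → ℕ → List (ℕ × ℕ) → Bool
  | ax, ay, [] =>
    !(Nat.beq (cp ax ay fx fy x0 y0) 0) && !(Nat.beq (cp ax ay fx fy x0 y1) 0) &&
    !(Nat.beq (cp ax ay fx fy x1 y0) 0) && !(Nat.beq (cp ax ay fx fy x1 y1) 0)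
  | ax, ay, (bx, b_y) :: l =>
    (!(Nat.beq (cp ax ay bx b_y x0 y0) 0) && !(Nat.beq (cp ax ay bx b_y x0 y1) 0) &&
    !(Nat.beq (cp ax ay bx b_y x1 y0) 0) && !(Nat.beq (cp ax ay bx b_y x1 y1) 0)) &&
    boxLeft x0 x1 y0 y1 fx fy bx b_y l

theorem boxLeft_sound {x0 x1 y0 y1 : ℕ} {f a : ℕ × ℕ} {l : List (ℕ × ℕ)}
    (h : boxLeft x0 x1 y0 y1 f.1 f.2 a.1 a.2 l = true) :
    ∀ e ∈ edl f a l, 0 < cr (vt e.1) (vt e.2) (vt (x0, y0)) ∧
      0 < cr (vt e.1) (vt e.2) (vt (x0, y1)) ∧ 0 < cr (vt e.1) (vt e.2) (vt (x1, y0)) ∧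
      0 < cr (vt e.1) (vt e.2) (vt (x1, y1)) := by
  induction l generalizing a with
  | nil =>
    intro e he
    rw [edl, List.mem_singleton] at he
    subst he
    unfold boxLeft at h
    simp only [Bool.and_eq_true, Bool.not_eq_true'] at h
    obtain ⟨⟨⟨h1, h2⟩, h3⟩, h4⟩ := h
    exact ⟨cp_pos (c := (x0, y0)) (Nat.ne_of_beq_eq_false h1),
      cp_pos (c := (x0, y1)) (Nat.ne_of_beq_eq_false h2),
      cp_pos (c := (x1, y0)) (Nat.ne_of_beq_eq_false h3),
      cp_pos (c := (x1, y1)) (Nat.ne_of_beq_eq_false h4)⟩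
  | cons b l ih =>
    intro e he
    rw [edl, List.mem_cons] at he
    unfold boxLeft at h
    simp only [Bool.and_eq_true, Bool.not_eq_true'] at h
    obtain ⟨⟨⟨⟨h1, h2⟩, h3⟩, h4⟩, h5⟩ := h
    rcases he with rfl | he
    · exact ⟨cp_pos (b := b) (c := (x0, y0)) (Nat.ne_of_beq_eq_false h1),
        cp_pos (b := b) (c := (x0, y1)) (Nat.ne_of_beq_eq_false h2),
        cp_pos (b := b) (c := (x1, y0)) (Nat.ne_of_beq_eq_false h3),
        cp_pos (b := b) (c := (x1, y1)) (Nat.ne_of_beq_eq_false h4)⟩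
    · exact ih h5 e he

theorem affine_box {A B C x0 x1 y0 y1 x y : ℝ} (h1 : 0 < A + B * x0 + C * y0)
    (h2 : 0 < A + B * x0 + C * y1) (h3 : 0 < A + B * x1 + C * y0) (h4 : 0 < A + B * x1 + C * y1)
    (hx0 : x0 ≤ x) (hx1 : x ≤ x1) (hy0 : y0 ≤ y) (hy1 : y ≤ y1) : 0 < A + B * x + C * y := by
  rcases le_total 0 B with hB | hB <;> rcases le_total 0 C with hC | hC
  · nlinarith [mul_le_mul_of_nonneg_left hx0 hB, mul_le_mul_of_nonneg_left hy0 hC]
  · nlinarith [mul_le_mul_of_nonneg_left hx0 hB, mul_le_mul_of_nonpos_left hy1 hC]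
  · nlinarith [mul_le_mul_of_nonpos_left hx1 hB, mul_le_mul_of_nonneg_left hy0 hC]
  · nlinarith [mul_le_mul_of_nonpos_left hx1 hB, mul_le_mul_of_nonpos_left hy1 hC]

theorem cr_box {a b : ℝ × ℝ} {x0 x1 y0 y1 : ℝ} {z : ℝ × ℝ} (h1 : 0 < cr a b (x0, y0))
    (h2 : 0 < cr a b (x0, y1)) (h3 : 0 < cr a b (x1, y0)) (h4 : 0 < cr a b (x1, y1))
    (hx0 : x0 ≤ z.1) (hx1 : z.1 ≤ x1) (hy0 : y0 ≤ z.2) (hy1 : z.2 ≤ y1) : 0 < cr a b z := by
  have e : ∀ w : ℝ × ℝ, cr a b w = ((b.2 - a.2) * a.1 - (b.1 - a.1) * a.2) +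
      (-(b.2 - a.2)) * w.1 + (b.1 - a.1) * w.2 := by
    intro w
    unfold cr
    ring
  rw [e] at h1 h2 h3 h4 ⊢
  exact affine_box h1 h2 h3 h4 hx0 hx1 hy0 hy1

/-- check of one forbidden word -/
def boxOK (vx vy : ℕ) (l : List (ℕ × ℕ)) (q : ℕ) : Bool :=
  let len := Nat.mod q 128
  let j := Nat.mod (Nat.div q 128) 64
  let v := Nat.div q 8192
  let d := Nat.sub len j
  let x0 := Nat.add (Nat.mul (Nat.mod v (Nat.pow 2 j)) (Nat.pow 2 (Nat.sub 48 j))) 281474976710656
  let x1 := Nat.add x0 (Nat.pow 2 (Nat.sub 48 j))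
  let y0 := Nat.add (Nat.mul (rev d (Nat.div v (Nat.pow 2 j)) 0) (Nat.pow 2 (Nat.sub 48 d)))
    281474976710656
  let y1 := Nat.add y0 (Nat.pow 2 (Nat.sub 48 d))
  Nat.ble j len && Nat.ble j 48 && Nat.ble d 48 && boxLeft x0 x1 y0 y1 vx vy vx vy l

/-- the open polygon -/
def poly (v : ℕ × ℕ) (l : List (ℕ × ℕ)) : Set (ℝ × ℝ) :=
  {z | ∀ e ∈ edl v v l, 0 < cr (vt e.1) (vt e.2) z}

/-- the hole of the certificate -/
def hole (v : ℕ × ℕ) (l : List (ℕ × ℕ)) : Set (ℝ × ℝ) :=
  poly v l ∩ (Set.Ioo 0 1 ×ˢ Set.Ioo 0 1)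

theorem vt_dyadic {j X : ℕ} (hj : j ≤ 48) (Y : ℕ) :
    (vt (X * 2 ^ (48 - j) + 281474976710656, Y)).1 = (X : ℝ) / 2 ^ j := by
  have h : (2 : ℝ) ^ 48 = 2 ^ (48 - j) * 2 ^ j := by
    rw [← pow_add]
    congr 1
    omega
  simp only [vt]
  rw [h]
  have h2 : (281474976710656 : ℝ) = 2 ^ (48 - j) * 2 ^ j := by
    rw [← h]
    norm_num
  push_cast
  rw [h2]
  field_simp
  ring

theorem box_sound {v : ℕ × ℕ} {l : List (ℕ × ℕ)} {q : ℕ} (h : boxOK v.1 v.2 l q = true)
    (u : ℤ → Bool) (n : ℤ) (hq : q / 8192 = pn u n (q % 128)) :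
    ∃ k : ℤ, n - (q % 128 : ℕ) ≤ k ∧ k ≤ n ∧ code (shift k u) ∈ poly v l := by
  unfold boxOK at h
  simp only [Bool.and_eq_true] at h
  obtain ⟨⟨⟨h1, h2⟩, h3⟩, h4⟩ := h
  have h1 := Nat.le_of_ble_eq_true h1
  have h2 := Nat.le_of_ble_eq_true h2
  have h3 := Nat.le_of_ble_eq_true h3
  set len := q % 128 with hlen
  set j := q / 128 % 64 with hj
  have e1 : Nat.mod q 128 = len := rfl
  have e2 : Nat.mod (Nat.div q 128) 64 = j := rfl
  have e3 : Nat.div q 8192 = pn u n len := hq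
  rw [e1, e2] at h1 h3 h4
  rw [e2] at h2
  rw [e3] at h4
  have h1' : j ≤ len := h1
  have h2' : j ≤ 48 := h2
  have h3' : len - j ≤ 48 := h3
  obtain ⟨d, hd⟩ : ∃ d, len = j + d := ⟨len - j, by omega⟩
  have hd' : len - j = d := by omega
  have eX : Nat.mod (pn u n len) (Nat.pow 2 j) = bn (fun t => u (n - j + 1 + t)) j := by
    have := pn_mod u n h1'
    rw [← pn_eq_bn]
    exact this
  have eY : rev (Nat.sub len j) (Nat.div (pn u n len) (Nat.pow 2 j)) 0 =
      bn (fun t => u (n - j - t)) d := by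
    have e4 : Nat.sub len j = d := hd'
    have e5 : Nat.div (pn u n len) (Nat.pow 2 j) = pn u (n - j) d := by
      rw [hd]
      exact pn_div u n j d
    rw [e4, e5, rev_pn, zero_mul, zero_add]
  rw [eX, eY] at h4
  have h5 := boxLeft_sound h4
  refine ⟨n - j, by omega, by omega, ?_⟩
  intro e he
  obtain ⟨g1, g2, g3, g4⟩ := h5 e he
  have hx := real_mem (fun m => u (m + 1 + (n - j))) j
  have hy := real_mem (fun m => u (-m + (n - j))) d
  have hX : bn (fun m => u (m + 1 + (n - j))) j = bn (fun t => u (n - j + 1 + t)) j := by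
    apply bn_congr
    intro t _
    congr 1
    ring
  have hY : bn (fun m => u (-m + (n - j))) d = bn (fun t => u (n - j - t)) d := by
    apply bn_congr
    intro t _
    congr 1
    ring
  rw [hX] at hx
  rw [hY] at hy
  rw [code_shift]
  generalize bn (fun t => u (n - j + 1 + t)) j = XX at *
  generalize bn (fun t => u (n - j - t)) d = YY at *
  have c1 : ∀ Y, (vt (Nat.add (Nat.mul XX (Nat.pow 2 (Nat.sub 48 j))) 281474976710656, Y)).1 =
      (XX : ℝ) / 2 ^ j := fun Y => vt_dyadic h2' Y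
  have c2 : ∀ Y, (vt (Nat.add (Nat.add (Nat.mul XX (Nat.pow 2 (Nat.sub 48 j))) 281474976710656)
      (Nat.pow 2 (Nat.sub 48 j)), Y)).1 = ((XX : ℝ) + 1) / 2 ^ j := by
    intro Y
    have := vt_dyadic (X := XX + 1) h2' Y
    rw [Nat.cast_add, Nat.cast_one] at this
    rw [← this]
    congr 3
    change XX * 2 ^ (48 - j) + 281474976710656 + 2 ^ (48 - j) =
      (XX + 1) * 2 ^ (48 - j) + 281474976710656
    ring
  have sw : ∀ a b : ℕ, (vt (a, b)).2 = (vt (b, a)).1 := fun a b => rfl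
  have d1 : ∀ Y, (vt (Y, Nat.add (Nat.mul YY (Nat.pow 2 (Nat.sub 48 (Nat.sub len j))))
      281474976710656)).2 = (YY : ℝ) / 2 ^ d := by
    intro Y
    have e4 : Nat.sub len j = d := hd'
    rw [sw, e4]
    exact vt_dyadic (by omega) Y
  have d2 : ∀ Y, (vt (Y, Nat.add (Nat.add (Nat.mul YY (Nat.pow 2 (Nat.sub 48 (Nat.sub len j))))
      281474976710656) (Nat.pow 2 (Nat.sub 48 (Nat.sub len j))))).2 = ((YY : ℝ) + 1) / 2 ^ d := by
    intro Y
    have e4 : Nat.sub len j = d := hd'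
    rw [sw, e4]
    have := vt_dyadic (j := d) (X := YY + 1) (by omega) Y
    rw [Nat.cast_add, Nat.cast_one] at this
    rw [← this]
    congr 3
    change YY * 2 ^ (48 - d) + 281474976710656 + 2 ^ (48 - d) =
      (YY + 1) * 2 ^ (48 - d) + 281474976710656
    ring
  have ext : ∀ (w : ℕ × ℕ) (r s : ℝ), (vt w).1 = r → (vt w).2 = s → vt w = (r, s) := by
    intro w r s hr hs
    rw [← hr, ← hs]
  have p1 := ext _ _ _ (c1 _) (d1 _)
  have p2 := ext _ _ _ (c1 _) (d2 _)
  have p3 := ext _ _ _ (c2 _) (d1 _)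
  have p4 := ext _ _ _ (c2 _) (d2 _)
  rw [p1] at g1
  rw [p2] at g2
  rw [p3] at g3
  rw [p4] at g4
  exact cr_box g1 g2 g3 g4 hx.1 hx.2 hy.1 hy.2

end BakerTrap
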