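import Pool.Agent.MP_1b0c96_an.U3

/-!
# Soundness of the automaton certificate (upper bound)
-/

set_option autoImplicit false

open MeasureTheory

namespace BakerTrap

theorem poly_list_open (L : List ((ℕ × ℕ) × (ℕ × ℕ))) :
    IsOpen {z : ℝ × ℝ | ∀ e ∈ L, 0 < cr (vt e.1) (vt e.2) z} := by
  induction L with
  | nil =>
    convert isOpen_univ
    simp
  | cons a L ih =>
    have h : {z : ℝ × ℝ | ∀ e ∈ a :: L, 0 < cr (vt e.1) (vt e.2) z} =
        {z : ℝ × ℝ | 0 < cr (vt a.1) (vt a.2) z} ∩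
          {z : ℝ × ℝ | ∀ e ∈ L, 0 < cr (vt e.1) (vt e.2) z} := by
      ext z
      simp [List.mem_cons]
    rw [h]
    refine IsOpen.inter (isOpen_lt continuous_const ?_) ih
    unfold cr
    fun_prop

theorem poly_open (v : ℕ × ℕ) (l : List (ℕ × ℕ)) : IsOpen (poly v l) :=
  poly_list_open (edl v v l)

theorem poly_convex (v : ℕ × ℕ) (l : List (ℕ × ℕ)) : Convex ℝ (poly v l) := by
  intro z hz w hw a b ha hb hab e he
  have h1 := hz e he
  have h2 := hw e he
  have h3 : cr (vt e.1) (vt e.2) (a • z + b • w) =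
      a * cr (vt e.1) (vt e.2) z + b * cr (vt e.1) (vt e.2) w := by
    have hb' : b = 1 - a := by linarith
    subst hb'
    simp only [cr, Prod.fst_add, Prod.snd_add, Prod.smul_fst, Prod.smul_snd, smul_eq_mul]
    ring
  rw [h3]
  rcases ha.eq_or_lt with h4 | h4
  · rw [← h4] at hab ⊢
    rw [zero_add] at hab
    rw [hab]
    linarith
  · have := mul_pos h4 h1
    have := mul_nonneg hb h2.le
    linarith

theorem hole_open (v : ℕ × ℕ) (l : List (ℕ × ℕ)) : IsOpen (hole v l) :=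
  (poly_open v l).inter (isOpen_Ioo.prod isOpen_Ioo)

theorem hole_convex (v : ℕ × ℕ) (l : List (ℕ × ℕ)) : Convex ℝ (hole v l) :=
  (poly_convex v l).inter ((convex_Ioo 0 1).prod (convex_Ioo 0 1))

theorem hole_sub (v : ℕ × ℕ) (l : List (ℕ × ℕ)) : hole v l ⊆ X := by
  rintro z ⟨-, h1, h2⟩
  exact ⟨Set.Ioo_subset_Icc_self h1, Set.Ioo_subset_Icc_self h2⟩

/-- the hole of a valid certificate is a trap -/
theorem hole_trap {S NF : ℕ} {get fget : ℕ → ℕ} {v : ℕ × ℕ} {l : List (ℕ × ℕ)} (hS : 0 < S)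
    (h0 : get 0 % 128 = 0) (h0' : get 0 / 2251799813685248 = 0)
    (h : ∀ s < S, stOK S NF get fget (get s) = true)
    (hb : ∀ t < NF, boxOK v.1 v.2 l (fget t) = true) : ConvexTrap (hole v l) := by
  refine ⟨hole_sub v l, ⟨hole v l, hole_open v l, ?_⟩, hole_convex v l, ?_⟩
  · exact (Set.inter_eq_left.2 (hole_sub v l)).symm
  · refine Set.Countable.dimH_zero ?_
    refine survivor_countable (autoOf S get) (auto_valid hS h0 h0' h) _ ?_
    rintro u n len ⟨t, ht, h1, h2⟩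
    obtain ⟨k, hk1, hk2, hk3⟩ := box_sound (hb t ht) u n (by rw [h1, h2])
    rw [h1] at hk1
    refine ⟨k, hk1, hk2, ?_⟩
    intro a1 a2 a3 a4
    exact ⟨hk3, ⟨a1, a2⟩, ⟨a3, a4⟩⟩

/-- boxes `i, ..., i + k - 1` -/
def boxRange (vx vy : ℕ) (l : List (ℕ × ℕ)) (fget : ℕ → ℕ) : ℕ → ℕ → Bool
  | 0, _ => true
  | k + 1, i =>
    match boxOK vx vy l (fget i) with
    | true => boxRange vx vy l fget k (Nat.add i 1)
    | false => false

theorem boxRange_sound {vx vy : ℕ} {l : List (ℕ × ℕ)} {fget : ℕ → ℕ} :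
    ∀ (k i : ℕ), boxRange vx vy l fget k i = true →
      ∀ j, i ≤ j → j < i + k → boxOK vx vy l (fget j) = true := by
  intro k
  induction k with
  | zero =>
    intro i _ j h1 h2
    omega
  | succ k ih =>
    intro i h j h1 h2
    unfold boxRange at h
    cases h3 : boxOK vx vy l (fget i) with
    | false =>
      rw [h3] at h
      simp at h
    | true =>
      rw [h3] at h
      simp only at h
      rcases Nat.eq_or_lt_of_le h1 with rfl | h4
      · exact h3
      · exact ih (i + 1) h j h4 (by omega)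

/-! ## the area -/

theorem edl_chain (z : ℝ × ℝ) (f a : ℕ × ℕ) (l : List (ℕ × ℕ))
    (h : ∀ e ∈ edl f a l, 0 < cr (vt e.1) (vt e.2) z) :
    (vt a :: l.map vt).IsChain (fun a b => 0 < cr a b z) ∧
      0 < cr ((vt a :: l.map vt).getLast (List.cons_ne_nil _ _)) (vt f) z := by
  induction l generalizing a with
  | nil =>
    refine ⟨by simp, ?_⟩
    exact h (a, f) (by simp [edl])
  | cons b l ih =>
    obtain ⟨h1, h2⟩ := ih b (fun e he => h e (by
      rw [edl]
      exact List.mem_cons_of_mem _ he))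
    refine ⟨?_, ?_⟩
    · rw [List.map_cons, List.isChain_cons_cons]
      exact ⟨h (a, b) (by
        rw [edl]
        exact List.mem_cons_self), h1⟩
    · rw [List.map_cons, List.getLast_cons (List.cons_ne_nil _ _)]
      exact h2

/-- all triangles of the fan from `(vx, vy)` are positively oriented -/
def triOK (vx vy : ℕ) : ℕ → ℕ → List (ℕ × ℕ) → Bool
  | _, _, [] => true
  | px, py, (qx, qy) :: l => !(Nat.beq (cp vx vy px py qx qy) 0) && triOK vx vy qx qy l

/-- the doubled area of the fan from `(vx, vy)` -/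
def tri (vx vy : ℕ) : ℕ → ℕ → List (ℕ × ℕ) → ℕ
  | _, _, [] => 0
  | px, py, (qx, qy) :: l => Nat.add (cp vx vy px py qx qy) (tri vx vy qx qy l)

theorem cp_abs {a b c : ℕ × ℕ} (h : cp a.1 a.2 b.1 b.2 c.1 c.2 ≠ 0) :
    |cr (vt a) (vt b) (vt c)| / 2 = (cp a.1 a.2 b.1 b.2 c.1 c.2 : ℝ) / 2 ^ 97 := by
  rw [abs_of_pos (cp_pos h), cr_vt]
  have e1 : cp a.1 a.2 b.1 b.2 c.1 c.2 =
    (b.1 * c.2 + b.2 * a.1 + a.2 * c.1) - (b.1 * a.2 + a.1 * c.2 + b.2 * c.1) := rfl
  rw [e1] at h ⊢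
  have h1 : b.1 * a.2 + a.1 * c.2 + b.2 * c.1 ≤ b.1 * c.2 + b.2 * a.1 + a.2 * c.1 := by omega
  rw [Nat.cast_sub h1]
  push_cast
  ring

theorem tri_eq (v p : ℕ × ℕ) (l : List (ℕ × ℕ)) (h : triOK v.1 v.2 p.1 p.2 l = true) :
    (List.zipWith (fun a b => |cr (vt v) a b| / 2) (vt p :: l.map vt) (l.map vt)).sum =
      (tri v.1 v.2 p.1 p.2 l : ℝ) / 2 ^ 97 := by
  induction l generalizing p with
  | nil => simp [tri]
  | cons q l ih =>
    have h' : (!(Nat.beq (cp v.1 v.2 p.1 p.2 q.1 q.2) 0) && triOK v.1 v.2 q.1 q.2 l) = true := h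
    rw [Bool.and_eq_true, Bool.not_eq_true'] at h'
    have h1 := cp_abs (a := v) (b := p) (c := q) (Nat.ne_of_beq_eq_false h'.1)
    have h2 := ih q h'.2
    have h3 : tri v.1 v.2 p.1 p.2 (q :: l) =
      cp v.1 v.2 p.1 p.2 q.1 q.2 + tri v.1 v.2 q.1 q.2 l := rfl
    rw [h3]
    simp only [List.map_cons, List.zipWith_cons_cons, List.sum_cons]
    rw [h1, h2]
    push_cast
    ring

theorem hole_area {v p : ℕ × ℕ} {l : List (ℕ × ℕ)} (h : triOK v.1 v.2 p.1 p.2 l = true) :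
    (volume (hole v (p :: l))).toReal ≤ (tri v.1 v.2 p.1 p.2 l : ℝ) / 2 ^ 97 := by
  have h1 : volume (hole v (p :: l)) ≤ ENNReal.ofReal ((tri v.1 v.2 p.1 p.2 l : ℝ) / 2 ^ 97) := by
    rw [← tri_eq v p l h]
    refine (measure_mono ?_).trans (polygon_area_le (vt v) (vt p) (l.map vt))
    rintro z ⟨hz, -⟩
    have h2 : ∀ e ∈ edl v v (p :: l), 0 < cr (vt e.1) (vt e.2) z := hz
    rw [edl] at h2
    obtain ⟨h3, h4⟩ := edl_chain z v p l (fun e he => h2 e (List.mem_cons_of_mem _ he))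
    exact ⟨h2 (v, p) List.mem_cons_self, h3, h4⟩
  exact ENNReal.toReal_le_of_le_ofReal (by positivity) h1

end BakerTrap
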