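import Pool.Agent.MP_1b0c96_an.UD
import Pool.Agent.MP_1b0c96_an.U4

/-!
# Kernel check of the automaton certificate (upper bound)
-/

set_option autoImplicit false
set_option maxRecDepth 100000

open MeasureTheory

namespace BakerTrap

theorem ucheck_0 : stRange 15115 996 utree.get ftree.get 300 0 = true := by
  decide +kernel

theorem ucheck_1 : stRange 15115 996 utree.get ftree.get 300 300 = true := by
  decide +kernel

theorem ucheck_2 : stRange 15115 996 utree.get ftree.get 300 600 = true := by
  decide +kernel

theorem ucheck_3 : stRange 15115 996 utree.get ftree.get 300 900 = true := by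
  decide +kernel

theorem ucheck_4 : stRange 15115 996 utree.get ftree.get 300 1200 = true := by
  decide +kernel

theorem ucheck_5 : stRange 15115 996 utree.get ftree.get 300 1500 = true := by
  decide +kernel

theorem ucheck_6 : stRange 15115 996 utree.get ftree.get 300 1800 = true := by
  decide +kernel

theorem ucheck_7 : stRange 15115 996 utree.get ftree.get 300 2100 = true := by
  decide +kernel

theorem ucheck_8 : stRange 15115 996 utree.get ftree.get 300 2400 = true := by
  decide +kernel

theorem ucheck_9 : stRange 15115 996 utree.get ftree.get 300 2700 = true := by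
  decide +kernel

theorem ucheck_10 : stRange 15115 996 utree.get ftree.get 300 3000 = true := by
  decide +kernel

theorem ucheck_11 : stRange 15115 996 utree.get ftree.get 300 3300 = true := by
  decide +kernel

theorem ucheck_12 : stRange 15115 996 utree.get ftree.get 300 3600 = true := by
  decide +kernel

theorem ucheck_13 : stRange 15115 996 utree.get ftree.get 300 3900 = true := by
  decide +kernel

theorem ucheck_14 : stRange 15115 996 utree.get ftree.get 300 4200 = true := by
  decide +kernel

theorem ucheck_15 : stRange 15115 996 utree.get ftree.get 300 4500 = true := by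
  decide +kernel

theorem ucheck_16 : stRange 15115 996 utree.get ftree.get 300 4800 = true := by
  decide +kernel

theorem ucheck_17 : stRange 15115 996 utree.get ftree.get 300 5100 = true := by
  decide +kernel

theorem ucheck_18 : stRange 15115 996 utree.get ftree.get 300 5400 = true := by
  decide +kernel

theorem ucheck_19 : stRange 15115 996 utree.get ftree.get 300 5700 = true := by
  decide +kernel

theorem ucheck_20 : stRange 15115 996 utree.get ftree.get 300 6000 = true := by
  decide +kernel

theorem ucheck_21 : stRange 15115 996 utree.get ftree.get 300 6300 = true := by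
  decide +kernel

theorem ucheck_22 : stRange 15115 996 utree.get ftree.get 300 6600 = true := by
  decide +kernel

theorem ucheck_23 : stRange 15115 996 utree.get ftree.get 300 6900 = true := by
  decide +kernel

theorem ucheck_24 : stRange 15115 996 utree.get ftree.get 300 7200 = true := by
  decide +kernel

theorem ucheck_25 : stRange 15115 996 utree.get ftree.get 300 7500 = true := by
  decide +kernel

theorem ucheck_26 : stRange 15115 996 utree.get ftree.get 300 7800 = true := by
  decide +kernel

theorem ucheck_27 : stRange 15115 996 utree.get ftree.get 300 8100 = true := by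
  decide +kernel

theorem ucheck_28 : stRange 15115 996 utree.get ftree.get 300 8400 = true := by
  decide +kernel

theorem ucheck_29 : stRange 15115 996 utree.get ftree.get 300 8700 = true := by
  decide +kernel

theorem ucheck_30 : stRange 15115 996 utree.get ftree.get 300 9000 = true := by
  decide +kernel

theorem ucheck_31 : stRange 15115 996 utree.get ftree.get 300 9300 = true := by
  decide +kernel

theorem ucheck_32 : stRange 15115 996 utree.get ftree.get 300 9600 = true := by
  decide +kernel

theorem ucheck_33 : stRange 15115 996 utree.get ftree.get 300 9900 = true := by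
  decide +kernel

theorem ucheck_34 : stRange 15115 996 utree.get ftree.get 300 10200 = true := by
  decide +kernel

theorem ucheck_35 : stRange 15115 996 utree.get ftree.get 300 10500 = true := by
  decide +kernel

theorem ucheck_36 : stRange 15115 996 utree.get ftree.get 300 10800 = true := by
  decide +kernel

theorem ucheck_37 : stRange 15115 996 utree.get ftree.get 300 11100 = true := by
  decide +kernel

theorem ucheck_38 : stRange 15115 996 utree.get ftree.get 300 11400 = true := by
  decide +kernel

theorem ucheck_39 : stRange 15115 996 utree.get ftree.get 300 11700 = true := by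
  decide +kernel

theorem ucheck_40 : stRange 15115 996 utree.get ftree.get 300 12000 = true := by
  decide +kernel

theorem ucheck_41 : stRange 15115 996 utree.get ftree.get 300 12300 = true := by
  decide +kernel

theorem ucheck_42 : stRange 15115 996 utree.get ftree.get 300 12600 = true := by
  decide +kernel

theorem ucheck_43 : stRange 15115 996 utree.get ftree.get 300 12900 = true := by
  decide +kernel

theorem ucheck_44 : stRange 15115 996 utree.get ftree.get 300 13200 = true := by
  decide +kernel

theorem ucheck_45 : stRange 15115 996 utree.get ftree.get 300 13500 = true := by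
  decide +kernel

theorem ucheck_46 : stRange 15115 996 utree.get ftree.get 300 13800 = true := by
  decide +kernel

theorem ucheck_47 : stRange 15115 996 utree.get ftree.get 300 14100 = true := by
  decide +kernel

theorem ucheck_48 : stRange 15115 996 utree.get ftree.get 300 14400 = true := by
  decide +kernel

theorem ucheck_49 : stRange 15115 996 utree.get ftree.get 300 14700 = true := by
  decide +kernel

theorem ucheck_50 : stRange 15115 996 utree.get ftree.get 115 15000 = true := by
  decide +kernel

theorem uall : ∀ j, 0 ≤ j → j < 15115 →
    stOK 15115 996 utree.get ftree.get (utree.get j) = true :=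
  all_trans (b := 300) (stRange_sound 300 0 ucheck_0) <|
  all_trans (b := 600) (stRange_sound 300 300 ucheck_1) <|
  all_trans (b := 900) (stRange_sound 300 600 ucheck_2) <|
  all_trans (b := 1200) (stRange_sound 300 900 ucheck_3) <|
  all_trans (b := 1500) (stRange_sound 300 1200 ucheck_4) <|
  all_trans (b := 1800) (stRange_sound 300 1500 ucheck_5) <|
  all_trans (b := 2100) (stRange_sound 300 1800 ucheck_6) <|
  all_trans (b := 2400) (stRange_sound 300 2100 ucheck_7) <|
  all_trans (b := 2700) (stRange_sound 300 2400 ucheck_8) <|
  all_trans (b := 3000) (stRange_sound 300 2700 ucheck_9) <|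
  all_trans (b := 3300) (stRange_sound 300 3000 ucheck_10) <|
  all_trans (b := 3600) (stRange_sound 300 3300 ucheck_11) <|
  all_trans (b := 3900) (stRange_sound 300 3600 ucheck_12) <|
  all_trans (b := 4200) (stRange_sound 300 3900 ucheck_13) <|
  all_trans (b := 4500) (stRange_sound 300 4200 ucheck_14) <|
  all_trans (b := 4800) (stRange_sound 300 4500 ucheck_15) <|
  all_trans (b := 5100) (stRange_sound 300 4800 ucheck_16) <|
  all_trans (b := 5400) (stRange_sound 300 5100 ucheck_17) <|
  all_trans (b := 5700) (stRange_sound 300 5400 ucheck_18) <|
  all_trans (b := 6000) (stRange_sound 300 5700 ucheck_19) <|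
  all_trans (b := 6300) (stRange_sound 300 6000 ucheck_20) <|
  all_trans (b := 6600) (stRange_sound 300 6300 ucheck_21) <|
  all_trans (b := 6900) (stRange_sound 300 6600 ucheck_22) <|
  all_trans (b := 7200) (stRange_sound 300 6900 ucheck_23) <|
  all_trans (b := 7500) (stRange_sound 300 7200 ucheck_24) <|
  all_trans (b := 7800) (stRange_sound 300 7500 ucheck_25) <|
  all_trans (b := 8100) (stRange_sound 300 7800 ucheck_26) <|
  all_trans (b := 8400) (stRange_sound 300 8100 ucheck_27) <|
  all_trans (b := 8700) (stRange_sound 300 8400 ucheck_28) <|
  all_trans (b := 9000) (stRange_sound 300 8700 ucheck_29) <|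
  all_trans (b := 9300) (stRange_sound 300 9000 ucheck_30) <|
  all_trans (b := 9600) (stRange_sound 300 9300 ucheck_31) <|
  all_trans (b := 9900) (stRange_sound 300 9600 ucheck_32) <|
  all_trans (b := 10200) (stRange_sound 300 9900 ucheck_33) <|
  all_trans (b := 10500) (stRange_sound 300 10200 ucheck_34) <|
  all_trans (b := 10800) (stRange_sound 300 10500 ucheck_35) <|
  all_trans (b := 11100) (stRange_sound 300 10800 ucheck_36) <|
  all_trans (b := 11400) (stRange_sound 300 11100 ucheck_37) <|
  all_trans (b := 11700) (stRange_sound 300 11400 ucheck_38) <|
  all_trans (b := 12000) (stRange_sound 300 11700 ucheck_39) <|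
  all_trans (b := 12300) (stRange_sound 300 12000 ucheck_40) <|
  all_trans (b := 12600) (stRange_sound 300 12300 ucheck_41) <|
  all_trans (b := 12900) (stRange_sound 300 12600 ucheck_42) <|
  all_trans (b := 13200) (stRange_sound 300 12900 ucheck_43) <|
  all_trans (b := 13500) (stRange_sound 300 13200 ucheck_44) <|
  all_trans (b := 13800) (stRange_sound 300 13500 ucheck_45) <|
  all_trans (b := 14100) (stRange_sound 300 13800 ucheck_46) <|
  all_trans (b := 14400) (stRange_sound 300 14100 ucheck_47) <|
  all_trans (b := 14700) (stRange_sound 300 14400 ucheck_48) <|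
  all_trans (b := 15000) (stRange_sound 300 14700 ucheck_49) <|
  stRange_sound 115 15000 ucheck_50

theorem bcheck : boxRange pv.1 pv.2 pl ftree.get 996 0 = true := by
  decide +kernel

/-- the trap of the certificate -/
def trapHole : Set (ℝ × ℝ) := hole pv pl

theorem trapHole_trap : ConvexTrap trapHole :=
  hole_trap (S := 15115) (NF := 996) (get := utree.get) (fget := ftree.get) (by norm_num)
    (by decide +kernel) (by decide +kernel) (fun s hs => uall s (Nat.zero_le s) hs)
    (fun t ht => boxRange_sound 996 0 bcheck t (Nat.zero_le t) (by omega))

theorem trapHole_open : IsOpen trapHole := hole_open pv pl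

/-- the first vertex of the list `pl` -/
def pf : ℕ × ℕ := (pl.headD (0, 0))

theorem pl_eq : pl = pf :: pl.tail := rfl

theorem triOK_pl : triOK pv.1 pv.2 pf.1 pf.2 pl.tail = true := by
  decide +kernel

theorem tri_pl : tri pv.1 pv.2 pf.1 pf.2 pl.tail * 100000000000 < 11886321927 * 2 ^ 97 := by
  decide +kernel

theorem upper : (volume trapHole).toReal < 0.11886321927 := by
  have h1 : (volume trapHole).toReal ≤ (tri pv.1 pv.2 pf.1 pf.2 pl.tail : ℝ) / 2 ^ 97 := by
    unfold trapHole
    rw [pl_eq]
    exact hole_area triOK_pl
  refine h1.trans_lt ?_
  have h2 := tri_pl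
  generalize tri pv.1 pv.2 pf.1 pf.2 pl.tail = A at h2 ⊢
  have h3 : (A : ℝ) * 100000000000 < 11886321927 * 2 ^ 97 := by exact_mod_cast h2
  rw [div_lt_iff₀ (by positivity)]
  norm_num at h3 ⊢
  linarith

end BakerTrap
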